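import Pool.Agent.Q270.SP.Vau
import Pool.Agent.TH915.PW.PrimeSum
import Pool.Agent.TH915.PW.APCount
import Pool.Agent.Y933.KD.Roots

/-!
# Exponential sums over all primes up to `N` and the family of the powers of the primes
-/

set_option autoImplicit false

namespace Pool.Agent.Q270.SP

open Finset Real Filter MeasureTheory
open Pool.Agent.H469R2.NK (e norm_e e_add conj_e)
open Pool.Agent.TH915.PW (prime_bound abel_bound card_primes)

/-- sums over the primes of `(N, N']` -/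
theorem prime_block {θ : ℝ} (hθ0 : 0 < θ) (hθ : ∀ m : ℕ, θ ≠ m) (A : ℝ) (hA : 0 ≤ A) :
    ∃ τ : ℝ, 0 < τ ∧ τ ≤ 1 / 16 ∧ ∃ x₀ : ℕ, ∀ N : ℕ, x₀ ≤ N → ∀ f : ℝ, 1 ≤ f → f ≤ (N : ℝ) ^ A →
      ∀ N' : ℕ, N ≤ N' → N' ≤ 2 * N →
      ‖∑ n ∈ (Ioc N N').filter Nat.Prime, e (f * (n : ℝ) ^ θ)‖ ≤ (N : ℝ) ^ (1 - τ) := by
  obtain ⟨τ, hτ, hτ16, x₀, hx₀⟩ := vm_pow hθ0 hθ A hA
  have hev : ∀ᶠ x : ℝ in atTop, Real.log (2 * x) ≤ x ^ (1 / 4 : ℝ) ∧ 4 ≤ x ^ (τ / 2) ∧ 4 ≤ x := by
    have e1 := (isLittleO_log_rpow_atTop (show (0 : ℝ) < 1 / 8 by norm_num)).def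
      (show (0 : ℝ) < 1 by norm_num)
    filter_upwards [e1, eventually_ge_atTop (4 : ℝ),
      (tendsto_rpow_atTop (show (0 : ℝ) < 1 / 8 by norm_num)).eventually_ge_atTop 2,
      (tendsto_rpow_atTop (show (0 : ℝ) < τ / 2 by positivity)).eventually_ge_atTop 4]
      with x h1 h2 h3 h4
    refine ⟨?_, h4, h2⟩
    have hx0 : (0 : ℝ) < x := by linarith
    rw [Real.norm_eq_abs, Real.norm_eq_abs, abs_of_nonneg (Real.log_nonneg (by linarith)),
      abs_of_nonneg (by positivity), one_mul] at h1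
    have h5 : Real.log (2 * x) = Real.log 2 + Real.log x := Real.log_mul (by norm_num) hx0.ne'
    have h6 := Real.log_two_lt_d9
    have h7 : x ^ (1 / 4 : ℝ) = x ^ (1 / 8 : ℝ) * x ^ (1 / 8 : ℝ) := by
      rw [← Real.rpow_add hx0]; norm_num
    rw [h5, h7]
    nlinarith
  obtain ⟨x₁, hx₁⟩ := eventually_atTop.mp hev
  refine ⟨τ / 2, by positivity, by linarith, max x₀ ⌈x₁⌉₊, ?_⟩
  intro N hN f hf1 hfA N' hNN' hN'
  obtain ⟨hlog, hpow, hN4⟩ := hx₁ N (Nat.ceil_le.mp (le_of_max_le_right hN))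
  have hN0 : (0 : ℝ) < N := by linarith
  have hN1 : (1 : ℝ) ≤ N := by linarith
  have hN4n : 4 ≤ N := by exact_mod_cast hN4
  rcases eq_or_lt_of_le hNN' with rfl | hlt
  · simp only [Finset.Ioc_self, filter_empty, sum_empty, norm_zero]
    positivity
  set G : ℕ → ℂ := fun n => (((if n.Prime then Real.log n else 0 : ℝ)) : ℂ) *
    e (f * (n : ℝ) ^ θ) with hG
  set E : ℝ := 4 * (N : ℝ) ^ (1 - τ) with hE
  have hcls : ∀ t : ℕ, N < t → t ≤ N' → ‖∑ n ∈ Ioc N t, G n‖ ≤ E := by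
    intro t ht1 ht2
    have h1 := prime_bound N t (by omega) (fun n => e (f * (n : ℝ) ^ θ)) (fun n => (norm_e _).le) _
      (hx₀ N (le_of_max_le_left hN) f hf1 hfA t ht1.le (ht2.trans hN'))
    refine h1.trans ?_
    have htr : (t : ℝ) ≤ 2 * N := by exact_mod_cast ht2.trans hN'
    have ht0 : (1 : ℝ) ≤ t := by exact_mod_cast (by omega : 1 ≤ t)
    have h7 : √(t : ℝ) ≤ 3 / 2 * (N : ℝ) ^ (1 / 2 : ℝ) := by
      rw [← Real.sqrt_eq_rpow]
      calc √(t : ℝ) ≤ √((3 / 2) ^ 2 * N) := Real.sqrt_le_sqrt (by linarith)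
        _ = 3 / 2 * √N := by rw [Real.sqrt_mul (by norm_num), Real.sqrt_sq (by norm_num)]
    have h8 : Real.log (t : ℝ) ≤ (N : ℝ) ^ (1 / 4 : ℝ) :=
      (Real.log_le_log (by linarith) htr).trans hlog
    have h9 : 0 ≤ Real.log (t : ℝ) := Real.log_nonneg ht0
    have h10 : 2 * √(t : ℝ) * Real.log t ≤ 3 * (N : ℝ) ^ (1 - τ) := by
      calc 2 * √(t : ℝ) * Real.log t ≤
            2 * (3 / 2 * (N : ℝ) ^ (1 / 2 : ℝ)) * (N : ℝ) ^ (1 / 4 : ℝ) := by gcongr
        _ = 3 * ((N : ℝ) ^ (1 / 2 : ℝ) * (N : ℝ) ^ (1 / 4 : ℝ)) := by ring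
        _ = 3 * (N : ℝ) ^ (3 / 4 : ℝ) := by rw [← Real.rpow_add hN0]; norm_num
        _ ≤ _ := by
            have : (N : ℝ) ^ (3 / 4 : ℝ) ≤ (N : ℝ) ^ (1 - τ) :=
              Real.rpow_le_rpow_of_exponent_le hN1 (by linarith)
            linarith
    rw [hE]
    linarith
  set w : ℕ → ℝ := fun n => (Real.log n)⁻¹ with hw
  have hlogpos : ∀ n : ℕ, N < n → 1 ≤ Real.log n := by
    intro n hn
    rw [Real.le_log_iff_exp_le (by
      have : 0 < n := by omega
      exact_mod_cast this)]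
    have h1 := Real.exp_one_lt_d9
    have h2 : (5 : ℝ) ≤ n := by exact_mod_cast (by omega : 5 ≤ n)
    linarith
  have hab := abel_bound w G N E (fun n hn => by
      have := hlogpos n hn
      rw [hw]
      positivity) (fun n hn => by
      have h1 := hlogpos n hn
      rw [hw]
      simp only
      apply inv_anti₀ (by linarith)
      apply Real.log_le_log
      · have : 0 < n := by omega
        exact_mod_cast this
      · push_cast
        linarith) N' hlt hcls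
  have hsum : ∑ p ∈ (Ioc N N').filter Nat.Prime, e (f * (p : ℝ) ^ θ) =
      ∑ i ∈ Ioc N N', (w i : ℂ) * G i := by
    rw [sum_filter]
    refine sum_congr rfl fun n hn => ?_
    have hn0 := hlogpos n (Finset.mem_Ioc.mp hn).1
    rw [hw, hG]
    simp only
    by_cases h2 : n.Prime
    · rw [if_pos h2, if_pos h2, ← mul_assoc]
      rw [← Complex.ofReal_mul, inv_mul_cancel₀ (by linarith), Complex.ofReal_one, one_mul]
    · rw [if_neg h2, if_neg h2]
      simp
  rw [hsum]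
  refine hab.trans ?_
  have hE0 : 0 ≤ E := by positivity
  have hw1 : w (N + 1) ≤ 1 := by
    rw [hw]
    exact inv_le_one_of_one_le₀ (hlogpos (N + 1) (by omega))
  calc w (N + 1) * E ≤ 1 * E := mul_le_mul_of_nonneg_right hw1 hE0
    _ = 4 * (N : ℝ) ^ (1 - τ) := by rw [one_mul, hE]
    _ ≤ (N : ℝ) ^ (τ / 2) * (N : ℝ) ^ (1 - τ) := by gcongr
    _ = (N : ℝ) ^ (1 - τ / 2) := by
        rw [← Real.rpow_add hN0]
        congr 1
        ring

/-- the primes up to `N` -/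
def Pr (N : ℕ) : Finset ℕ := (Finset.range (N + 1)).filter Nat.Prime

lemma Pr_split {K N : ℕ} (h : K ≤ N) (g : ℕ → ℂ) :
    ∑ p ∈ Pr N, g p = ∑ p ∈ Pr K, g p + ∑ p ∈ (Ioc K N).filter Nat.Prime, g p := by
  rw [← sum_union]
  · refine sum_congr ?_ fun _ _ => rfl
    ext n
    simp only [Pr, mem_filter, mem_range, mem_union, mem_Ioc]
    constructor
    · rintro ⟨h1, h2⟩
      rcases le_or_gt n K with h3 | h3
      · exact Or.inl ⟨by omega, h2⟩
      · exact Or.inr ⟨⟨h3, by omega⟩, h2⟩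
    · rintro (⟨h1, h2⟩ | ⟨⟨h1, h3⟩, h2⟩)
      · exact ⟨by omega, h2⟩
      · exact ⟨by omega, h2⟩
  · rw [Finset.disjoint_left]
    intro n h1 h2
    simp only [Pr, mem_filter, mem_range] at h1
    simp only [mem_filter, mem_Ioc] at h2
    omega

lemma Pr_card_le (N : ℕ) : (Pr N).card ≤ N := by
  have h : Pr N ⊆ Finset.Icc 1 N := by
    intro n hn
    simp only [Pr, mem_filter, mem_range] at hn
    rw [Finset.mem_Icc]
    exact ⟨hn.2.one_lt.le, by omega⟩
  simpa using Finset.card_le_card h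

/-- sums over the primes up to `X` -/
theorem prime_sum {θ : ℝ} (hθ0 : 0 < θ) (hθ : ∀ m : ℕ, θ ≠ m) (A : ℝ) (hA : 0 ≤ A) :
    ∃ τ : ℝ, 0 < τ ∧ τ ≤ 1 / 16 ∧ ∃ x₀ : ℕ, ∀ X : ℕ, x₀ ≤ X → ∀ f : ℝ, 1 ≤ f → f ≤ (X : ℝ) ^ A →
      ‖∑ p ∈ Pr X, e (f * (p : ℝ) ^ θ)‖ ≤ (X : ℝ) ^ (1 - τ) := by
  obtain ⟨τ, hτ, hτ16, x₀, hx₀⟩ := prime_block hθ0 hθ (2 * A + 1) (by positivity)
  have hev : ∀ᶠ x : ℝ in atTop, 2 * (max (x₀ : ℝ) (4 ^ A)) + 4 ≤ x ^ (1 / 2 : ℝ) ∧
      8 ≤ x ^ (τ / 4) ∧ 1 ≤ x := by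
    filter_upwards [(tendsto_rpow_atTop (show (0 : ℝ) < 1 / 2 by norm_num)).eventually_ge_atTop
      (2 * (max (x₀ : ℝ) (4 ^ A)) + 4),
      (tendsto_rpow_atTop (show (0 : ℝ) < τ / 4 by positivity)).eventually_ge_atTop 8,
      eventually_ge_atTop (1 : ℝ)] with x a1 a2 a3
    exact ⟨a1, a2, a3⟩
  obtain ⟨x₁, hx₁⟩ := eventually_atTop.mp hev
  refine ⟨τ / 4, by positivity, by linarith, ⌈x₁⌉₊, ?_⟩
  intro X hX f hf1 hfA
  obtain ⟨hX1, hX2, hX3⟩ := hx₁ X (Nat.ceil_le.mp hX)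
  have hX0 : (0 : ℝ) < X := by linarith
  set H : ℝ := (X : ℝ) ^ (1 / 2 : ℝ) with hH
  set Z : ℝ := (X : ℝ) ^ (-(τ / 2)) with hZ
  have hZ0 : 0 < Z := by positivity
  have hHH : H * H = X := by rw [hH, ← Real.rpow_add hX0]; norm_num
  have hmx1 := le_max_left (x₀ : ℝ) (4 ^ A)
  have hmx2 := le_max_right (x₀ : ℝ) (4 ^ A)
  have h4A : (0 : ℝ) < 4 ^ A := by positivity
  have hH0 : 0 < H := by linarith
  have claim : ∀ N : ℕ, N ≤ X → ‖∑ p ∈ Pr N, e (f * (p : ℝ) ^ θ)‖ ≤ H + 6 * (N * Z) := by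
    intro N
    induction N using Nat.strong_induction_on with
    | _ N ih =>
      intro hNX
      rcases le_or_gt (N : ℝ) H with hNH | hNH
      · calc ‖∑ p ∈ Pr N, e (f * (p : ℝ) ^ θ)‖ ≤ ∑ p ∈ Pr N, (1 : ℝ) :=
              (norm_sum_le _ _).trans (sum_le_sum fun p _ => (norm_e _).le)
          _ = (Pr N).card := by simp
          _ ≤ N := by exact_mod_cast Pr_card_le N
          _ ≤ H := hNH
          _ ≤ _ := by
              have : 0 ≤ 6 * (N * Z) := by positivity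
              linarith
      · have hN4 : (4 : ℝ) < N := by linarith
        have hN4n : 4 < N := by exact_mod_cast hN4
        set K : ℕ := (N + 1) / 2 with hK
        have hK1 : N ≤ 2 * K := by omega
        have hK2 : K < N := by omega
        have hK3 : 3 * K ≤ 2 * N := by omega
        have hKR1 : (N : ℝ) ≤ 2 * K := by exact_mod_cast hK1
        have hKR3 : 3 * (K : ℝ) ≤ 2 * N := by exact_mod_cast hK3
        have hKH : H ≤ 2 * K := by linarith
        have hK0 : (0 : ℝ) < K := by linarith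
        have hKR : (1 : ℝ) ≤ K := by
          have : 1 ≤ K := by omega
          exact_mod_cast this
        have hfK : f ≤ (K : ℝ) ^ (2 * A + 1) := by
          calc f ≤ (X : ℝ) ^ A := hfA
            _ = (H * H) ^ A := by rw [hHH]
            _ ≤ ((2 * K) * (2 * K)) ^ A := by
                apply Real.rpow_le_rpow (by positivity) _ hA
                gcongr
            _ = (4 * (K : ℝ) ^ (2 : ℝ)) ^ A := by
                congr 1
                rw [Real.rpow_two]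
                ring
            _ = 4 ^ A * (K : ℝ) ^ (2 * A) := by
                rw [Real.mul_rpow (by norm_num) (by positivity), ← Real.rpow_mul hK0.le]
            _ ≤ K * (K : ℝ) ^ (2 * A) := by
                have : (4 : ℝ) ^ A ≤ K := by linarith
                gcongr
            _ = (K : ℝ) ^ (2 * A + 1) := by
                rw [Real.rpow_add hK0, Real.rpow_one]
                ring
        have hblock := hx₀ K (by
          have : (x₀ : ℝ) ≤ K := by linarith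
          exact_mod_cast this) f hf1 hfK N hK2.le hK1
        have hK' : (K : ℝ) ^ (1 - τ) ≤ 2 * (K * Z) := by
          have h1 : (K : ℝ) ^ (-τ) ≤ 2 * Z := by
            have h2 : (2 * (K : ℝ)) ^ (-τ) ≤ H ^ (-τ) :=
              Real.rpow_le_rpow_of_nonpos hH0 hKH (by linarith)
            have h3 : H ^ (-τ) = Z := by
              rw [hH, hZ, ← Real.rpow_mul hX0.le]
              congr 1
              ring
            rw [h3, Real.mul_rpow (by norm_num) hK0.le] at h2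
            have h4 : (1 : ℝ) / 2 ≤ (2 : ℝ) ^ (-τ) := by
              calc (1 : ℝ) / 2 = (2 : ℝ) ^ (-1 : ℝ) := by rw [Real.rpow_neg_one]; norm_num
                _ ≤ _ := Real.rpow_le_rpow_of_exponent_le (by norm_num) (by linarith)
            have h6 : 0 < (K : ℝ) ^ (-τ) := Real.rpow_pos_of_pos hK0 _
            nlinarith
          rw [sub_eq_add_neg, Real.rpow_add hK0, Real.rpow_one]
          nlinarith
        rw [Pr_split hK2.le]
        refine (norm_add_le _ _).trans ?_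
        have h5 := ih K hK2 (hK2.le.trans hNX)
        have h6 : (K : ℝ) * Z ≤ 2 / 3 * (N * Z) := by nlinarith
        have h7 : 0 ≤ (N : ℝ) * Z := by positivity
        linarith
  have h1 := claim X le_rfl
  refine h1.trans ?_
  have h2 : (X : ℝ) * Z = (X : ℝ) ^ (1 - τ / 2) := by
    rw [hZ, sub_eq_add_neg, Real.rpow_add hX0, Real.rpow_one]
  have h3 : H ≤ (X : ℝ) ^ (1 - τ / 2) := Real.rpow_le_rpow_of_exponent_le hX3 (by linarith)
  calc H + 6 * (X * Z) ≤ 8 * (X : ℝ) ^ (1 - τ / 2) := by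
        rw [h2]
        have : 0 < (X : ℝ) ^ (1 - τ / 2) := by positivity
        linarith
    _ ≤ (X : ℝ) ^ (τ / 4) * (X : ℝ) ^ (1 - τ / 2) := by gcongr
    _ = (X : ℝ) ^ (1 - τ / 4) := by
        rw [← Real.rpow_add hX0]
        congr 1
        ring

/-- there are many primes -/
lemma Pr_many (ι : ℝ) (hι : 0 < ι) (hι1 : ι ≤ 1) :
    ∀ᶠ N : ℕ in atTop, (N : ℝ) ^ (1 - ι) ≤ ((Pr N).card : ℝ) := by
  have h0 := card_primes 1 one_pos 0 (by simp) 1 (ι / 2) one_pos le_rfl (by positivity)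
  have h1 : Tendsto (fun N : ℕ => (N : ℝ) / 2) atTop atTop :=
    (tendsto_natCast_atTop_atTop (R := ℝ)).atTop_div_const (by norm_num)
  have h2 := (tendsto_rpow_atTop (show 0 < ι / 2 by positivity)).comp
    (tendsto_natCast_atTop_atTop (R := ℝ))
  filter_upwards [h1.eventually h0, h2.eventually_ge_atTop 2, eventually_ge_atTop 1] with N a1 a2 a3
  have hN1 : (1 : ℝ) ≤ N := by exact_mod_cast a3
  have hN0 : (0 : ℝ) < N := by linarith
  simp only [Function.comp] at a2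
  have h3 : ((Ioc ⌊(N : ℝ) / 2⌋₊ ⌊(1 + 1) * ((N : ℝ) / 2)⌋₊).filter
      (fun p => p.Prime ∧ p ≡ 0 [MOD 1])) ⊆ Pr N := by
    intro p hp
    rw [mem_filter, mem_Ioc] at hp
    have h4 : (1 + 1) * ((N : ℝ) / 2) = N := by ring
    rw [h4, Nat.floor_natCast] at hp
    simp only [Pr, mem_filter, mem_range]
    exact ⟨by omega, hp.2.1⟩
  have h5 : (((Ioc ⌊(N : ℝ) / 2⌋₊ ⌊(1 + 1) * ((N : ℝ) / 2)⌋₊).filter
      (fun p => p.Prime ∧ p ≡ 0 [MOD 1])).card : ℝ) ≤ (Pr N).card := by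
    exact_mod_cast Finset.card_le_card h3
  refine le_trans ?_ (a1.trans h5)
  calc (N : ℝ) ^ (1 - ι) ≤ (N : ℝ) ^ (1 - ι / 2) / 2 := by
        rw [le_div_iff₀ (by norm_num), mul_comm]
        calc 2 * (N : ℝ) ^ (1 - ι) ≤ (N : ℝ) ^ (ι / 2) * (N : ℝ) ^ (1 - ι) := by gcongr
          _ = (N : ℝ) ^ (1 - ι / 2) := by
              rw [← Real.rpow_add hN0]
              congr 1
              ring
    _ ≤ (N : ℝ) ^ (1 - ι / 2) / 2 ^ (1 - ι / 2) := by
        apply div_le_div_of_nonneg_left (by positivity) (by positivity)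
        calc (2 : ℝ) ^ (1 - ι / 2) ≤ 2 ^ (1 : ℝ) :=
              Real.rpow_le_rpow_of_exponent_le (by norm_num) (by linarith)
          _ = 2 := Real.rpow_one 2
    _ = ((N : ℝ) / 2) ^ (1 - ι / 2) := (Real.div_rpow hN0.le (by norm_num) _).symm

end Pool.Agent.Q270.SP
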