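import Pool.Agent.Y951.TU.Norm
import Pool.Agent.Y951.TU.Clt

/-!
# Digits of the members of a family of vectors with small Fourier coefficients

The results of `Pool.Agent.Y951.TU` for the multiples of a tuple of algebraic numbers, for arbitrary
families of vectors.
-/

set_option autoImplicit false

namespace Pool.Agent.Q270.SP

open Finset Real MeasureTheory Filter Topology ProbabilityTheory
open Pool.Agent.Y933.KD (wd wd_lt wd_eq_iff Leb WS ci WS_ci cen cen_le cen_sum sigma2 sigma2_cen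
  WS_cen measurable_WS)
open Pool.Agent.Y933.KE (WE TW WE_empty measurableSet_WE normal_TW clt_TW)
open Pool.Agent.Y951.TU (hat lin lin_apply measurable_lin Cube hat_Cube unif unif_prob integral_unif
  real_unif Ev measurableSet_Ev power exists_ge exists_pos_le Psi measurable_Psi tq Ev_tq mix mix_lt
  mix_inj mix_surj tw tw_lt wd_Psi prod_pos' Cube_WE two_le_prod mnT cvT FM FM_mix mn_FM cv_FM
  words mem_words)

variable {r : ℕ} {ι : Type*}

/-- small Fourier coefficients at all nonzero frequencies up to any power of `M` -/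
def GoodT (r : ℕ) (S : ℕ → Set (Measure (Fin r → ℝ))) : Prop :=
  ∀ A : ℝ, 0 ≤ A → ∃ η : ℝ, 0 < η ∧ ∃ M0 : ℕ, ∀ M : ℕ, M0 ≤ M → ∀ P ∈ S M, ∀ l : Fin r → ℤ,
    l ≠ 0 → (∀ j, |(l j : ℝ)| ≤ (M : ℝ) ^ A) → ‖hat (lin r) P l‖ ≤ (M : ℝ) ^ (-η)

/-- the tests -/
theorem tests_T {S : ℕ → Set (Measure (Fin r → ℝ))}
    (hS : ∀ M, 1 ≤ M → ∀ P ∈ S M, IsProbabilityMeasure P) (hG : GoodT r S) (k : ℕ) (A : ℝ)
    (hA : 0 ≤ A) :
    ∃ δ : ℝ, 0 < δ ∧ ∃ C : ℝ, ∀ M : ℕ, 1 ≤ M → ∀ P ∈ S M, ∀ q : Fin k → Fin r → ℤ,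
      (∀ i, q i ≠ 0 ∧ ∀ j, |(q i j : ℝ)| ≤ (M : ℝ) ^ A) →
      ∀ u v : Fin k → ℝ, (∀ i, 0 ≤ u i) → (∀ i, v i ≤ 1) →
      |P.real (Ev (lin r) q u v) - (Cube r).real (Ev (lin r) q u v)| ≤ C * (M : ℝ) ^ (-δ) := by
  obtain ⟨η0, hη0, M0, hM0⟩ := hG (A + 2) (by positivity)
  set η : ℝ := min η0 1 with hη
  have hη' : 0 < η := lt_min hη0 one_pos
  obtain ⟨δ, hδ, _, C, hC⟩ := power (φ := lin r) measurable_lin (Cube r) hat_Cube k
    (S := S) (T := fun M => {q | q ≠ 0 ∧ ∀ j, |(q j : ℝ)| ≤ (M : ℝ) ^ A})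
    (fun M q hq h hh h0 => hq.1 (by
      funext j
      have h1 := congrFun h0 j
      simp only [Pi.smul_apply, smul_eq_mul, Pi.zero_apply] at h1
      exact (mul_eq_zero.1 h1).resolve_left hh)) hS hη' (max M0 (k + 1)) (by
      intro M hM P hP q hq h hh hne
      have hM1 : M0 ≤ M := le_of_max_le_left hM
      have hMk : k + 1 ≤ M := le_of_max_le_right hM
      have hMR : (1 : ℝ) ≤ M := by exact_mod_cast (by omega : 1 ≤ M)
      have hMp : (0 : ℝ) < M := by linarith
      refine (hM0 M hM1 P hP _ hne fun j => ?_).trans ?_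
      · rw [Finset.sum_apply]
        push_cast
        refine (Finset.abs_sum_le_sum_abs _ _).trans ?_
        calc ∑ i, |((h i • q i) j : ℝ)| ≤ ∑ _i : Fin k, (M : ℝ) ^ (1 : ℝ) * (M : ℝ) ^ A := by
              refine sum_le_sum fun i _ => ?_
              rw [Pi.smul_apply, smul_eq_mul]
              push_cast
              rw [abs_mul]
              refine mul_le_mul ((hh i).trans ?_) ((hq i).2 j) (abs_nonneg _) (by positivity)
              exact Real.rpow_le_rpow_of_exponent_le hMR (min_le_right _ _)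
          _ = k * ((M : ℝ) ^ (1 : ℝ) * (M : ℝ) ^ A) := by
              rw [sum_const, card_univ, Fintype.card_fin, nsmul_eq_mul]
          _ ≤ (M : ℝ) ^ (1 : ℝ) * ((M : ℝ) ^ (1 : ℝ) * (M : ℝ) ^ A) := by
              have : (k : ℝ) ≤ (M : ℝ) ^ (1 : ℝ) := by
                rw [Real.rpow_one]
                exact_mod_cast (by omega : k ≤ M)
              gcongr
          _ = (M : ℝ) ^ (A + 2) := by
              rw [← Real.rpow_add hMp, ← Real.rpow_add hMp]
              congr 1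
              ring
      · exact Real.rpow_le_rpow_of_exponent_le hMR (by
          have := min_le_left η0 1
          linarith))
  exact ⟨δ, hδ, C, fun M hM P hP q hq u v hu hv => hC M hM P hP q hq u v hu hv⟩

/-- the measures on the line -/
def SXT (S : ℕ → Set (Measure (Fin r → ℝ))) (b : Fin r → ℕ) (A0 A1 : ℝ) (M : ℕ) :
    Set (Measure ℝ) :=
  {P' | ∃ P ∈ S M, ∃ (s : Fin r → ℕ) (J : ℕ), (∀ j, (s j : ℝ) ≤ A0 * log M) ∧
    A1 * log M ≤ J ∧ P' = P.map (Psi b J s)}

lemma SXT_prob {S : ℕ → Set (Measure (Fin r → ℝ))}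
    (hS : ∀ M, 1 ≤ M → ∀ P ∈ S M, IsProbabilityMeasure P) (b : Fin r → ℕ) (A0 A1 : ℝ) (M : ℕ)
    (hM : 1 ≤ M) (P' : Measure ℝ) (hP : P' ∈ SXT S b A0 A1 M) : IsProbabilityMeasure P' := by
  obtain ⟨P, hP, s, J, _, _, rfl⟩ := hP
  have := hS M hM P hP
  exact Measure.isProbabilityMeasure_map (measurable_Psi b J s).aemeasurable

theorem TW_SXT {S : ℕ → Set (Measure (Fin r → ℝ))}
    (hS : ∀ M, 1 ≤ M → ∀ P ∈ S M, IsProbabilityMeasure P) (hG : GoodT r S) {b : Fin r → ℕ}
    (hb : ∀ j, 1 ≤ b j) (A0 A1 : ℝ) (k : ℕ) : TW (∏ j, b j) k A1 (SXT S b A0 A1) := by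
  obtain ⟨B, hB⟩ := exists_ge (fun j => (b j : ℝ))
  set B1 : ℝ := max B 1 with hB1
  have hB1' : 1 ≤ B1 := le_max_right _ _
  have hbB : ∀ j, (b j : ℝ) ≤ B1 := fun j => (hB j).trans (le_max_left _ _)
  obtain ⟨δ, hδ, C, hC⟩ := tests_T hS hG (k * r) ((|A0| + |A1|) * log B1)
    (mul_nonneg (by positivity) (Real.log_nonneg hB1'))
  refine ⟨δ, hδ, |C|, fun M hM P' hP' n w c hn => ?_⟩
  obtain ⟨P, hP, s, J, hs, hJ, rfl⟩ := hP'
  have := hS M hM P hP
  have hprob := Measure.isProbabilityMeasure_map (μ := P) (measurable_Psi b J s).aemeasurable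
  have hq : 1 ≤ ∏ j, b j := prod_pos' hb
  have hMR : (1 : ℝ) ≤ M := by exact_mod_cast hM
  have hMp : (0 : ℝ) < M := by linarith
  have hlog0 : 0 ≤ log (M : ℝ) := Real.log_nonneg hMR
  have hM0 : 0 ≤ (M : ℝ) ^ (-δ) := by positivity
  have hnJ : ∀ i, n i + w i ≤ J := fun i => by
    have := (hn i).trans hJ
    exact_mod_cast this
  by_cases hc : ∃ i, (∏ j, b j) ^ w i ≤ c i
  · obtain ⟨i, hi⟩ := hc
    rw [WE_empty hq hi, measureReal_empty, measureReal_empty, sub_self, abs_zero]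
    positivity
  push Not at hc
  choose V hV hV2 using fun i => mix_surj hb (w i) (c i) (hc i)
  rw [← Cube_WE hb s n w c, map_measureReal_apply (measurable_Psi b J s) (measurableSet_WE _ _ _ _)]
  have h1 : Psi b J s ⁻¹' WE (∏ j, b j) n w c =
      {x | ∀ i, mix b (w i) (tw b (w i) (fun j => s j + n i) x) = c i} := by
    ext x
    unfold WE
    simp only [Set.mem_preimage, Set.mem_ofPred_eq]
    exact forall_congr' fun i => by rw [wd_Psi hb (hnJ i)]
  have h2 : {x : Fin r → ℝ | ∀ i, mix b (w i) (tw b (w i) (fun j => s j + n i) x) = c i} =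
      {x | ∀ i, tw b (w i) (fun j => s j + n i) x = V i} := by
    ext x
    simp only [Set.mem_ofPred_eq]
    refine forall_congr' fun i => ?_
    rw [← hV2 i]
    constructor
    · intro h
      exact mix_inj hb (w i) _ _ (tw_lt hb _ _ _) (hV i) h
    · intro h
      rw [h]
  rw [h1, h2, Ev_tq hb]
  refine (hC M hM P hP _ (fun p => ?_) _ _ (fun p => by positivity) (fun p => ?_)).trans ?_
  · set j := (finProdFinEquiv.symm p).2 with hj
    set i := (finProdFinEquiv.symm p).1 with hi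
    have hbj0 : 1 ≤ b j := hb j
    have hbj : (1 : ℝ) ≤ b j := by exact_mod_cast hbj0
    have hpow : ((b j : ℝ) ^ (s j + n i)) ≤ (M : ℝ) ^ ((|A0| + |A1|) * log B1) := by
      have h3 : ((s j + n i : ℕ) : ℝ) ≤ (|A0| + |A1|) * log M := by
        push_cast
        have h4 : (s j : ℝ) ≤ |A0| * log M := (hs j).trans (by gcongr; exact le_abs_self _)
        have h5 : (n i : ℝ) ≤ |A1| * log M := by
          have h6 := hn i
          have h7 : (0 : ℝ) ≤ w i := Nat.cast_nonneg _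
          calc (n i : ℝ) ≤ A1 * log M := by linarith
            _ ≤ |A1| * log M := by gcongr; exact le_abs_self _
        linarith
      calc (b j : ℝ) ^ (s j + n i) ≤ B1 ^ (s j + n i) := by gcongr; exact hbB j
        _ = B1 ^ ((s j + n i : ℕ) : ℝ) := (Real.rpow_natCast _ _).symm
        _ ≤ B1 ^ ((|A0| + |A1|) * log M) := Real.rpow_le_rpow_of_exponent_le hB1' h3
        _ = (M : ℝ) ^ ((|A0| + |A1|) * log B1) := by
            rw [Real.rpow_def_of_pos (by linarith), Real.rpow_def_of_pos hMp]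
            congr 1
            ring
    constructor
    · intro h
      have h3 := congrFun h j
      unfold tq at h3
      rw [← hj, ← hi] at h3
      simp only [Pi.single_eq_same, mul_one, Pi.zero_apply] at h3
      have h4 : 0 < b j ^ (s j + n i) := Nat.pow_pos hbj0
      have h5 : ((b j ^ (s j + n i) : ℕ) : ℤ) = 0 := by exact_mod_cast h3
      have h6 : b j ^ (s j + n i) = 0 := by exact_mod_cast h5
      omega
    · intro j'
      unfold tq
      rw [← hj, ← hi]
      by_cases hjj : j' = j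
      · rw [hjj, Pi.single_eq_same, mul_one]
        have h3 : (((b j ^ (s j + n i) : ℕ) : ℤ) : ℝ) = (b j : ℝ) ^ (s j + n i) := by push_cast; rfl
        rw [h3, abs_of_nonneg (by positivity)]
        exact hpow
      · rw [Pi.single_eq_of_ne hjj, mul_zero, Int.cast_zero, abs_zero]
        positivity
  · have hbj : (0 : ℝ) < b (finProdFinEquiv.symm p).2 := by
      exact_mod_cast hb (finProdFinEquiv.symm p).2
    rw [div_le_one (by positivity)]
    exact_mod_cast hV (finProdFinEquiv.symm p).1 (finProdFinEquiv.symm p).2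
  · exact mul_le_mul_of_nonneg_right (le_abs_self C) (by positivity)

open Classical in
/-- joint normality in one tuple of bases -/
theorem normal_one {S : ℕ → Set (Measure (Fin r → ℝ))}
    (hS : ∀ M, 1 ≤ M → ∀ P ∈ S M, IsProbabilityMeasure P) (hG : GoodT r S) (hr : 1 ≤ r)
    {b : Fin r → ℕ} (hb : ∀ j, 2 ≤ b j) (w : ℕ) (A ε : ℝ) (hε : 0 < ε) :
    ∃ c : ℝ, 0 < c ∧ ∃ M₀ : ℕ, ∀ M : ℕ, M₀ ≤ M → ∀ (T : Finset ι) (x : ι → Fin r → ℝ),
      T.Nonempty → unif T x ∈ S M →
      ((T.filter (fun m => ¬ ∀ (k : ℕ) (D s : Fin r → ℕ) (N : ℕ), 1 ≤ k → k ≤ w →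
        (∀ j, D j < b j ^ k) → (∀ j, (s j : ℝ) + N ≤ A * log M) →
        |(((range N).filter (fun i => tw b k (fun j => s j + i) (x m) = D)).card : ℝ) -
          N / ((∏ j, b j : ℕ) : ℝ) ^ k| ≤ ε * log M)).card : ℝ) ≤ T.card * (M : ℝ) ^ (-c) := by
  have hb1 : ∀ j, 1 ≤ b j := fun j => by have := hb j; omega
  obtain ⟨c, hc, M0, h⟩ := normal_TW (b := ∏ j, b j) (w := max w 1) (two_le_prod hr hb)
    (le_max_right _ _) (A := A) hε (SXT_prob hS b A (A + 1)) (TW_SXT hS hG hb1 A (A + 1) 1)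
  have hrR : (0 : ℝ) < r := by exact_mod_cast hr
  set η : ℝ := c / (4 * r) with hη
  have hη0 : 0 < η := by positivity
  set C1 : ℝ := ((|A| + 1) * (1 + 1 / η)) ^ r with hC1
  have hlog : Tendsto (fun M : ℕ => log (M : ℝ)) atTop atTop :=
    Real.tendsto_log_atTop.comp tendsto_natCast_atTop_atTop
  obtain ⟨M1, hM1⟩ := eventually_atTop.1 ((hlog.eventually_ge_atTop (w : ℝ)).and
    (Pool.Agent.Y933.KD.VdC.ev_le C1 (c / 4) (by positivity)))
  refine ⟨c / 2, by positivity, max (max M0 M1) 2, fun M hM T x hTne hxS => ?_⟩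
  have hM0 : M0 ≤ M := (le_max_left _ _).trans ((le_max_left _ _).trans hM)
  obtain ⟨hM2, hM3⟩ := hM1 M ((le_max_right _ _).trans ((le_max_left _ _).trans hM))
  have hM4 : 2 ≤ M := (le_max_right _ _).trans hM
  have hMR : (2 : ℝ) ≤ M := by exact_mod_cast hM4
  have hMp : (0 : ℝ) < M := by linarith
  have hM1' : (1 : ℝ) ≤ M := by linarith
  set t : ℝ := log M with ht
  have ht0 : 0 < t := Real.log_pos (by linarith)
  obtain ⟨U, hU, hP, hx⟩ := h M hM0
  set J : ℕ := ⌈(A + 1) * t⌉₊ with hJ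
  have hJ1 : (A + 1) * t ≤ J := Nat.le_ceil _
  have hT0 : (0 : ℝ) < T.card := by exact_mod_cast hTne.card_pos
  have hPprob := hS M (by omega) _ hxS
  -- the starting places
  set R : Finset (Fin r → ℕ) := (Fintype.piFinset fun _ : Fin r => range (⌊|A| * t⌋₊ + 1)).filter
    (fun s => ∀ j, (s j : ℝ) ≤ A * t) with hR
  have hone : ∀ s ∈ R, ((T.filter (fun m => Psi b J s (x m) ∈ U)).card : ℝ) ≤
      T.card * (M : ℝ) ^ (-c) := by
    intro s hs
    rw [hR, mem_filter] at hs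
    have h1 := hP ((unif T x).map (Psi b J s)) ⟨unif T x, hxS, s, J, hs.2, hJ1, rfl⟩
    rw [map_measureReal_apply (measurable_Psi b J s) hU] at h1
    rw [real_unif _ _ (measurable_Psi b J s hU)] at h1
    rw [div_le_iff₀ hT0, mul_comm] at h1
    exact h1
  have hRcard : (R.card : ℝ) ≤ C1 * (M : ℝ) ^ (c / 4) := by
    have h1 : R.card ≤ (⌊|A| * t⌋₊ + 1) ^ r := by
      refine (card_filter_le _ _).trans (le_of_eq ?_)
      rw [Fintype.card_piFinset]
      simp
    have h2 : ((⌊|A| * t⌋₊ : ℕ) : ℝ) ≤ |A| * t := Nat.floor_le (by positivity)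
    have h3 : 1 + t ≤ (1 + 1 / η) * (M : ℝ) ^ η :=
      Pool.Agent.Y933.KD.VdC.one_add_log_le hM1' hη0
    calc (R.card : ℝ) ≤ (((⌊|A| * t⌋₊ + 1) ^ r : ℕ) : ℝ) := by exact_mod_cast h1
      _ = ((⌊|A| * t⌋₊ : ℝ) + 1) ^ r := by push_cast; ring
      _ ≤ ((|A| + 1) * (1 + t)) ^ r := by
          gcongr
          nlinarith [abs_nonneg A]
      _ ≤ ((|A| + 1) * ((1 + 1 / η) * (M : ℝ) ^ η)) ^ r := by gcongr
      _ = C1 * ((M : ℝ) ^ η) ^ r := by rw [hC1, ← mul_assoc, mul_pow]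
      _ = C1 * (M : ℝ) ^ (c / 4) := by
          rw [← Real.rpow_natCast ((M : ℝ) ^ η), ← Real.rpow_mul hMp.le]
          congr 2
          rw [hη]
          field_simp
  have hsub : T.filter (fun m => ¬ ∀ (k : ℕ) (D s : Fin r → ℕ) (N : ℕ), 1 ≤ k → k ≤ w →
        (∀ j, D j < b j ^ k) → (∀ j, (s j : ℝ) + N ≤ A * t) →
        |(((range N).filter (fun i => tw b k (fun j => s j + i) (x m) = D)).card : ℝ) -
          N / ((∏ j, b j : ℕ) : ℝ) ^ k| ≤ ε * t) ⊆
      R.biUnion fun s => T.filter (fun m => Psi b J s (x m) ∈ U) := by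
    intro m hm
    rw [mem_filter] at hm
    obtain ⟨hmb, hm⟩ := hm
    by_contra hcon
    apply hm
    intro k D s N hk hkw hD hsN
    have hsA : ∀ j, (s j : ℝ) ≤ A * t := fun j => by
      have h1 := hsN j
      have h2 : (0 : ℝ) ≤ N := Nat.cast_nonneg N
      linarith
    have hsT : s ∈ R := by
      rw [hR, mem_filter, Fintype.mem_piFinset]
      refine ⟨fun j => ?_, hsA⟩
      rw [mem_range, Nat.lt_succ_iff]
      apply Nat.le_floor
      refine (hsA j).trans ?_
      gcongr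
      exact le_abs_self A
    have hmU : Psi b J s (x m) ∉ U := by
      intro h1
      apply hcon
      rw [mem_biUnion]
      exact ⟨s, hsT, mem_filter.2 ⟨hmb, h1⟩⟩
    have hNA : (N : ℝ) ≤ A * t := by
      have h1 := hsN ⟨0, hr⟩
      have h2 : (0 : ℝ) ≤ s ⟨0, hr⟩ := Nat.cast_nonneg _
      linarith
    have hDm : mix b k D < (∏ j, b j) ^ k := mix_lt hb1 k D
    have h2 := hx _ hmU k (mix b k D) 0 N hk (hkw.trans (le_max_left _ _)) hDm (by
      push_cast
      rw [zero_add]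
      exact hNA)
    rw [WS_ci (prod_pos' hb1)] at h2
    have h3 : (range N).filter (fun i => wd (∏ j, b j) k (0 + i) (Psi b J s (x m)) =
        mix b k D) = (range N).filter (fun i => tw b k (fun j => s j + i) (x m) = D) := by
      refine filter_congr fun i hi => ?_
      rw [mem_range] at hi
      have h4 : i + k ≤ J := by
        have h5 : ((i + k : ℕ) : ℝ) ≤ J := by
          push_cast
          have h6 : (i : ℝ) ≤ N := by exact_mod_cast hi.le
          have h7 : (k : ℝ) ≤ w := by exact_mod_cast hkw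
          calc (i : ℝ) + k ≤ A * t + t := by linarith
            _ = (A + 1) * t := by ring
            _ ≤ J := hJ1
        exact_mod_cast h5
      rw [zero_add, wd_Psi hb1 h4]
      constructor
      · intro h5
        exact mix_inj hb1 k _ _ (tw_lt hb1 _ _ _) hD h5
      · intro h5
        rw [h5]
    rw [h3] at h2
    exact h2
  calc _ ≤ ((R.biUnion fun s => T.filter (fun m => Psi b J s (x m) ∈ U)).card : ℝ) :=
        Nat.cast_le.2 (card_le_card hsub)
    _ ≤ ((∑ s ∈ R, (T.filter (fun m => Psi b J s (x m) ∈ U)).card : ℕ) : ℝ) :=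
        Nat.cast_le.2 card_biUnion_le
    _ = ∑ s ∈ R, ((T.filter (fun m => Psi b J s (x m) ∈ U)).card : ℝ) := by
        push_cast; rfl
    _ ≤ ∑ _s ∈ R, T.card * (M : ℝ) ^ (-c) := sum_le_sum hone
    _ = R.card * (T.card * (M : ℝ) ^ (-c)) := by rw [sum_const, nsmul_eq_mul]
    _ ≤ (C1 * (M : ℝ) ^ (c / 4)) * (T.card * (M : ℝ) ^ (-c)) := by gcongr
    _ ≤ ((M : ℝ) ^ (c / 4) * (M : ℝ) ^ (c / 4)) * (T.card * (M : ℝ) ^ (-c)) := by gcongr
    _ = T.card * ((M : ℝ) ^ (c / 4) * (M : ℝ) ^ (c / 4) * (M : ℝ) ^ (-c)) := by ring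
    _ = T.card * (M : ℝ) ^ (-(c / 2)) := by
        rw [← Real.rpow_add hMp, ← Real.rpow_add hMp]
        congr 2
        ring

/-- the laws -/
noncomputable def PTT (T : ℕ → Finset ι) (x : ℕ → ι → Fin r → ℝ) (b : Fin r → ℕ)
    (s : ℕ → Fin r → ℕ) (J : ℕ → ℕ) (M : ℕ) : Measure ℝ :=
  open Classical in if (T M).Nonempty then (unif (T M) (x M)).map (Psi b (J M) (s M)) else Leb

lemma PTT_prob (T : ℕ → Finset ι) (x : ℕ → ι → Fin r → ℝ) (b : Fin r → ℕ)
    (s : ℕ → Fin r → ℕ) (J : ℕ → ℕ) (M : ℕ) : IsProbabilityMeasure (PTT T x b s J M) := by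
  unfold PTT
  split_ifs with h
  · have := unif_prob h (x M)
    exact Measure.isProbabilityMeasure_map (measurable_Psi b _ _).aemeasurable
  · infer_instance

open Classical in
/-- the central limit theorem -/
theorem clt_T {S : ℕ → Set (Measure (Fin r → ℝ))}
    (hS : ∀ M, 1 ≤ M → ∀ P ∈ S M, IsProbabilityMeasure P) (hG : GoodT r S) {b : Fin r → ℕ}
    (hb : ∀ j, 1 ≤ b j) {w : ℕ} (hw : 1 ≤ w) (F : (Fin r → ℕ) → ℝ)
    (hF : 0 < cvT b w F 0 + 2 * ∑ h ∈ Finset.Ico 1 w, cvT b w F h) (A : ℝ)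
    (T : ℕ → Finset ι) (x : ℕ → ι → Fin r → ℝ)
    (hT : ∀ᶠ M : ℕ in atTop, (T M).Nonempty ∧ unif (T M) (x M) ∈ S M)
    (s : ℕ → Fin r → ℕ) (N : ℕ → ℕ) (hr : 1 ≤ r) (hN : Tendsto N atTop atTop)
    (hsN : ∀ᶠ M : ℕ in atTop, ∀ j, (s M j : ℝ) + N M ≤ A * log M) (a : ℝ) :
    Tendsto (fun M : ℕ => (((T M).filter (fun m =>
      ∑ i ∈ range (N M), F (tw b w (fun j => s M j + i) (x M m)) - N M * mnT b w F ≤
        a * √((cvT b w F 0 + 2 * ∑ h ∈ Finset.Ico 1 w, cvT b w F h) * N M))).card : ℝ) /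
        (T M).card) atTop
      (𝓝 ((gaussianReal 0 1).real (Set.Iic a))) := by
  have hq : 1 ≤ ∏ j, b j := prod_pos' hb
  set J : ℕ → ℕ := fun M => ⌈(A + 1) * log (M : ℝ)⌉₊ with hJ
  have hsig : sigma2 (∏ j, b j) w (cen (∏ j, b j) w (FM b w F)) =
      cvT b w F 0 + 2 * ∑ h ∈ Finset.Ico 1 w, cvT b w F h := by
    rw [sigma2_cen hq]
    simp only [cv_FM hb]
  have hprob : ∀ M, IsProbabilityMeasure (PTT T x b s J M) := PTT_prob T x b s J
  have key := clt_TW (G := cen (∏ j, b j) w (FM b w F)) hq hw (cen_le _ w _) (cen_sum hq _)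
    (by rw [hsig]; exact hF) (SXT_prob hS b A (A + 1))
    (fun k => TW_SXT hS hG hb A (A + 1) k) (PTT T x b s J) (by
      filter_upwards [hsN, hT] with M hM hTM
      unfold PTT
      rw [if_pos hTM.1]
      exact ⟨_, hTM.2, s M, J M, fun j => by
        have h1 := hM j
        have h2 : (0 : ℝ) ≤ N M := Nat.cast_nonneg _
        linarith, Nat.le_ceil _, rfl⟩) (fun _ => 0) N hN (by
      filter_upwards [hsN] with M hM
      have h1 := hM ⟨0, hr⟩
      have h2 : (0 : ℝ) ≤ s M ⟨0, hr⟩ := Nat.cast_nonneg _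
      push_cast
      linarith) a
  refine key.congr' ?_
  have hlog : Tendsto (fun M : ℕ => log (M : ℝ)) atTop atTop :=
    Real.tendsto_log_atTop.comp tendsto_natCast_atTop_atTop
  filter_upwards [hsN, hT, hlog.eventually_ge_atTop (w : ℝ)] with M hM hTM hMw
  have hmeas : MeasurableSet {z | WS (∏ j, b j) w (cen (∏ j, b j) w (FM b w F)) 0 (N M) z ≤
      a * √(sigma2 (∏ j, b j) w (cen (∏ j, b j) w (FM b w F)) * N M)} :=
    measurableSet_le (measurable_WS _ _ _ _ _) measurable_const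
  unfold PTT
  rw [if_pos hTM.1, map_measureReal_apply (measurable_Psi b _ _) hmeas,
    real_unif _ _ (measurable_Psi b _ _ hmeas)]
  congr 2
  apply congrArg Finset.card
  refine filter_congr fun m _ => ?_
  simp only [Set.mem_preimage, Set.mem_ofPred_eq]
  rw [WS_cen hq, hsig, mn_FM hb]
  have h3 : ∑ i ∈ range (N M), FM b w F (wd (∏ j, b j) w (0 + i) (Psi b (J M) (s M)
      (x M m))) = ∑ i ∈ range (N M), F (tw b w (fun j => s M j + i)
        (x M m)) := by
    refine sum_congr rfl fun i hi => ?_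
    rw [mem_range] at hi
    have h4 : i + w ≤ J M := by
      have h5 : ((i + w : ℕ) : ℝ) ≤ J M := by
        push_cast
        have h6 : (i : ℝ) ≤ N M := by exact_mod_cast hi.le
        have h7 := hM ⟨0, hr⟩
        have h8 : (0 : ℝ) ≤ s M ⟨0, hr⟩ := Nat.cast_nonneg _
        calc (i : ℝ) + w ≤ A * log M + log M := by linarith
          _ = (A + 1) * log M := by ring
          _ ≤ J M := Nat.le_ceil _
      exact_mod_cast h5
    rw [zero_add, wd_Psi hb h4, FM_mix hb]
    exact mem_words.2 (tw_lt hb _ _ _)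
  rw [h3]

end Pool.Agent.Q270.SP
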