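import Pool.Agent.Q270.SP.VauFam
import Pool.Agent.Q270.SP.Prime
import Pool.Agent.Q270.SP.Tup

/-!
# Several powers of the integers and of the primes of a residue class: a good family
-/

set_option autoImplicit false

namespace Pool.Agent.Q270.SP

open Finset Real Filter MeasureTheory
open Pool.Agent.H469R2.NK (e norm_e e_add conj_e)
open Pool.Agent.TH915.PW (prime_bound abel_bound card_primes class_bound)
open Pool.Agent.Y951.TU (hat lin lin_apply unif unif_prob integral_unif exists_ge exists_pos_le)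

/-- from dyadic blocks to an initial interval -/
theorem dyadic (τ : ℝ) (hτ : 0 < τ) (hτ1 : τ ≤ 1 / 4) :
    ∃ x₀ : ℕ, ∀ X : ℕ, x₀ ≤ X → ∀ z : ℕ → ℂ, (∀ n, ‖z n‖ ≤ 1) →
      (∀ K N : ℕ, (X : ℝ) ^ (1 / 2 : ℝ) ≤ 2 * K → K ≤ N → N ≤ 2 * K → N ≤ X →
        ‖∑ n ∈ Ioc K N, z n‖ ≤ (K : ℝ) ^ (1 - τ)) →
      ‖∑ n ∈ Ioc 0 X, z n‖ ≤ (X : ℝ) ^ (1 - τ / 4) := by
  have hev : ∀ᶠ x : ℝ in atTop, 4 ≤ x ^ (1 / 2 : ℝ) ∧ 8 ≤ x ^ (τ / 4) ∧ 1 ≤ x := by
    filter_upwards [(tendsto_rpow_atTop (show (0 : ℝ) < 1 / 2 by norm_num)).eventually_ge_atTop 4,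
      (tendsto_rpow_atTop (show (0 : ℝ) < τ / 4 by positivity)).eventually_ge_atTop 8,
      eventually_ge_atTop (1 : ℝ)] with x a1 a2 a3
    exact ⟨a1, a2, a3⟩
  obtain ⟨x₁, hx₁⟩ := eventually_atTop.mp hev
  refine ⟨⌈x₁⌉₊, ?_⟩
  intro X hX z hz hblock
  obtain ⟨hX1, hX2, hX3⟩ := hx₁ X (Nat.ceil_le.mp hX)
  have hX0 : (0 : ℝ) < X := by linarith
  set H : ℝ := (X : ℝ) ^ (1 / 2 : ℝ) with hH
  set Z : ℝ := (X : ℝ) ^ (-(τ / 2)) with hZ
  have hZ0 : 0 < Z := by positivity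
  have hH0 : 0 < H := by linarith
  have claim : ∀ N : ℕ, N ≤ X → ‖∑ n ∈ Ioc 0 N, z n‖ ≤ H + 6 * (N * Z) := by
    intro N
    induction N using Nat.strong_induction_on with
    | _ N ih =>
      intro hNX
      rcases le_or_gt (N : ℝ) H with hNH | hNH
      · calc ‖∑ n ∈ Ioc 0 N, z n‖ ≤ ∑ n ∈ Ioc 0 N, (1 : ℝ) :=
              (norm_sum_le _ _).trans (sum_le_sum fun n _ => hz n)
          _ = N := by simp
          _ ≤ H := hNH
          _ ≤ _ := by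
              have : 0 ≤ 6 * (N * Z) := by positivity
              linarith
      · have hN4 : (4 : ℝ) < N := by linarith
        have hN4n : 4 < N := by exact_mod_cast hN4
        set K : ℕ := (N + 1) / 2 with hK
        have hK1 : N ≤ 2 * K := by omega
        have hK2 : K < N := by omega
        have hK3 : 3 * K ≤ 2 * N := by omega
        have hKR1 : (N : ℝ) ≤ 2 * K := by exact_mod_cast hK1
        have hKR3 : 3 * (K : ℝ) ≤ 2 * N := by exact_mod_cast hK3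
        have hKH : H ≤ 2 * K := by linarith
        have hK0 : (0 : ℝ) < K := by linarith
        have hb := hblock K N hKH hK2.le hK1 hNX
        have hK' : (K : ℝ) ^ (1 - τ) ≤ 2 * (K * Z) := by
          have h1 : (K : ℝ) ^ (-τ) ≤ 2 * Z := by
            have h2 : (2 * (K : ℝ)) ^ (-τ) ≤ H ^ (-τ) :=
              Real.rpow_le_rpow_of_nonpos hH0 hKH (by linarith)
            have h3 : H ^ (-τ) = Z := by
              rw [hH, hZ, ← Real.rpow_mul hX0.le]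
              congr 1
              ring
            rw [h3, Real.mul_rpow (by norm_num) hK0.le] at h2
            have h4 : (1 : ℝ) / 2 ≤ (2 : ℝ) ^ (-τ) := by
              calc (1 : ℝ) / 2 = (2 : ℝ) ^ (-1 : ℝ) := by rw [Real.rpow_neg_one]; norm_num
                _ ≤ _ := Real.rpow_le_rpow_of_exponent_le (by norm_num) (by linarith)
            have h6 : 0 < (K : ℝ) ^ (-τ) := Real.rpow_pos_of_pos hK0 _
            nlinarith
          rw [sub_eq_add_neg, Real.rpow_add hK0, Real.rpow_one]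
          nlinarith
        rw [← Finset.sum_Ioc_consecutive _ (Nat.zero_le K) hK2.le]
        refine (norm_add_le _ _).trans ?_
        have h5 := ih K hK2 (hK2.le.trans hNX)
        have h6 : (K : ℝ) * Z ≤ 2 / 3 * (N * Z) := by nlinarith
        have h7 : 0 ≤ (N : ℝ) * Z := by positivity
        linarith
  have h1 := claim X le_rfl
  refine h1.trans ?_
  have h2 : (X : ℝ) * Z = (X : ℝ) ^ (1 - τ / 2) := by
    rw [hZ, sub_eq_add_neg, Real.rpow_add hX0, Real.rpow_one]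
  have h3 : H ≤ (X : ℝ) ^ (1 - τ / 2) := Real.rpow_le_rpow_of_exponent_le hX3 (by linarith)
  calc H + 6 * (X * Z) ≤ 8 * (X : ℝ) ^ (1 - τ / 2) := by
        rw [h2]
        have : 0 < (X : ℝ) ^ (1 - τ / 2) := by positivity
        linarith
    _ ≤ (X : ℝ) ^ (τ / 4) * (X : ℝ) ^ (1 - τ / 2) := by gcongr
    _ = (X : ℝ) ^ (1 - τ / 4) := by
        rw [← Real.rpow_add hX0]
        congr 1
        ring

/-- sizes of the frequencies in the blocks -/
lemma freq_block (A : ℝ) (hA : 0 ≤ A) (x₀ : ℕ) : ∃ x₁ : ℕ, ∀ X : ℕ, x₁ ≤ X → ∀ K : ℕ,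
    (X : ℝ) ^ (1 / 2 : ℝ) ≤ 2 * K → x₀ ≤ K ∧ (X : ℝ) ^ A ≤ (K : ℝ) ^ (2 * A + 1) := by
  have hev : ∀ᶠ x : ℝ in atTop, 2 * (max (x₀ : ℝ) (4 ^ A)) + 4 ≤ x ^ (1 / 2 : ℝ) ∧ 1 ≤ x := by
    filter_upwards [(tendsto_rpow_atTop (show (0 : ℝ) < 1 / 2 by norm_num)).eventually_ge_atTop
      (2 * (max (x₀ : ℝ) (4 ^ A)) + 4), eventually_ge_atTop (1 : ℝ)] with x a1 a3
    exact ⟨a1, a3⟩
  obtain ⟨x₁, hx₁⟩ := eventually_atTop.mp hev
  refine ⟨⌈x₁⌉₊, fun X hX K hK => ?_⟩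
  obtain ⟨hX1, hX3⟩ := hx₁ X (Nat.ceil_le.mp hX)
  have hX0 : (0 : ℝ) < X := by linarith
  set H : ℝ := (X : ℝ) ^ (1 / 2 : ℝ) with hH
  have hHH : H * H = X := by rw [hH, ← Real.rpow_add hX0]; norm_num
  have hmx1 := le_max_left (x₀ : ℝ) (4 ^ A)
  have hmx2 := le_max_right (x₀ : ℝ) (4 ^ A)
  have h4A : (0 : ℝ) < 4 ^ A := by positivity
  have hH0 : 0 < H := by linarith
  have hK0 : (0 : ℝ) < K := by linarith
  refine ⟨?_, ?_⟩
  · have : (x₀ : ℝ) ≤ K := by linarith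
    exact_mod_cast this
  · calc (X : ℝ) ^ A = (H * H) ^ A := by rw [hHH]
      _ ≤ ((2 * K) * (2 * K)) ^ A := by
          apply Real.rpow_le_rpow (by positivity) _ hA
          gcongr
      _ = (4 * (K : ℝ) ^ (2 : ℝ)) ^ A := by
          congr 1
          rw [Real.rpow_two]
          ring
      _ = 4 ^ A * (K : ℝ) ^ (2 * A) := by
          rw [Real.mul_rpow (by norm_num) (by positivity), ← Real.rpow_mul hK0.le]
      _ ≤ K * (K : ℝ) ^ (2 * A) := by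
          have : (4 : ℝ) ^ A ≤ K := by linarith
          gcongr
      _ = (K : ℝ) ^ (2 * A + 1) := by
          rw [Real.rpow_add hK0, Real.rpow_one]
          ring

section

variable {r d : ℕ} {θ : Fin r → ℝ}

/-- sums over the integers up to `X` -/
theorem int_sum (hθ0 : ∀ j, 0 < θ j) (hθ : ∀ j, ∀ m : ℕ, θ j ≠ m)
    (hinj : Function.Injective θ) (A : ℝ) (hA : 0 ≤ A) :
    ∃ τ : ℝ, 0 < τ ∧ τ ≤ 1 / 16 ∧ ∃ x₀ : ℕ, ∀ X : ℕ, x₀ ≤ X → ∀ f : Fin r → ℝ,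
      (∃ j, 1 ≤ |f j|) → (∀ j, |f j| ≤ (X : ℝ) ^ A) → ∀ Q : Polynomial ℝ, Q.natDegree ≤ d →
      ‖∑ n ∈ Ioc 0 X, e (Fp θ f Q n)‖ ≤ (X : ℝ) ^ (1 - τ) := by
  obtain ⟨ρ, hρ, hρ4, X0, hX0⟩ := fam_block (d := d) hθ0 hθ hinj (2 * A + 1) (by positivity)
  obtain ⟨x₁, hx₁⟩ := freq_block A hA X0
  obtain ⟨x₂, hx₂⟩ := dyadic ρ hρ hρ4
  refine ⟨ρ / 4, by positivity, by linarith, max x₁ x₂, ?_⟩
  intro X hX f hf1 hfA Q hQ
  refine hx₂ X (le_of_max_le_right hX) _ (fun n => (norm_e _).le) ?_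
  intro K N hK hKN hN hNX
  obtain ⟨h1, h2⟩ := hx₁ X (le_of_max_le_left hX) K hK
  exact hX0 K h1 N (by omega) f hf1 (fun j => (hfA j).trans h2) Q hQ

/-- sums over the primes of a dyadic block -/
theorem prime_blockF (hθ0 : ∀ j, 0 < θ j) (hθ : ∀ j, ∀ m : ℕ, θ j ≠ m)
    (hinj : Function.Injective θ) (A : ℝ) (hA : 0 ≤ A) :
    ∃ τ : ℝ, 0 < τ ∧ τ ≤ 1 / 16 ∧ ∃ x₀ : ℕ, ∀ N : ℕ, x₀ ≤ N → ∀ f : Fin r → ℝ,
      (∃ j, 1 ≤ |f j|) → (∀ j, |f j| ≤ (N : ℝ) ^ A) → ∀ Q : Polynomial ℝ, Q.natDegree ≤ d →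
      ∀ N' : ℕ, N ≤ N' → N' ≤ 2 * N →
      ‖∑ n ∈ Ioc N N', (if n.Prime then e (Fp θ f Q n) else 0)‖ ≤ (N : ℝ) ^ (1 - τ) := by
  obtain ⟨τ, hτ, hτ16, x₀, hx₀⟩ := vm_fam (d := d) hθ0 hθ hinj A hA
  have hev : ∀ᶠ x : ℝ in atTop, Real.log (2 * x) ≤ x ^ (1 / 4 : ℝ) ∧ 4 ≤ x ^ (τ / 2) ∧ 4 ≤ x := by
    have e1 := (isLittleO_log_rpow_atTop (show (0 : ℝ) < 1 / 8 by norm_num)).def
      (show (0 : ℝ) < 1 by norm_num)
    filter_upwards [e1, eventually_ge_atTop (4 : ℝ),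
      (tendsto_rpow_atTop (show (0 : ℝ) < 1 / 8 by norm_num)).eventually_ge_atTop 2,
      (tendsto_rpow_atTop (show (0 : ℝ) < τ / 2 by positivity)).eventually_ge_atTop 4]
      with x h1 h2 h3 h4
    refine ⟨?_, h4, h2⟩
    have hx0 : (0 : ℝ) < x := by linarith
    rw [Real.norm_eq_abs, Real.norm_eq_abs, abs_of_nonneg (Real.log_nonneg (by linarith)),
      abs_of_nonneg (by positivity), one_mul] at h1
    have h5 : Real.log (2 * x) = Real.log 2 + Real.log x := Real.log_mul (by norm_num) hx0.ne'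
    have h6 := Real.log_two_lt_d9
    have h7 : x ^ (1 / 4 : ℝ) = x ^ (1 / 8 : ℝ) * x ^ (1 / 8 : ℝ) := by
      rw [← Real.rpow_add hx0]; norm_num
    rw [h5, h7]
    nlinarith
  obtain ⟨x₁, hx₁⟩ := eventually_atTop.mp hev
  refine ⟨τ / 2, by positivity, by linarith, max x₀ ⌈x₁⌉₊, ?_⟩
  intro N hN f hf1 hfA Q hQ N' hNN' hN'
  obtain ⟨hlog, hpow, hN4⟩ := hx₁ N (Nat.ceil_le.mp (le_of_max_le_right hN))
  have hN0 : (0 : ℝ) < N := by linarith
  have hN1 : (1 : ℝ) ≤ N := by linarith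
  have hN4n : 4 ≤ N := by exact_mod_cast hN4
  rcases eq_or_lt_of_le hNN' with rfl | hlt
  · simp only [Finset.Ioc_self, sum_empty, norm_zero]
    positivity
  set G : ℕ → ℂ := fun n => (((if n.Prime then Real.log n else 0 : ℝ)) : ℂ) *
    e (Fp θ f Q n) with hG
  set E : ℝ := 4 * (N : ℝ) ^ (1 - τ) with hE
  have hcls : ∀ t : ℕ, N < t → t ≤ N' → ‖∑ n ∈ Ioc N t, G n‖ ≤ E := by
    intro t ht1 ht2
    have h1 := prime_bound N t (by omega) (fun n => e (Fp θ f Q n)) (fun n => (norm_e _).le) _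
      (hx₀ N (le_of_max_le_left hN) f hf1 hfA Q hQ t ht1.le (ht2.trans hN'))
    refine h1.trans ?_
    have htr : (t : ℝ) ≤ 2 * N := by exact_mod_cast ht2.trans hN'
    have ht0 : (1 : ℝ) ≤ t := by exact_mod_cast (by omega : 1 ≤ t)
    have h7 : √(t : ℝ) ≤ 3 / 2 * (N : ℝ) ^ (1 / 2 : ℝ) := by
      rw [← Real.sqrt_eq_rpow]
      calc √(t : ℝ) ≤ √((3 / 2) ^ 2 * N) := Real.sqrt_le_sqrt (by linarith)
        _ = 3 / 2 * √N := by rw [Real.sqrt_mul (by norm_num), Real.sqrt_sq (by norm_num)]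
    have h8 : Real.log (t : ℝ) ≤ (N : ℝ) ^ (1 / 4 : ℝ) :=
      (Real.log_le_log (by linarith) htr).trans hlog
    have h9 : 0 ≤ Real.log (t : ℝ) := Real.log_nonneg ht0
    have h10 : 2 * √(t : ℝ) * Real.log t ≤ 3 * (N : ℝ) ^ (1 - τ) := by
      calc 2 * √(t : ℝ) * Real.log t ≤
            2 * (3 / 2 * (N : ℝ) ^ (1 / 2 : ℝ)) * (N : ℝ) ^ (1 / 4 : ℝ) := by gcongr
        _ = 3 * ((N : ℝ) ^ (1 / 2 : ℝ) * (N : ℝ) ^ (1 / 4 : ℝ)) := by ring
        _ = 3 * (N : ℝ) ^ (3 / 4 : ℝ) := by rw [← Real.rpow_add hN0]; norm_num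
        _ ≤ _ := by
            have : (N : ℝ) ^ (3 / 4 : ℝ) ≤ (N : ℝ) ^ (1 - τ) :=
              Real.rpow_le_rpow_of_exponent_le hN1 (by linarith)
            linarith
    rw [hE]
    linarith
  set w : ℕ → ℝ := fun n => (Real.log n)⁻¹ with hw
  have hlogpos : ∀ n : ℕ, N < n → 1 ≤ Real.log n := by
    intro n hn
    rw [Real.le_log_iff_exp_le (by
      have : 0 < n := by omega
      exact_mod_cast this)]
    have h1 := Real.exp_one_lt_d9
    have h2 : (5 : ℝ) ≤ n := by exact_mod_cast (by omega : 5 ≤ n)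
    linarith
  have hab := abel_bound w G N E (fun n hn => by
      have := hlogpos n hn
      rw [hw]
      positivity) (fun n hn => by
      have h1 := hlogpos n hn
      rw [hw]
      simp only
      apply inv_anti₀ (by linarith)
      apply Real.log_le_log
      · have : 0 < n := by omega
        exact_mod_cast this
      · push_cast
        linarith) N' hlt hcls
  have hsum : ∑ n ∈ Ioc N N', (if n.Prime then e (Fp θ f Q n) else 0) =
      ∑ i ∈ Ioc N N', (w i : ℂ) * G i := by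
    refine sum_congr rfl fun n hn => ?_
    have hn0 := hlogpos n (Finset.mem_Ioc.mp hn).1
    rw [hw, hG]
    simp only
    by_cases h2 : n.Prime
    · rw [if_pos h2, if_pos h2, ← mul_assoc]
      rw [← Complex.ofReal_mul, inv_mul_cancel₀ (by linarith), Complex.ofReal_one, one_mul]
    · rw [if_neg h2, if_neg h2]
      simp
  rw [hsum]
  refine hab.trans ?_
  have hE0 : 0 ≤ E := by positivity
  have hw1 : w (N + 1) ≤ 1 := by
    rw [hw]
    exact inv_le_one_of_one_le₀ (hlogpos (N + 1) (by omega))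
  calc w (N + 1) * E ≤ 1 * E := mul_le_mul_of_nonneg_right hw1 hE0
    _ = 4 * (N : ℝ) ^ (1 - τ) := by rw [one_mul, hE]
    _ ≤ (N : ℝ) ^ (τ / 2) * (N : ℝ) ^ (1 - τ) := by gcongr
    _ = (N : ℝ) ^ (1 - τ / 2) := by
        rw [← Real.rpow_add hN0]
        congr 1
        ring

/-- the primes up to `N` which are congruent to `a` modulo `q` -/
def PrA (a q N : ℕ) : Finset ℕ := (Finset.Ioc 0 N).filter fun p => p.Prime ∧ p ≡ a [MOD q]

/-- sums over the primes up to `X` of a residue class -/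
theorem class_sum (hθ0 : ∀ j, 0 < θ j) (hθ : ∀ j, ∀ m : ℕ, θ j ≠ m)
    (hinj : Function.Injective θ) (A : ℝ) (hA : 0 ≤ A) :
    ∃ τ : ℝ, 0 < τ ∧ τ ≤ 1 / 16 ∧ ∃ x₀ : ℕ, ∀ X : ℕ, x₀ ≤ X → ∀ f : Fin r → ℝ,
      (∃ j, 1 ≤ |f j|) → (∀ j, |f j| ≤ (X : ℝ) ^ A) → ∀ Q : Polynomial ℝ, Q.natDegree ≤ d →
      ∀ a q : ℕ, 1 ≤ q →
      ‖∑ p ∈ PrA a q X, e (Fp θ f Q p)‖ ≤ (X : ℝ) ^ (1 - τ) := by
  obtain ⟨ρ, hρ, hρ16, X0, hX0⟩ := prime_blockF (d := max d 1) hθ0 hθ hinj (2 * A + 1)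
    (by positivity)
  obtain ⟨x₁, hx₁⟩ := freq_block A hA X0
  obtain ⟨x₂, hx₂⟩ := dyadic ρ hρ (by linarith)
  refine ⟨ρ / 4, by positivity, by linarith, max x₁ x₂, ?_⟩
  intro X hX f hf1 hfA Q hQ a q hq
  have h0 : PrA a q X = ((Ioc 0 X).filter (fun p => p ≡ a [MOD q])).filter Nat.Prime := by
    unfold PrA
    rw [Finset.filter_filter]
    refine filter_congr fun p _ => ?_
    tauto
  rw [h0, sum_filter]
  refine class_bound (Ioc 0 X) (fun n => if n.Prime then e (Fp θ f Q n) else 0) q (by omega) a _ ?_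
  intro j _
  have h1 : ∑ n ∈ Ioc 0 X, (if n.Prime then e (Fp θ f Q n) else 0) * e ((j : ℝ) / q * n) =
      ∑ n ∈ Ioc 0 X, (if n.Prime then e (Fp θ f (Q + Polynomial.C ((j : ℝ) / q) * Polynomial.X) n)
        else 0) := by
    refine sum_congr rfl fun n _ => ?_
    split_ifs
    · rw [← e_add]
      congr 1
      unfold Fp
      simp only [Polynomial.eval_add, Polynomial.eval_mul, Polynomial.eval_C, Polynomial.eval_X]
      ring
    · rw [zero_mul]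
  rw [h1]
  refine hx₂ X (le_of_max_le_right hX) _ (fun n => ?_) ?_
  · split_ifs
    · exact (norm_e _).le
    · rw [norm_zero]; exact zero_le_one
  intro K N hK hKN hN hNX
  obtain ⟨h1, h2⟩ := hx₁ X (le_of_max_le_left hX) K hK
  refine hX0 K h1 f hf1 (fun j => (hfA j).trans h2) _ ?_ N hKN hN
  refine (Polynomial.natDegree_add_le _ _).trans (max_le_max hQ ?_)
  exact (Polynomial.natDegree_C_mul_le _ _).trans Polynomial.natDegree_X_le

end

/-- there are many primes in a residue class -/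
lemma PrA_many (a q : ℕ) (hq : 1 ≤ q) (haq : a.Coprime q) (ι : ℝ) (hι : 0 < ι) :
    ∀ᶠ N : ℕ in atTop, (N : ℝ) ^ (1 - ι) ≤ ((PrA a q N).card : ℝ) := by
  wlog hι1 : ι ≤ 1 with H
  · filter_upwards [H a q hq haq 1 one_pos le_rfl, eventually_ge_atTop 1] with N h1 h2
    have hN1 : (1 : ℝ) ≤ N := by exact_mod_cast h2
    exact (Real.rpow_le_rpow_of_exponent_le hN1 (by linarith)).trans h1
  have h0 := card_primes q (by omega) a haq 1 (ι / 2) one_pos le_rfl (by positivity)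
  have h1 : Tendsto (fun N : ℕ => (N : ℝ) / 2) atTop atTop :=
    (tendsto_natCast_atTop_atTop (R := ℝ)).atTop_div_const (by norm_num)
  have h2 := (tendsto_rpow_atTop (show 0 < ι / 2 by positivity)).comp
    (tendsto_natCast_atTop_atTop (R := ℝ))
  filter_upwards [h1.eventually h0, h2.eventually_ge_atTop 2, eventually_ge_atTop 1] with N a1 a2 a3
  have hN1 : (1 : ℝ) ≤ N := by exact_mod_cast a3
  have hN0 : (0 : ℝ) < N := by linarith
  simp only [Function.comp] at a2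
  have h3 : ((Ioc ⌊(N : ℝ) / 2⌋₊ ⌊(1 + 1) * ((N : ℝ) / 2)⌋₊).filter
      (fun p => p.Prime ∧ p ≡ a [MOD q])) ⊆ PrA a q N := by
    intro p hp
    rw [mem_filter, mem_Ioc] at hp
    have h4 : (1 + 1) * ((N : ℝ) / 2) = N := by ring
    rw [h4, Nat.floor_natCast] at hp
    simp only [PrA, mem_filter, mem_Ioc]
    exact ⟨⟨hp.2.1.pos, hp.1.2⟩, hp.2⟩
  have h5 : (((Ioc ⌊(N : ℝ) / 2⌋₊ ⌊(1 + 1) * ((N : ℝ) / 2)⌋₊).filter
      (fun p => p.Prime ∧ p ≡ a [MOD q])).card : ℝ) ≤ (PrA a q N).card := by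
    exact_mod_cast Finset.card_le_card h3
  refine le_trans ?_ (a1.trans h5)
  calc (N : ℝ) ^ (1 - ι) ≤ (N : ℝ) ^ (1 - ι / 2) / 2 := by
        rw [le_div_iff₀ (by norm_num), mul_comm]
        calc 2 * (N : ℝ) ^ (1 - ι) ≤ (N : ℝ) ^ (ι / 2) * (N : ℝ) ^ (1 - ι) := by gcongr
          _ = (N : ℝ) ^ (1 - ι / 2) := by
              rw [← Real.rpow_add hN0]
              congr 1
              ring
    _ ≤ (N : ℝ) ^ (1 - ι / 2) / 2 ^ (1 - ι / 2) := by
        apply div_le_div_of_nonneg_left (by positivity) (by positivity)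
        calc (2 : ℝ) ^ (1 - ι / 2) ≤ 2 ^ (1 : ℝ) :=
              Real.rpow_le_rpow_of_exponent_le (by norm_num) (by linarith)
          _ = 2 := Real.rpow_one 2
    _ = ((N : ℝ) / 2) ^ (1 - ι / 2) := (Real.div_rpow hN0.le (by norm_num) _).symm

/-- the family of the vectors `ω_j m ^ θ_j + P_j(m)` -/
noncomputable def Vec {r : ℕ} (θ ω : Fin r → ℝ) (P : Fin r → Polynomial ℝ) (m : ℕ) : Fin r → ℝ :=
  fun j => ω j * (m : ℝ) ^ θ j + (P j).eval (m : ℝ)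

/-- the measures: `m` in `I M`, for the polynomials of degree at most `d` and `1 ≤ |ω_j| ≤ M ^ W` -/
def SV {r : ℕ} (θ : Fin r → ℝ) (d : ℕ) (W : ℝ) (I : ℕ → Finset ℕ) (M : ℕ) :
    Set (Measure (Fin r → ℝ)) :=
  {μ | (I M).Nonempty ∧ ∃ (ω : Fin r → ℝ) (P : Fin r → Polynomial ℝ),
    (∀ j, 1 ≤ |ω j| ∧ |ω j| ≤ (M : ℝ) ^ W) ∧ (∀ j, (P j).natDegree ≤ d) ∧
      μ = unif (I M) (Vec θ ω P)}

lemma SV_prob {r : ℕ} (θ : Fin r → ℝ) (d : ℕ) (W : ℝ) (I : ℕ → Finset ℕ) (M : ℕ) (_hM : 1 ≤ M)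
    (μ : Measure (Fin r → ℝ)) (hμ : μ ∈ SV θ d W I M) : IsProbabilityMeasure μ := by
  obtain ⟨hne, ω, P, _, _, rfl⟩ := hμ
  exact unif_prob hne _

/-- the family is good if the exponential sums save a power -/
theorem good_V {r d : ℕ} {θ : Fin r → ℝ} (W : ℝ) (I : ℕ → Finset ℕ)
    (hcard : ∀ ι : ℝ, 0 < ι → ∀ᶠ N : ℕ in atTop, (N : ℝ) ^ (1 - ι) ≤ ((I N).card : ℝ))
    (hsum : ∀ A : ℝ, 0 ≤ A → ∃ τ : ℝ, 0 < τ ∧ ∃ x₀ : ℕ, ∀ X : ℕ, x₀ ≤ X →
      ∀ f : Fin r → ℝ, (∃ j, 1 ≤ |f j|) → (∀ j, |f j| ≤ (X : ℝ) ^ A) → ∀ Q : Polynomial ℝ,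
      Q.natDegree ≤ d → ‖∑ p ∈ I X, e (Fp θ f Q p)‖ ≤ (X : ℝ) ^ (1 - τ)) :
    GoodT r (SV θ d W I) := by
  intro A hA
  obtain ⟨τ, hτ, x₀, hx₀⟩ := hsum (A + |W|) (by positivity)
  obtain ⟨M3, hM3⟩ := eventually_atTop.1 (hcard (τ / 2) (by positivity))
  refine ⟨τ / 2, by positivity, max (max x₀ M3) 1, ?_⟩
  intro M hM μ hμ l hl hlA
  obtain ⟨-, ω, P, hω, hP, rfl⟩ := hμ
  have hMx : x₀ ≤ M := le_of_max_le_left (le_of_max_le_left hM)
  have hMM3 : M3 ≤ M := le_of_max_le_right (le_of_max_le_left hM)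
  have hM1' : 1 ≤ M := le_of_max_le_right hM
  have hMR : (1 : ℝ) ≤ M := by exact_mod_cast hM1'
  have hMp : (0 : ℝ) < M := by linarith
  have hc := hM3 M hMM3
  have key := hx₀ M hMx (fun j => l j * ω j) (by
    obtain ⟨j, hj⟩ : ∃ j, l j ≠ 0 := by
      by_contra hcon
      push Not at hcon
      exact hl (funext hcon)
    refine ⟨j, ?_⟩
    rw [abs_mul]
    have h1 : (1 : ℝ) ≤ |(l j : ℝ)| := by exact_mod_cast Int.one_le_abs hj
    have h2 := (hω j).1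
    nlinarith) (by
    intro j
    rw [abs_mul, Real.rpow_add hMp]
    refine mul_le_mul (hlA j) ((hω j).2.trans ?_) (abs_nonneg _) (by positivity)
    exact Real.rpow_le_rpow_of_exponent_le hMR (le_abs_self W))
    (∑ j, Polynomial.C (l j : ℝ) * P j) (by
      refine Polynomial.natDegree_sum_le_of_forall_le _ _ fun j _ => ?_
      exact (Polynomial.natDegree_C_mul_le _ _).trans (hP j))
  unfold hat
  rw [integral_unif]
  have h1 : ∀ m : ℕ, Pool.Agent.Y933.KD.e (lin r l (Vec θ ω P m)) =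
      e (Fp θ (fun j => l j * ω j) (∑ j, Polynomial.C (l j : ℝ) * P j) m) := by
    intro m
    have h2 : lin r l (Vec θ ω P m) =
        Fp θ (fun j => l j * ω j) (∑ j, Polynomial.C (l j : ℝ) * P j) m := by
      rw [lin_apply]
      unfold Vec Fp
      rw [Polynomial.eval_finsetSum, ← sum_add_distrib]
      refine sum_congr rfl fun j _ => ?_
      simp only [Polynomial.eval_mul, Polynomial.eval_C]
      ring
    rw [h2]
    rfl
  rw [sum_congr rfl fun m _ => h1 m, norm_mul]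
  have hc0 : 0 < (M : ℝ) ^ (1 - τ / 2) := by positivity
  have h4 : ‖(1 / ((I M).card : ℂ))‖ ≤ 1 / (M : ℝ) ^ (1 - τ / 2) := by
    rw [norm_div, norm_one, Complex.norm_natCast]
    exact one_div_le_one_div_of_le hc0 hc
  calc ‖(1 / ((I M).card : ℂ))‖ *
        ‖∑ m ∈ I M, e (Fp θ (fun j => l j * ω j) (∑ j, Polynomial.C (l j : ℝ) * P j) m)‖
      ≤ 1 / (M : ℝ) ^ (1 - τ / 2) * (M : ℝ) ^ (1 - τ) := by gcongr
    _ = (M : ℝ) ^ (-(τ / 2)) := by
        rw [one_div, ← Real.rpow_neg hMp.le, ← Real.rpow_add hMp]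
        congr 1
        ring

end Pool.Agent.Q270.SP
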