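import Pool.Agent.Q270.SP.Smooth

/-!
# Exponential sums with several powers and an arbitrary polynomial
-/

set_option autoImplicit false

namespace Pool.Agent.Q270.SP

open Finset Real Filter
open Pool.Agent.H469R2.NK (e norm_e e_add norm_sum_neg)
open Pool.Agent.Y951.TU (exists_pos_le exists_ge)

/-- the matrix of the falling factorials is invertible -/
lemma vand {r : ℕ} (v : Fin r → ℝ) (hv : Function.Injective v) :
    ∃ c : ℝ, 0 < c ∧ ∀ (a : Fin r → ℝ) (j : Fin r), ∃ i : Fin r,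
      c * |a j| ≤ |∑ l, a l * ∏ x ∈ range (i : ℕ), (v l - x)| := by
  classical
  set N : Matrix (Fin r) (Fin r) ℝ := Matrix.of fun i j : Fin r => (descPochhammer ℝ (j : ℕ)).eval (v i)
    with hN
  have hdet : N.det ≠ 0 := by
    rw [hN, ← Matrix.det_eval_matrixOfPolynomials_eq_det_vandermonde v
      (fun i => descPochhammer ℝ (i : ℕ)) (fun i => descPochhammer_natDegree ℝ i)
      (fun i => monic_descPochhammer ℝ i)]
    exact Matrix.det_vandermonde_ne_zero_iff.2 hv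
  have hunit : IsUnit N.det := isUnit_iff_ne_zero.2 hdet
  set S : ℝ := ∑ i, ∑ j, |N⁻¹ i j| with hS
  have hS0 : 0 ≤ S := sum_nonneg fun _ _ => sum_nonneg fun _ _ => abs_nonneg _
  refine ⟨1 / (1 + S), by positivity, fun a j => ?_⟩
  by_contra hcon
  push Not at hcon
  have hval : ∀ i : Fin r, (Matrix.vecMul a N) i = ∑ l, a l * ∏ x ∈ range (i : ℕ), (v l - x) := by
    intro i
    simp only [Matrix.vecMul, dotProduct, hN, Matrix.of_apply, descPochhammer_eval_eq_prod_range]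
  have hinv : a = Matrix.vecMul (Matrix.vecMul a N) N⁻¹ := by
    rw [Matrix.vecMul_vecMul, Matrix.mul_nonsing_inv _ hunit, Matrix.vecMul_one]
  have haj : a j = ∑ i, (Matrix.vecMul a N) i * N⁻¹ i j := by
    conv_lhs => rw [hinv]
    rfl
  have hlt : ∀ i, |(Matrix.vecMul a N) i| ≤ 1 / (1 + S) * |a j| := fun i => by
    rw [hval i]
    exact (hcon i).le
  have haj0 : 0 < |a j| := by
    have h1 := hcon j
    have h2 := abs_nonneg (∑ l, a l * ∏ x ∈ range (j : ℕ), (v l - x))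
    have h3 : 0 < 1 / (1 + S) * |a j| := lt_of_le_of_lt h2 h1
    exact pos_of_mul_pos_right h3 (by positivity)
  have hb : |a j| ≤ S * (1 / (1 + S) * |a j|) := by
    calc |a j| = |∑ i, (Matrix.vecMul a N) i * N⁻¹ i j| := by rw [← haj]
      _ ≤ ∑ i, |(Matrix.vecMul a N) i * N⁻¹ i j| := Finset.abs_sum_le_sum_abs _ _
      _ ≤ ∑ i, (1 / (1 + S) * |a j|) * |N⁻¹ i j| := by
          refine sum_le_sum fun i _ => ?_
          rw [abs_mul]
          exact mul_le_mul_of_nonneg_right (hlt i) (abs_nonneg _)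
      _ = (1 / (1 + S) * |a j|) * ∑ i, |N⁻¹ i j| := by rw [mul_sum]
      _ ≤ (1 / (1 + S) * |a j|) * S := by
          apply mul_le_mul_of_nonneg_left _ (by positivity)
          rw [hS]
          exact sum_le_sum fun i _ => Finset.single_le_sum (f := fun j => |N⁻¹ i j|)
            (fun _ _ => abs_nonneg _) (mem_univ j)
      _ = _ := by ring
  have h4 : S * (1 / (1 + S) * |a j|) = |a j| * (S / (1 + S)) := by ring
  rw [h4] at hb
  have h5 : S / (1 + S) < 1 := by rw [div_lt_one (by positivity)]; linarith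
  nlinarith

/-- the derivatives of `∑ f_j t ^ θ_j + P(t)` -/
noncomputable def Ph {r : ℕ} (θ f : Fin r → ℝ) (P : Polynomial ℝ) (m : ℕ) (t : ℝ) : ℝ :=
  ∑ j, f j * ((∏ x ∈ range m, (θ j - x)) * t ^ (θ j - m)) + (Polynomial.derivative^[m] P).eval t

lemma Ph_zero {r : ℕ} (θ f : Fin r → ℝ) (P : Polynomial ℝ) (t : ℝ) :
    Ph θ f P 0 t = ∑ j, f j * t ^ θ j + P.eval t := by
  unfold Ph
  simp

lemma Ph_der {r : ℕ} (θ f : Fin r → ℝ) (P : Polynomial ℝ) (m : ℕ) (t : ℝ) (ht : 0 < t) :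
    HasDerivAt (Ph θ f P m) (Ph θ f P (m + 1) t) t := by
  have h1 : ∀ j : Fin r, HasDerivAt (fun t : ℝ => f j * ((∏ x ∈ range m, (θ j - x)) * t ^ (θ j - m)))
      (f j * ((∏ x ∈ range (m + 1), (θ j - x)) * t ^ (θ j - ((m + 1 : ℕ) : ℝ)))) t := by
    intro j
    have h2 : HasDerivAt (fun t : ℝ => t ^ (θ j - m)) ((θ j - m) * t ^ (θ j - m - 1)) t :=
      Real.hasDerivAt_rpow_const (Or.inl ht.ne')
    have h3 := (h2.const_mul (∏ x ∈ range m, (θ j - x))).const_mul (f j)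
    have e1 : f j * ((∏ x ∈ range (m + 1), (θ j - x)) * t ^ (θ j - ((m + 1 : ℕ) : ℝ))) =
        f j * ((∏ x ∈ range m, (θ j - x)) * ((θ j - m) * t ^ (θ j - m - 1))) := by
      rw [prod_range_succ]
      push_cast
      rw [show θ j - (m + 1 : ℝ) = θ j - m - 1 by ring]
      ring
    rw [e1]
    exact h3
  have h4 := HasDerivAt.fun_sum (u := Finset.univ) fun j _ => h1 j
  have h5 : HasDerivAt (fun t => (Polynomial.derivative^[m] P).eval t)
      ((Polynomial.derivative^[m + 1] P).eval t) t := by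
    rw [Function.iterate_succ_apply']
    exact Polynomial.hasDerivAt _ t
  exact h4.add h5

lemma Ph_big {r : ℕ} (θ f : Fin r → ℝ) (P : Polynomial ℝ) {m : ℕ} (hm : P.natDegree < m) (t : ℝ) :
    Ph θ f P m t = ∑ j, f j * ((∏ x ∈ range m, (θ j - x)) * t ^ (θ j - m)) := by
  unfold Ph
  rw [Polynomial.iterate_derivative_eq_zero hm, Polynomial.eval_zero, add_zero]

/-- sums over the integers of `(X, b]` with `b ≤ 3 X` -/
theorem fam_block {r d : ℕ} {θ : Fin r → ℝ} (hθ0 : ∀ j, 0 < θ j) (hθ : ∀ j, ∀ m : ℕ, θ j ≠ m)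
    (hinj : Function.Injective θ) (A : ℝ) (hA : 0 ≤ A) :
    ∃ ρ : ℝ, 0 < ρ ∧ ρ ≤ 1 / 4 ∧ ∃ X0 : ℕ, ∀ X : ℕ, X0 ≤ X → ∀ b : ℕ, b ≤ 3 * X →
      ∀ f : Fin r → ℝ, (∃ j, 1 ≤ |f j|) → (∀ j, |f j| ≤ (X : ℝ) ^ A) →
      ∀ P : Polynomial ℝ, P.natDegree ≤ d →
      ‖∑ m ∈ Ioc X b, e (∑ j, f j * (m : ℝ) ^ θ j + P.eval (m : ℝ))‖ ≤ (X : ℝ) ^ (1 - ρ) := by
  classical
  obtain ⟨σ, hσ, hσ'⟩ := exists_pos_le θ hθ0
  obtain ⟨Θ0, hΘ0⟩ := exists_ge θ
  set Θ : ℝ := max Θ0 0 with hΘ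
  have hΘ1 : ∀ j, θ j ≤ Θ := fun j => (hΘ0 j).trans (le_max_left _ _)
  have hΘ2 : 0 ≤ Θ := le_max_right _ _
  set μ : ℝ := min (σ / 2) (1 / 4) with hμ
  have hμ0 : 0 < μ := lt_min (by positivity) (by norm_num)
  have hμ1 : μ ≤ 1 / 4 := min_le_right _ _
  have hμσ : 2 * μ ≤ σ := by have := min_le_left (σ / 2) (1 / 4); linarith
  set k0 : ℕ := ⌈A + Θ⌉₊ + d + 3 with hk0
  have hk0R : A + Θ + 3 ≤ k0 := by
    rw [hk0]; push_cast
    have := Nat.le_ceil (A + Θ)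
    have : (0 : ℝ) ≤ d := Nat.cast_nonneg d
    linarith
  -- the constants
  obtain ⟨cv, hcv, hvand⟩ := vand (fun j => θ j - k0) (fun i j h => hinj (by simpa using h))
  have hcf : ∀ j, 0 < |∏ x ∈ range k0, (θ j - x)| := fun j => by
    rw [abs_pos]
    exact prod_ne_zero_iff.2 fun x _ => sub_ne_zero.2 (hθ j x)
  obtain ⟨cf, hcf0, hcf1⟩ := exists_pos_le (fun j => |∏ x ∈ range k0, (θ j - x)|) hcf
  set Cf : ℝ := ∑ m ∈ range (k0 + r + 1), ∑ j, |∏ x ∈ range m, (θ j - x)| with hCf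
  have hCf0 : 0 ≤ Cf := sum_nonneg fun _ _ => sum_nonneg fun _ _ => abs_nonneg _
  have hCf1 : ∀ m ≤ k0 + r, ∀ j, |∏ x ∈ range m, (θ j - x)| ≤ Cf := by
    intro m hm j
    rw [hCf]
    refine le_trans ?_ (Finset.single_le_sum
      (f := fun m => ∑ j, |∏ x ∈ range m, (θ j - x)|)
      (fun _ _ => sum_nonneg fun _ _ => abs_nonneg _) (mem_range.2 (by omega : m < k0 + r + 1)))
    exact Finset.single_le_sum (f := fun j => |∏ x ∈ range m, (θ j - x)|)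
      (fun _ _ => abs_nonneg _) (mem_univ j)
  set c : ℝ := cv * cf / 3 ^ (k0 + r) with hc
  have hc0 : 0 < c := by positivity
  set C : ℝ := r * (Cf * 3 ^ Θ) + 1 with hC
  have hC0 : 0 < C := by positivity
  obtain ⟨ρ, hρ, hρ1, X1, hX1⟩ := smooth_sum k0 r (by omega) c C hc0 hC0 μ hμ0 hμ1
  set ρ' : ℝ := ρ / 2 with hρ'
  have hev : ∀ᶠ x : ℝ in atTop, 2 ≤ x ^ (ρ / 2) ∧ 1 ≤ x := by
    filter_upwards [(tendsto_rpow_atTop (show 0 < ρ / 2 by positivity)).eventually_ge_atTop 2,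
      eventually_ge_atTop (1 : ℝ)] with x a1 a2
    exact ⟨a1, a2⟩
  obtain ⟨x2, hx2⟩ := eventually_atTop.1 hev
  refine ⟨ρ / 2, by positivity, by linarith, max X1 ⌈x2⌉₊, ?_⟩
  intro X hX b hb f hf1 hfA P hP
  obtain ⟨hX2, hXR⟩ := hx2 X (Nat.ceil_le.1 (le_of_max_le_right hX))
  have hXp : (0 : ℝ) < X := by linarith
  obtain ⟨j1, hj1⟩ := hf1
  -- the size of the phase
  obtain ⟨j0, -, hj0⟩ := Finset.exists_max_image (Finset.univ : Finset (Fin r))
    (fun j => |f j| * (X : ℝ) ^ θ j) ⟨j1, mem_univ _⟩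
  set Λ : ℝ := |f j0| * (X : ℝ) ^ θ j0 with hΛ
  have hΛmax : ∀ j, |f j| * (X : ℝ) ^ θ j ≤ Λ := fun j => hj0 j (mem_univ j)
  have hΛ1 : (X : ℝ) ^ (2 * μ) ≤ Λ := by
    calc (X : ℝ) ^ (2 * μ) ≤ (X : ℝ) ^ θ j1 :=
          Real.rpow_le_rpow_of_exponent_le hXR (hμσ.trans (hσ' j1))
      _ = 1 * (X : ℝ) ^ θ j1 := (one_mul _).symm
      _ ≤ |f j1| * (X : ℝ) ^ θ j1 := by gcongr
      _ ≤ Λ := hΛmax j1
  have hΛ0 : 0 < Λ := lt_of_lt_of_le (by positivity) hΛ1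
  have hΛ2 : Λ ≤ (X : ℝ) ^ ((k0 : ℝ) - 1 - μ) := by
    calc Λ ≤ (X : ℝ) ^ A * (X : ℝ) ^ Θ := by
          rw [hΛ]
          exact mul_le_mul (hfA j0) (Real.rpow_le_rpow_of_exponent_le hXR (hΘ1 j0)) (by positivity)
            (by positivity)
      _ = (X : ℝ) ^ (A + Θ) := (Real.rpow_add hXp _ _).symm
      _ ≤ _ := Real.rpow_le_rpow_of_exponent_le hXR (by linarith)
  have hpw : ∀ j, ∀ t ∈ Set.Icc (X : ℝ) (3 * X), (X : ℝ) ^ θ j ≤ t ^ θ j ∧
      t ^ θ j ≤ 3 ^ Θ * (X : ℝ) ^ θ j := by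
    intro j t ht
    refine ⟨Real.rpow_le_rpow hXp.le ht.1 (hθ0 j).le, ?_⟩
    calc t ^ θ j ≤ (3 * X) ^ θ j := Real.rpow_le_rpow (hXp.le.trans ht.1) ht.2 (hθ0 j).le
      _ = 3 ^ θ j * (X : ℝ) ^ θ j := Real.mul_rpow (by norm_num) hXp.le
      _ ≤ 3 ^ Θ * (X : ℝ) ^ θ j := by
          gcongr
          · norm_num
          · exact hΘ1 j
  have hup : ∀ m, k0 - 1 ≤ m → m ≤ k0 + r → ∀ t ∈ Set.Icc (X : ℝ) (3 * X),
      |Ph θ f P m t| ≤ C * Λ / (X : ℝ) ^ m := by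
    intro m hm1 hm2 t ht
    have ht0 : 0 < t := hXp.trans_le ht.1
    rw [Ph_big θ f P (by omega) t]
    refine (Finset.abs_sum_le_sum_abs _ _).trans ?_
    have h1 : ∀ j, |f j * ((∏ x ∈ range m, (θ j - x)) * t ^ (θ j - m))| ≤
        Cf * 3 ^ Θ * Λ / (X : ℝ) ^ m := by
      intro j
      rw [abs_mul, abs_mul, abs_of_pos (by positivity : 0 < t ^ (θ j - m)),
        Real.rpow_sub ht0, Real.rpow_natCast]
      have h2 : t ^ θ j / t ^ m ≤ 3 ^ Θ * (X : ℝ) ^ θ j / (X : ℝ) ^ m := by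
        gcongr
        · exact (hpw j t ht).2
        · exact ht.1
      calc |f j| * (|∏ x ∈ range m, (θ j - x)| * (t ^ θ j / t ^ m)) ≤
            |f j| * (Cf * (3 ^ Θ * (X : ℝ) ^ θ j / (X : ℝ) ^ m)) := by
            gcongr
            exact hCf1 m hm2 j
        _ = Cf * 3 ^ Θ * (|f j| * (X : ℝ) ^ θ j) / (X : ℝ) ^ m := by ring
        _ ≤ Cf * 3 ^ Θ * Λ / (X : ℝ) ^ m := by
            gcongr
            exact hΛmax j
    calc ∑ j, |f j * ((∏ x ∈ range m, (θ j - x)) * t ^ (θ j - m))| ≤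
          ∑ _j : Fin r, Cf * 3 ^ Θ * Λ / (X : ℝ) ^ m := sum_le_sum fun j _ => h1 j
      _ = r * (Cf * 3 ^ Θ) * Λ / (X : ℝ) ^ m := by
          rw [sum_const, card_univ, Fintype.card_fin, nsmul_eq_mul]
          ring
      _ ≤ C * Λ / (X : ℝ) ^ m := by
          gcongr
          rw [hC]
          linarith
  have hlow : ∀ t ∈ Set.Icc (X : ℝ) (3 * X), ∃ i < r,
      c * Λ / (X : ℝ) ^ (k0 + i) ≤ |Ph θ f P (k0 + i) t| := by
    intro t ht
    have ht0 : 0 < t := hXp.trans_le ht.1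
    obtain ⟨i, hi⟩ := hvand (fun j => f j * (∏ x ∈ range k0, (θ j - x)) * t ^ θ j) j0
    refine ⟨i, i.2, ?_⟩
    have h1 : ∑ l, f l * (∏ x ∈ range k0, (θ l - x)) * t ^ θ l * ∏ x ∈ range (i : ℕ), (θ l - k0 - x) =
        t ^ (k0 + (i : ℕ)) * Ph θ f P (k0 + i) t := by
      rw [Ph_big θ f P (by omega) t, mul_sum]
      refine sum_congr rfl fun j _ => ?_
      rw [prod_range_add (fun x : ℕ => θ j - (x : ℝ)) k0 (i : ℕ), Real.rpow_sub ht0,
        Real.rpow_natCast]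
      have h2 : ∏ x ∈ range (i : ℕ), (θ j - ((k0 + x : ℕ) : ℝ)) =
          ∏ x ∈ range (i : ℕ), (θ j - k0 - x) := by
        refine prod_congr rfl fun x _ => ?_
        push_cast
        ring
      rw [h2]
      have h3 : t ^ (k0 + (i : ℕ)) ≠ 0 := by positivity
      field_simp
    rw [h1, abs_mul, abs_mul, abs_mul, abs_of_pos (by positivity : 0 < t ^ (k0 + (i : ℕ))),
      abs_of_pos (by positivity : 0 < t ^ θ j0)] at hi
    have h4 : c * Λ * t ^ (k0 + (i : ℕ)) ≤ c * Λ * (3 ^ (k0 + r) * (X : ℝ) ^ (k0 + (i : ℕ))) := by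
      apply mul_le_mul_of_nonneg_left _ (by positivity)
      calc t ^ (k0 + (i : ℕ)) ≤ (3 * X) ^ (k0 + (i : ℕ)) := by
            gcongr
            exact ht.2
        _ = 3 ^ (k0 + (i : ℕ)) * (X : ℝ) ^ (k0 + (i : ℕ)) := mul_pow _ _ _
        _ ≤ 3 ^ (k0 + r) * (X : ℝ) ^ (k0 + (i : ℕ)) := by
            gcongr
            · norm_num
            · exact i.2.le
    have h5 : c * Λ * 3 ^ (k0 + r) ≤ t ^ (k0 + (i : ℕ)) * |Ph θ f P (k0 + i) t| := by
      refine le_trans ?_ hi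
      have h6 := (hpw j0 t ht).1
      have h7 := hcf1 j0
      calc c * Λ * 3 ^ (k0 + r) = cv * (|f j0| * cf * (X : ℝ) ^ θ j0) := by
            rw [hc, hΛ]
            field_simp
        _ ≤ cv * (|f j0| * |∏ x ∈ range k0, (θ j0 - x)| * t ^ θ j0) := by gcongr
    rw [div_le_iff₀ (by positivity)]
    have h8 : 0 < t ^ (k0 + (i : ℕ)) := by positivity
    have h9 : t ^ (k0 + (i : ℕ)) * (c * Λ) ≤
        t ^ (k0 + (i : ℕ)) * (|Ph θ f P (k0 + i) t| * (X : ℝ) ^ (k0 + (i : ℕ))) := by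
      calc t ^ (k0 + (i : ℕ)) * (c * Λ) ≤ c * Λ * (3 ^ (k0 + r) * (X : ℝ) ^ (k0 + (i : ℕ))) := by
            rw [mul_comm]; exact h4
        _ = (c * Λ * 3 ^ (k0 + r)) * (X : ℝ) ^ (k0 + (i : ℕ)) := by ring
        _ ≤ (t ^ (k0 + (i : ℕ)) * |Ph θ f P (k0 + i) t|) * (X : ℝ) ^ (k0 + (i : ℕ)) := by gcongr
        _ = _ := by ring
    exact le_of_mul_le_mul_left h9 h8
  have hder : ∀ m, ∀ t ∈ Set.Icc (X : ℝ) (3 * X), HasDerivAt (Ph θ f P m) (Ph θ f P (m + 1) t) t :=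
    fun m t ht => Ph_der θ f P m t (hXp.trans_le ht.1)
  rcases le_or_gt b X with hbX | hbX
  · rw [Finset.Ioc_eq_empty (by omega), sum_empty, norm_zero]
    positivity
  obtain ⟨L, rfl⟩ := Nat.exists_eq_add_of_le hbX.le
  -- the sum over `range (L + 1)`, or with the last term separate
  have hL2 : L ≤ 2 * X := by omega
  have key := hX1 X (le_of_max_le_left hX) (Ph θ f P) Λ L hL2 hder hup hlow hΛ1 hΛ2
  set g : ℕ → ℂ := fun m => e (∑ j, f j * (m : ℝ) ^ θ j + P.eval (m : ℝ)) with hg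
  have h1 : ∑ n ∈ range L, e (Ph θ f P 0 (X + n)) = ∑ n ∈ range L, g (X + n) := by
    refine sum_congr rfl fun n _ => ?_
    rw [Ph_zero, hg]
    push_cast
    rfl
  have h2 : ∑ m ∈ Ioc X (X + L), g m + g X = ∑ n ∈ range L, g (X + n) + g (X + L) := by
    have h3 : ∑ n ∈ range (L + 1), g (X + n) = ∑ n ∈ range L, g (X + n) + g (X + L) :=
      sum_range_succ _ _
    rw [← h3, sum_range_succ', Nat.add_zero]
    congr 1
    have h4 : ∀ L : ℕ, ∑ m ∈ Ioc X (X + L), g m = ∑ k ∈ range L, g (X + (k + 1)) := by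
      intro L
      induction L with
      | zero => simp
      | succ L ih => rw [sum_range_succ, ← ih, ← Nat.add_assoc, Finset.sum_Ioc_succ_top (by omega)]
    exact h4 L
  have h5 : ∑ m ∈ Ioc X (X + L), g m = ∑ n ∈ range L, g (X + n) + g (X + L) - g X := by
    rw [← h2]; ring
  rw [h5]
  have h6 : ‖g (X + L)‖ = 1 := norm_e _
  have h7 : ‖g X‖ = 1 := norm_e _
  rw [h1] at key
  have h8 : ‖∑ n ∈ range L, g (X + n) + g (X + L) - g X‖ ≤ (X : ℝ) ^ (1 - ρ) + 1 + 1 := by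
    refine (norm_sub_le _ _).trans ?_
    refine add_le_add ((norm_add_le _ _).trans (add_le_add key h6.le)) h7.le
  refine h8.trans ?_
  have hstep : (X : ℝ) ^ (1 - ρ / 2) = (X : ℝ) ^ (ρ / 2) * (X : ℝ) ^ (1 - ρ) := by
    rw [← Real.rpow_add hXp]
    congr 1
    ring
  have hY1 : 2 ≤ (X : ℝ) ^ (1 - ρ) := by
    refine hX2.trans (Real.rpow_le_rpow_of_exponent_le hXR (by linarith))
  rw [hstep]
  nlinarith

end Pool.Agent.Q270.SP
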