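import Pool.Agent.Q270.SP.PrimeFam
import Pool.Agent.Y933.KD.Fam

/-!
# One power of the primes of a residue class and an arbitrary polynomial: a good family of numbers
-/

set_option autoImplicit false

namespace Pool.Agent.Q270.SP

open Finset Real Filter MeasureTheory
open Pool.Agent.Y933.KD (Good hat integral_unif size_freq e norm_e e_add e_neg)

/-- the measures: `ω p ^ θ + P(p)`, `p` in `I M` -/
def S1 (θ : ℝ) (d : ℕ) (W : ℝ) (I : ℕ → Finset ℕ) (M : ℕ) : Set (Measure ℝ) :=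
  {μ | (I M).Nonempty ∧ ∃ (ω : ℝ) (P : Polynomial ℝ), (1 ≤ |ω| ∧ |ω| ≤ (M : ℝ) ^ W) ∧
    P.natDegree ≤ d ∧
    μ = Pool.Agent.Y933.KD.unif (I M) (fun m : ℕ => ω * (m : ℝ) ^ θ + P.eval (m : ℝ))}

lemma S1_prob (θ : ℝ) (d : ℕ) (W : ℝ) (I : ℕ → Finset ℕ) (M : ℕ) (_hM : 1 ≤ M)
    (μ : Measure ℝ) (hμ : μ ∈ S1 θ d W I M) : IsProbabilityMeasure μ := by
  obtain ⟨hne, ω, P, _, _, rfl⟩ := hμ
  exact Pool.Agent.Y933.KD.unif_prob hne _

theorem good_one {θ : ℝ} (hθ0 : 0 < θ) (hθ : ∀ m : ℕ, θ ≠ m) (d : ℕ) (W : ℝ) (a q : ℕ)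
    (hq : 1 ≤ q) (haq : a.Coprime q) (B k : ℕ) (A : ℝ) :
    Good B k A (S1 θ d W (PrA a q)) := by
  set A' : ℝ := |W + (1 + 1 + A * log B)| with hA'
  obtain ⟨τ, hτ, hτ16, x₀, hx₀⟩ := class_sum (d := d) (θ := fun _ : Fin 1 => θ) (fun _ => hθ0)
    (fun _ => hθ) (fun i j _ => Subsingleton.elim i j) A' (abs_nonneg _)
  obtain ⟨M3, hM3⟩ := eventually_atTop.1 (PrA_many a q hq haq (τ / 2) (by positivity))
  refine ⟨τ / 2, by positivity, max (max x₀ M3) (max k 1), ?_⟩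
  intro M hM μ hμ b n h hb hn hh hne
  obtain ⟨-, ω, P, ⟨hω1, hω2⟩, hP, rfl⟩ := hμ
  have hMx : x₀ ≤ M := le_of_max_le_left (le_of_max_le_left hM)
  have hMM3 : M3 ≤ M := le_of_max_le_right (le_of_max_le_left hM)
  have hMk : k ≤ M := le_of_max_le_left (le_of_max_le_right hM)
  have hM1' : 1 ≤ M := le_of_max_le_right (le_of_max_le_right hM)
  have hMR : (1 : ℝ) ≤ M := by exact_mod_cast hM1'
  have hMp : (0 : ℝ) < M := by linarith
  have hcard := hM3 M hMM3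
  set l : ℤ := ∑ i, h i * (b i : ℤ) ^ n i with hl
  have hl1 : (1 : ℝ) ≤ |(l : ℝ)| := by
    have : (1 : ℤ) ≤ |l| := Int.one_le_abs hne
    exact_mod_cast this
  have hl2 : |(l : ℝ)| ≤ (M : ℝ) ^ (1 + 1 + A * log B) := by
    refine (size_freq hM1' hMk b n h hb hn hh).trans ?_
    apply Real.rpow_le_rpow_of_exponent_le hMR
    linarith
  have hf1 : 1 ≤ |(l : ℝ) * ω| := by
    rw [abs_mul]
    nlinarith
  have hf2 : |(l : ℝ) * ω| ≤ (M : ℝ) ^ A' := by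
    calc |(l : ℝ) * ω| ≤ (M : ℝ) ^ (W + (1 + 1 + A * log B)) := by
          rw [abs_mul, Real.rpow_add hMp, mul_comm]
          gcongr
      _ ≤ _ := Real.rpow_le_rpow_of_exponent_le hMR (le_abs_self _)
  have key : ‖∑ m ∈ PrA a q M, e (l * (ω * (m : ℝ) ^ θ + P.eval (m : ℝ)))‖ ≤
      (M : ℝ) ^ (1 - τ) := by
    have h0 := hx₀ M hMx (fun _ => (l : ℝ) * ω) ⟨0, hf1⟩ (fun _ => hf2)
      (Polynomial.C (l : ℝ) * P) ((Polynomial.natDegree_C_mul_le _ _).trans hP) a q hq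
    refine le_trans (le_of_eq ?_) h0
    congr 1
    refine sum_congr rfl fun m _ => ?_
    have h5 : (l : ℝ) * (ω * (m : ℝ) ^ θ + P.eval (m : ℝ)) =
        Fp (fun _ : Fin 1 => θ) (fun _ => (l : ℝ) * ω) (Polynomial.C (l : ℝ) * P) m := by
      unfold Fp
      rw [Fin.sum_univ_one]
      simp only [Polynomial.eval_mul, Polynomial.eval_C]
      ring
    rw [h5]
    rfl
  unfold hat
  rw [integral_unif, norm_mul]
  have hc0 : 0 < (M : ℝ) ^ (1 - τ / 2) := by positivity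
  have h4 : ‖(1 / ((PrA a q M).card : ℂ))‖ ≤ 1 / (M : ℝ) ^ (1 - τ / 2) := by
    rw [norm_div, norm_one, Complex.norm_natCast]
    exact one_div_le_one_div_of_le hc0 hcard
  calc ‖(1 / ((PrA a q M).card : ℂ))‖ *
        ‖∑ m ∈ PrA a q M, e (l * (ω * (m : ℝ) ^ θ + P.eval (m : ℝ)))‖
      ≤ 1 / (M : ℝ) ^ (1 - τ / 2) * (M : ℝ) ^ (1 - τ) := by gcongr
    _ = (M : ℝ) ^ (-(τ / 2)) := by
        rw [one_div, ← Real.rpow_neg hMp.le, ← Real.rpow_add hMp]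
        congr 1
        ring

end Pool.Agent.Q270.SP
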