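import Pool.Agent.Y933.KG.Pm

/-!
# The test of van der Corput without a condition on the next derivative
-/

set_option autoImplicit false

namespace Pool.Agent.Q270.SP

open Finset Real Filter
open Pool.Agent.H469R2.NK (e norm_e e_add norm_sum_neg)
open Pool.Agent.Y933.KG (core_pm const_sign norm_sum_sign)

lemma ico_triv (g : ℕ → ℝ) (x y : ℕ) : ‖∑ n ∈ Ico x y, e (g n)‖ ≤ ((y - x : ℕ) : ℝ) := by
  calc ‖∑ n ∈ Ico x y, e (g n)‖ ≤ ∑ n ∈ Ico x y, (1 : ℝ) :=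
        (norm_sum_le _ _).trans (sum_le_sum fun n _ => (norm_e _).le)
    _ = _ := by simp

/-- a function with a derivative at least `s` -/
lemma incr {a b s : ℝ} {g g' : ℝ → ℝ} (hd : ∀ t ∈ Set.Icc a b, HasDerivAt g (g' t) t)
    (hs : ∀ t ∈ Set.Icc a b, s ≤ g' t) {x y : ℝ} (hx : a ≤ x) (hxy : x ≤ y) (hy : y ≤ b) :
    s * (y - x) ≤ g y - g x := by
  rcases eq_or_lt_of_le hxy with rfl | hlt
  · simp
  obtain ⟨ξ, hξ, hξ'⟩ := exists_hasDerivAt_eq_slope g g' hlt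
    (fun t ht => (hd t ⟨hx.trans ht.1, ht.2.trans hy⟩).continuousAt.continuousWithinAt)
    (fun t ht => hd t ⟨hx.trans ht.1.le, ht.2.le.trans hy⟩)
  have h1 : 0 < y - x := by linarith
  rw [eq_div_iff h1.ne'] at hξ'
  rw [← hξ']
  exact mul_le_mul_of_nonneg_right (hs ξ ⟨hx.trans hξ.1.le, hξ.2.le.trans hy⟩) h1.le

theorem piece_pos (K : ℕ) (hK0 : 1 ≤ K) (μ : ℝ) (hμ : 0 < μ) (hμ1 : μ ≤ 1 / 4) :
    ∃ ρ : ℝ, 0 < ρ ∧ ∃ M0 : ℕ, ∀ M : ℕ, M0 ≤ M → ∀ (a s t₀ hi : ℝ) (ℓ : ℕ) (φ : ℕ → ℝ → ℝ),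
      0 < s → 0 < t₀ → ℓ ≤ M →
      (∀ m, ∀ t ∈ Set.Icc a (a + ℓ), HasDerivAt (φ m) (φ (m + 1) t) t) →
      (∀ t ∈ Set.Icc a (a + ℓ), s ≤ φ (K + 2) t) → (∀ t ∈ Set.Icc a (a + ℓ), |φ (K + 1) t| ≤ hi) →
      hi ≤ t₀ * (M : ℝ) ^ (μ / 4) → t₀ ≤ (M : ℝ) ^ (-μ) → (M : ℝ) ^ (-((K : ℝ) + 1) + μ) ≤ t₀ →
      ‖∑ n ∈ range ℓ, e (φ 0 (a + n))‖ ≤ 2 * (M : ℝ) ^ (1 - ρ) + 2 * t₀ / s + 4 := by
  classical
  obtain ⟨ρ, hρ, M0, hM0⟩ := core_pm K hK0 μ hμ hμ1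
  refine ⟨ρ, hρ, M0, ?_⟩
  intro M hM a s t₀ hi ℓ φ hs ht₀ hℓM hd hsφ hhi hhi2 hup hlow
  have hblock : ∀ x y : ℕ, x ≤ y → y ≤ ℓ →
      (∀ t ∈ Set.Icc (a + x) (a + y), t₀ ≤ |φ (K + 1) t|) →
      ‖∑ n ∈ Ico x y, e (φ 0 (a + n))‖ ≤ (M : ℝ) ^ (1 - ρ) + 1 := by
    intro x y hxy hyℓ hlo
    have hx0 : (0 : ℝ) ≤ x := Nat.cast_nonneg x
    have hyR : (y : ℝ) ≤ ℓ := by exact_mod_cast hyℓ
    have hMρ : 0 ≤ (M : ℝ) ^ (1 - ρ) := by positivity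
    rcases eq_or_lt_of_le hxy with rfl | hlt
    · simp only [Finset.Ico_self, sum_empty, norm_zero]
      linarith
    have hsub : ∀ t ∈ Set.Icc (a + x) (a + y), t ∈ Set.Icc a (a + ℓ) := fun t ht =>
      ⟨by linarith [ht.1], by linarith [ht.2]⟩
    have hcast : ((y - (x + 1) : ℕ) : ℝ) = (y : ℝ) - (x + 1) := by
      rw [Nat.cast_sub hlt]; push_cast; ring
    have key := hM0 M hM (a + x) (a + y) t₀ hi φ ht₀ (fun m t ht => hd m t (hsub t ht)) hlo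
      (fun t ht => hhi t (hsub t ht)) (fun t ht h0 => by
        have := hsφ t (hsub t ht)
        rw [h0] at this
        linarith) 1 (a + x + 1) (y - (x + 1)) (by omega) le_rfl (by rw [hcast]; linarith)
      one_ne_zero hhi2 (by rw [abs_one, one_mul]; exact hup) (by rw [abs_one, one_mul]; exact hlow)
    rw [Finset.sum_eq_sum_Ico_succ_bot hlt, Finset.sum_Ico_eq_sum_range]
    refine (norm_add_le _ _).trans ?_
    rw [norm_e]
    have h2 : ∑ k ∈ range (y - (x + 1)), e (φ 0 (a + ((x + 1 + k : ℕ) : ℝ))) =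
        ∑ n ∈ range (y - (x + 1)), e (1 * φ 0 (a + x + 1 + n)) := by
      refine sum_congr rfl fun n _ => ?_
      rw [one_mul]
      congr 2
      push_cast
      ring
    rw [h2]
    linarith
  have hinc : ∀ x y : ℝ, a ≤ x → x ≤ y → y ≤ a + ℓ → s * (y - x) ≤ φ (K + 1) y - φ (K + 1) x :=
    fun x y h1 h2 h3 => incr (fun t ht => hd (K + 1) t ht) hsφ h1 h2 h3
  set p : ℕ := Nat.findGreatest (fun n : ℕ => φ (K + 1) (a + n) ≤ -t₀) ℓ with hp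
  set q : ℕ := Nat.findGreatest (fun n : ℕ => φ (K + 1) (a + n) < t₀) ℓ with hq
  have hpl : p ≤ ℓ := Nat.findGreatest_le ℓ
  have hql : q ≤ ℓ := Nat.findGreatest_le ℓ
  have hplR : (p : ℝ) ≤ ℓ := by exact_mod_cast hpl
  have hp1 : p ≠ 0 → φ (K + 1) (a + p) ≤ -t₀ := fun h => Nat.findGreatest_of_ne_zero hp.symm h
  have hp2 : ∀ n : ℕ, p < n → n ≤ ℓ → -t₀ < φ (K + 1) (a + n) := fun n h1 h2 =>
    not_le.1 (Nat.findGreatest_is_greatest (P := fun n : ℕ => φ (K + 1) (a + n) ≤ -t₀) h1 h2)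
  have hq1 : q ≠ 0 → φ (K + 1) (a + q) < t₀ := fun h => Nat.findGreatest_of_ne_zero hq.symm h
  have hq2 : ∀ n : ℕ, q < n → n ≤ ℓ → t₀ ≤ φ (K + 1) (a + n) := fun n h1 h2 =>
    not_lt.1 (Nat.findGreatest_is_greatest (P := fun n : ℕ => φ (K + 1) (a + n) < t₀) h1 h2)
  have hpq : p ≤ q := by
    rcases Nat.eq_zero_or_pos p with h | h
    · omega
    · exact Nat.le_findGreatest (P := fun n : ℕ => φ (K + 1) (a + n) < t₀) hpl (by
        have := hp1 (by omega)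
        linarith)
  -- the three parts
  have hMρ : 0 ≤ (M : ℝ) ^ (1 - ρ) := by positivity
  have part1 : ‖∑ n ∈ Ico 0 p, e (φ 0 (a + n))‖ ≤ (M : ℝ) ^ (1 - ρ) + 1 := by
    rcases Nat.eq_zero_or_pos p with h | h
    · rw [h, Finset.Ico_self, sum_empty, norm_zero]
      linarith
    · refine hblock 0 p (Nat.zero_le _) hpl fun t ht => ?_
      rw [Nat.cast_zero, add_zero] at ht
      have h1 := hinc t (a + p) ht.1 ht.2 (by linarith)
      have h2 := hp1 (by omega)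
      have h3 : 0 ≤ s * (a + p - t) := mul_nonneg hs.le (by linarith [ht.2])
      rw [le_abs]
      right
      linarith
  have part3 : ‖∑ n ∈ Ico (min (q + 1) ℓ) ℓ, e (φ 0 (a + n))‖ ≤ (M : ℝ) ^ (1 - ρ) + 1 := by
    rcases lt_or_ge q ℓ with h | h
    · rw [min_eq_left (by omega)]
      refine hblock (q + 1) ℓ (by omega) le_rfl fun t ht => ?_
      have h0 : (0 : ℝ) ≤ ((q + 1 : ℕ) : ℝ) := Nat.cast_nonneg _
      have h1 := hinc (a + ((q + 1 : ℕ) : ℝ)) t (by linarith) ht.1 ht.2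
      have h2 := hq2 (q + 1) (by omega) (by omega)
      have h3 : 0 ≤ s * (t - (a + ((q + 1 : ℕ) : ℝ))) := mul_nonneg hs.le (by linarith [ht.1])
      rw [le_abs]
      left
      linarith
    · rw [min_eq_right (by omega), Finset.Ico_self, sum_empty, norm_zero]
      linarith
  have part2 : ‖∑ n ∈ Ico p (min (q + 1) ℓ), e (φ 0 (a + n))‖ ≤ 2 * t₀ / s + 2 := by
    refine (ico_triv _ _ _).trans ?_
    have h0 : 0 ≤ 2 * t₀ / s := by positivity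
    have h1 : min (q + 1) ℓ - p ≤ q + 1 - p := Nat.sub_le_sub_right (min_le_left _ _) _
    have h2 : ((min (q + 1) ℓ - p : ℕ) : ℝ) ≤ ((q + 1 - p : ℕ) : ℝ) := by exact_mod_cast h1
    refine h2.trans ?_
    rcases eq_or_lt_of_le hpq with h | h
    · rw [h]
      have : q + 1 - q = 1 := by omega
      rw [this]
      push_cast
      linarith
    · have h3 := hq1 (by omega)
      have h4 := hp2 (p + 1) (by omega) (by omega)
      have h5 : ((p + 1 : ℕ) : ℝ) ≤ q := by exact_mod_cast h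
      have h6 : (q : ℝ) ≤ ℓ := by exact_mod_cast hql
      have h0' : (0 : ℝ) ≤ ((p + 1 : ℕ) : ℝ) := Nat.cast_nonneg _
      have h7 := hinc (a + ((p + 1 : ℕ) : ℝ)) (a + q) (by linarith) (by linarith) (by linarith)
      have h8 : s * ((q : ℝ) - ((p + 1 : ℕ) : ℝ)) ≤ 2 * t₀ := by
        have : (a + q : ℝ) - (a + ((p + 1 : ℕ) : ℝ)) = (q : ℝ) - ((p + 1 : ℕ) : ℝ) := by ring
        rw [this] at h7
        linarith
      have h9 : (q : ℝ) - ((p + 1 : ℕ) : ℝ) ≤ 2 * t₀ / s := by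
        rw [le_div_iff₀ hs]
        linarith
      rw [Nat.cast_sub (by omega)]
      push_cast at h9 ⊢
      linarith
  have hsplit : ∑ n ∈ range ℓ, e (φ 0 (a + n)) = ∑ n ∈ Ico 0 p, e (φ 0 (a + n)) +
      ∑ n ∈ Ico p (min (q + 1) ℓ), e (φ 0 (a + n)) +
      ∑ n ∈ Ico (min (q + 1) ℓ) ℓ, e (φ 0 (a + n)) := by
    rw [Finset.sum_Ico_consecutive _ (Nat.zero_le p) (le_min (by omega) hpl),
      Finset.sum_Ico_consecutive _ (Nat.zero_le _) (min_le_right _ _), Finset.range_eq_Ico]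
  rw [hsplit]
  refine (norm_add₃_le).trans ?_
  linarith

/-- a piece on which one derivative is large -/
theorem piece (K : ℕ) (hK0 : 1 ≤ K) (μ : ℝ) (hμ : 0 < μ) (hμ1 : μ ≤ 1 / 4) :
    ∃ ρ : ℝ, 0 < ρ ∧ ∃ M0 : ℕ, ∀ M : ℕ, M0 ≤ M → ∀ (a s t₀ hi : ℝ) (ℓ : ℕ) (φ : ℕ → ℝ → ℝ),
      0 < s → 0 < t₀ → ℓ ≤ M →
      (∀ m, ∀ t ∈ Set.Icc a (a + ℓ), HasDerivAt (φ m) (φ (m + 1) t) t) →
      (∀ t ∈ Set.Icc a (a + ℓ), s ≤ |φ (K + 2) t|) → (∀ t ∈ Set.Icc a (a + ℓ), |φ (K + 1) t| ≤ hi) →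
      hi ≤ t₀ * (M : ℝ) ^ (μ / 4) → t₀ ≤ (M : ℝ) ^ (-μ) → (M : ℝ) ^ (-((K : ℝ) + 1) + μ) ≤ t₀ →
      ‖∑ n ∈ range ℓ, e (φ 0 (a + n))‖ ≤ 2 * (M : ℝ) ^ (1 - ρ) + 2 * t₀ / s + 4 := by
  obtain ⟨ρ, hρ, M0, hM0⟩ := piece_pos K hK0 μ hμ hμ1
  refine ⟨ρ, hρ, M0, ?_⟩
  intro M hM a s t₀ hi ℓ φ hs ht₀ hℓM hd hsφ hhi hhi2 hup hlow
  have hc : ContinuousOn (φ (K + 2)) (Set.Icc a (a + ℓ)) := fun t ht =>
    (hd (K + 2) t ht).continuousAt.continuousWithinAt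
  rcases const_sign hc (fun t ht h0 => by
    have := hsφ t ht
    rw [h0, abs_zero] at this
    linarith) with h | h
  · exact hM0 M hM a s t₀ hi ℓ φ hs ht₀ hℓM hd (fun t ht => by
      have := hsφ t ht
      rwa [abs_of_pos (h t ht)] at this) hhi hhi2 hup hlow
  · have key := hM0 M hM a s t₀ hi ℓ (fun m t => -(φ m t)) hs ht₀ hℓM
      (fun m t ht => (hd m t ht).neg) (fun t ht => by
        have := hsφ t ht
        rwa [abs_of_neg (h t ht)] at this) (fun t ht => by rw [abs_neg]; exact hhi t ht)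
      hhi2 hup hlow
    refine le_trans (le_of_eq ?_) key
    have h1 := norm_sum_sign 1 (fun n : ℕ => φ 0 (a + n)) ℓ (-1) (Or.inr rfl)
    rw [← (show ‖∑ n ∈ range ℓ, e (1 * φ 0 (a + n))‖ = ‖∑ n ∈ range ℓ, e (φ 0 (a + n))‖ by
      simp only [one_mul]), ← h1]
    congr 1
    refine sum_congr rfl fun n _ => ?_
    congr 1
    ring

end Pool.Agent.Q270.SP
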