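import Pool.Agent.Y933.KD.VdC3

/-!
# Exponential sums with powers: blocks of arbitrary length
-/

set_option autoImplicit false

namespace Pool.Agent.Q270.SP

open Finset Real Filter
open Pool.Agent.H469R2.NK (e norm_e e_add conj_e)
open Pool.Agent.Y933.KD.VdC (ev_le pow_sum)

/-- sums over the integers of `(X, b]` with `b ≤ 3 X` -/
theorem pow_block {c : ℝ} (hc0 : 0 < c) (hc : ∀ m : ℕ, c ≠ m) (A : ℝ) (hA : 0 ≤ A) :
    ∃ ρ : ℝ, 0 < ρ ∧ ρ ≤ 1 / 4 ∧ ∃ X0 : ℕ, ∀ X : ℕ, X0 ≤ X → ∀ b : ℕ, b ≤ 3 * X →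
      ∀ f : ℝ, 1 ≤ f → f ≤ (X : ℝ) ^ A →
      ‖∑ m ∈ Ioc X b, e (f * (m : ℝ) ^ c)‖ ≤ (X : ℝ) ^ (1 - ρ) := by
  set μ : ℝ := min 1 c / 16 with hμ
  have hm0 : 0 < min 1 c := lt_min one_pos hc0
  have hμ0 : 0 < μ := by positivity
  have hμ1 : 16 * μ ≤ 1 := by
    have := min_le_left 1 c
    rw [hμ]; linarith
  have hμc : 16 * μ ≤ c := by
    have := min_le_right 1 c
    rw [hμ]; linarith
  obtain ⟨ρ, hρ, M0, hM0⟩ := pow_sum hc (2 * A) μ hμ0 (by linarith)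
  set r : ℝ := min (ρ / 2) μ with hr
  have hr0 : 0 < r := lt_min (by positivity) hμ0
  have hr1 : r ≤ ρ / 2 := min_le_left _ _
  have hr2 : r ≤ μ := min_le_right _ _
  -- the thresholds
  have hev : ∀ᶠ X : ℕ in atTop, (4 : ℝ) ≤ (X : ℝ) ^ μ ∧ 2 ≤ (X : ℝ) ^ (r / 2) ∧
      (M0 : ℝ) ≤ (X : ℝ) ^ (1 / 2 : ℝ) := by
    have h0 := tendsto_natCast_atTop_atTop (R := ℝ)
    have h1 := (tendsto_rpow_atTop hμ0).comp h0
    have h2 := (tendsto_rpow_atTop (show 0 < r / 2 by positivity)).comp h0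
    have h3 := (tendsto_rpow_atTop (show (0 : ℝ) < 1 / 2 by norm_num)).comp h0
    filter_upwards [h1.eventually_ge_atTop 4, h2.eventually_ge_atTop 2,
      h3.eventually_ge_atTop (M0 : ℝ)] with X a1 a2 a3
    exact ⟨a1, a2, a3⟩
  obtain ⟨X1, hX1⟩ := eventually_atTop.1 hev
  refine ⟨r / 2, by positivity, by linarith, max X1 1, ?_⟩
  intro X hX b hb f hf1 hfA
  obtain ⟨hX4, hX2, hXM⟩ := hX1 X (le_of_max_le_left hX)
  have hX1' : 1 ≤ X := le_of_max_le_right hX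
  have hXR : (1 : ℝ) ≤ X := by exact_mod_cast hX1'
  have hXp : (0 : ℝ) < X := by linarith
  rcases le_or_gt b X with hbX | hbX
  · rw [Finset.Ioc_eq_empty (by omega), sum_empty, norm_zero]
    positivity
  obtain ⟨M, rfl⟩ := Nat.exists_eq_add_of_le hbX.le
  have hM1 : 1 ≤ M := by omega
  have hMR : (1 : ℝ) ≤ M := by exact_mod_cast hM1
  have hMp : (0 : ℝ) < M := by linarith
  have hM2X : (M : ℝ) ≤ 2 * X := by exact_mod_cast (by omega : M ≤ 2 * X)
  have hfin : (X : ℝ) ^ (1 - r) ≤ (X : ℝ) ^ (1 - r / 2) :=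
    Real.rpow_le_rpow_of_exponent_le hXR (by linarith)
  rcases le_or_gt (M : ℝ) ((X : ℝ) ^ (1 - μ)) with hMs | hMs
  · -- a short sum
    calc ‖∑ m ∈ Ioc X (X + M), e (f * (m : ℝ) ^ c)‖ ≤ ∑ m ∈ Ioc X (X + M), (1 : ℝ) :=
          (norm_sum_le _ _).trans (sum_le_sum fun m _ => (norm_e _).le)
      _ = M := by simp
      _ ≤ (X : ℝ) ^ (1 - μ) := hMs
      _ ≤ (X : ℝ) ^ (1 - r / 2) := Real.rpow_le_rpow_of_exponent_le hXR (by linarith)
  · have hpw : ∀ p : ℝ, 0 ≤ p → (X : ℝ) ^ ((1 - μ) * p) ≤ (M : ℝ) ^ p := by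
      intro p hp
      rw [Real.rpow_mul hXp.le]
      exact Real.rpow_le_rpow (by positivity) hMs.le hp
    have hMX : (X : ℝ) ^ (1 / 2 : ℝ) ≤ M :=
      (Real.rpow_le_rpow_of_exponent_le hXR (by linarith)).trans hMs.le
    have hM0M : M0 ≤ M := by exact_mod_cast hXM.trans hMX
    have h4X : (X : ℝ) + M + 1 ≤ 4 * X := by
      have : X + M + 1 ≤ 4 * X := by omega
      exact_mod_cast this
    have g1 : (X : ℝ) + M + 1 ≤ (M : ℝ) ^ (2 - 4 * μ) := by
      calc (X : ℝ) + M + 1 ≤ 4 * X := h4X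
        _ ≤ (X : ℝ) ^ μ * (X : ℝ) ^ (1 : ℝ) := by rw [Real.rpow_one]; gcongr
        _ = (X : ℝ) ^ (μ + 1) := (Real.rpow_add hXp _ _).symm
        _ ≤ (X : ℝ) ^ ((1 - μ) * (2 - 4 * μ)) := by
            apply Real.rpow_le_rpow_of_exponent_le hXR
            nlinarith
        _ ≤ (M : ℝ) ^ (2 - 4 * μ) := hpw _ (by linarith)
    have g2 : ((X : ℝ) + M + 1) ^ (1 - c) ≤ (M : ℝ) ^ (1 - 4 * μ) := by
      rcases le_or_gt 1 c with hc1 | hc1
      · exact (Real.rpow_le_one_of_one_le_of_nonpos (by linarith) (by linarith)).trans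
          (Real.one_le_rpow hMR (by linarith))
      · calc ((X : ℝ) + M + 1) ^ (1 - c) ≤ (4 * X) ^ (1 - c) :=
              Real.rpow_le_rpow (by positivity) h4X (by linarith)
          _ = 4 ^ (1 - c) * (X : ℝ) ^ (1 - c) := Real.mul_rpow (by norm_num) hXp.le
          _ ≤ 4 ^ (1 : ℝ) * (X : ℝ) ^ (1 - c) := by
              gcongr
              · norm_num
              · linarith
          _ ≤ (X : ℝ) ^ μ * (X : ℝ) ^ (1 - c) := by rw [Real.rpow_one]; gcongr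
          _ = (X : ℝ) ^ (μ + (1 - c)) := (Real.rpow_add hXp _ _).symm
          _ ≤ (X : ℝ) ^ ((1 - μ) * (1 - 4 * μ)) := by
              apply Real.rpow_le_rpow_of_exponent_le hXR
              nlinarith
          _ ≤ (M : ℝ) ^ (1 - 4 * μ) := hpw _ (by linarith)
    have g3 : f ≤ (M : ℝ) ^ (2 * A) := by
      calc f ≤ (X : ℝ) ^ A := hfA
        _ ≤ (X : ℝ) ^ ((1 - μ) * (2 * A)) := by
            apply Real.rpow_le_rpow_of_exponent_le hXR
            nlinarith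
        _ ≤ _ := hpw _ (by positivity)
    have key := hM0 M hM0M X g1 g2 f hf1 g3
    refine key.trans ?_
    rcases le_or_gt ρ 1 with hρ1 | hρ1
    · calc (M : ℝ) ^ (1 - ρ) ≤ (2 * X) ^ (1 - ρ) :=
            Real.rpow_le_rpow (by positivity) hM2X (by linarith)
        _ = 2 ^ (1 - ρ) * (X : ℝ) ^ (1 - ρ) := Real.mul_rpow (by norm_num) hXp.le
        _ ≤ 2 ^ (1 : ℝ) * (X : ℝ) ^ (1 - ρ) := by
            gcongr
            · norm_num
            · linarith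
        _ ≤ (X : ℝ) ^ (r / 2) * (X : ℝ) ^ (1 - ρ) := by rw [Real.rpow_one]; gcongr
        _ = (X : ℝ) ^ (r / 2 + (1 - ρ)) := (Real.rpow_add hXp _ _).symm
        _ ≤ _ := Real.rpow_le_rpow_of_exponent_le hXR (by linarith)
    · exact (Real.rpow_le_one_of_one_le_of_nonpos hMR (by linarith)).trans
        (Real.one_le_rpow hXR (by linarith))

/-- the growth of a power -/
lemma rpow_gap {c : ℝ} (hc : 0 < c) {x y L : ℝ} (hL : 0 < L) (h1 : L ≤ x) (h2 : x < y)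
    (h3 : y ≤ 2 * L) : c / 2 * L ^ (c - 1) * (y - x) ≤ y ^ c - x ^ c := by
  have hx : 0 < x := by linarith
  obtain ⟨ξ, hξ, hd⟩ := exists_hasDerivAt_eq_slope (fun t : ℝ => t ^ c) (fun t => c * t ^ (c - 1)) h2
    (fun t ht => (Real.continuousAt_rpow_const t c (Or.inl (by
      have := ht.1; linarith))).continuousWithinAt)
    (fun t ht => Real.hasDerivAt_rpow_const (Or.inl (by have := ht.1; linarith)))
  have hyx : 0 < y - x := by linarith
  rw [eq_div_iff hyx.ne'] at hd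
  rw [← hd]
  have hξ1 : L ≤ ξ := by linarith [hξ.1]
  have hξ2 : ξ ≤ 2 * L := by linarith [hξ.2]
  have hξ0 : 0 < ξ := by linarith
  have key : L ^ (c - 1) / 2 ≤ ξ ^ (c - 1) := by
    rcases le_or_gt 1 c with h | h
    · have : L ^ (c - 1) ≤ ξ ^ (c - 1) := Real.rpow_le_rpow hL.le hξ1 (by linarith)
      have : 0 < L ^ (c - 1) := by positivity
      linarith
    · calc L ^ (c - 1) / 2 = 2 ^ (-1 : ℝ) * L ^ (c - 1) := by rw [Real.rpow_neg_one]; ring
        _ ≤ 2 ^ (c - 1) * L ^ (c - 1) := by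
            gcongr
            · norm_num
            · linarith
        _ = (2 * L) ^ (c - 1) := (Real.mul_rpow (by norm_num) hL.le).symm
        _ ≤ ξ ^ (c - 1) := Real.rpow_le_rpow_of_nonpos hξ0 hξ2 (by linarith)
  calc c / 2 * L ^ (c - 1) * (y - x) = c * (L ^ (c - 1) / 2) * (y - x) := by ring
    _ ≤ c * ξ ^ (c - 1) * (y - x) := by gcongr

end Pool.Agent.Q270.SP
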