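import Pool.Agent.Q270.SP.Piece
import Pool.Agent.Y951.TU.Main

/-!
# Exponential sums with a smooth phase one of whose derivatives is always large
-/

set_option autoImplicit false

namespace Pool.Agent.Q270.SP

open Finset Real Filter
open Pool.Agent.H469R2.NK (e norm_e e_add norm_sum_neg)
open Pool.Agent.Y951.TU (exists_pos_le exists_ge)

/-- a sum which is covered by short sums -/
lemma cover (z : ℕ → ℂ) (ℓ : ℕ) (hℓ : 1 ≤ ℓ) (B : ℝ) (hB : 0 ≤ B) : ∀ (L x : ℕ),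
    (∀ u y : ℕ, x ≤ u → y ≤ ℓ → u + y ≤ x + L → ‖∑ n ∈ range y, z (u + n)‖ ≤ B) →
    ‖∑ n ∈ range L, z (x + n)‖ ≤ ((L : ℝ) / ℓ + 1) * B := by
  have hℓR : (0 : ℝ) < ℓ := by exact_mod_cast hℓ
  intro L
  induction L using Nat.strong_induction_on with
  | _ L ih =>
    intro x h
    rcases le_or_gt L ℓ with hL | hL
    · refine (h x L le_rfl hL le_rfl).trans ?_
      have : 0 ≤ (L : ℝ) / ℓ := by positivity
      nlinarith
    · obtain ⟨L', rfl⟩ := Nat.exists_eq_add_of_le hL.le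
      have h1 := ih L' (by omega) (x + ℓ) (fun u y hu hy huy => h u y (by omega) hy (by omega))
      rw [sum_range_add]
      refine (norm_add_le _ _).trans ?_
      have h2 := h x ℓ le_rfl le_rfl (by omega)
      have h3 : ∑ n ∈ range L', z (x + (ℓ + n)) = ∑ n ∈ range L', z (x + ℓ + n) := by
        refine sum_congr rfl fun n _ => ?_
        congr 1
        ring
      rw [h3]
      have e1 : (((ℓ + L' : ℕ) : ℝ) / ℓ + 1) * B = B + ((L' : ℝ) / ℓ + 1) * B := by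
        push_cast
        field_simp
        ring
      rw [e1]
      exact add_le_add h2 h1

/-- exponential sums over `X ≤ n ≤ 3 X` with a smooth phase -/
theorem smooth_sum (k0 r : ℕ) (hk0 : 3 ≤ k0) (c C : ℝ) (hc : 0 < c) (hC : 0 < C) (μ : ℝ)
    (hμ : 0 < μ) (hμ1 : μ ≤ 1 / 4) :
    ∃ ρ : ℝ, 0 < ρ ∧ ρ ≤ 1 / 4 ∧ ∃ X0 : ℕ, ∀ X : ℕ, X0 ≤ X → ∀ (φ : ℕ → ℝ → ℝ) (Λ : ℝ) (L : ℕ),
      L ≤ 2 * X →
      (∀ m, ∀ t ∈ Set.Icc (X : ℝ) (3 * X), HasDerivAt (φ m) (φ (m + 1) t) t) →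
      (∀ m, k0 - 1 ≤ m → m ≤ k0 + r → ∀ t ∈ Set.Icc (X : ℝ) (3 * X),
        |φ m t| ≤ C * Λ / (X : ℝ) ^ m) →
      (∀ t ∈ Set.Icc (X : ℝ) (3 * X), ∃ i < r, c * Λ / (X : ℝ) ^ (k0 + i) ≤ |φ (k0 + i) t|) →
      (X : ℝ) ^ (2 * μ) ≤ Λ → Λ ≤ (X : ℝ) ^ ((k0 : ℝ) - 1 - μ) →
      ‖∑ n ∈ range L, e (φ 0 (X + n))‖ ≤ (X : ℝ) ^ (1 - ρ) := by
  choose ρi hρi Mi hMi using fun i : Fin r => piece (k0 + i - 2) (by omega) μ hμ hμ1
  obtain ⟨ρ1, hρ1, hρ1'⟩ := exists_pos_le ρi hρi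
  obtain ⟨M1, hM1⟩ := exists_ge (fun i => (Mi i : ℝ))
  set κ : ℝ := μ / 8 with hκ
  have hκ0 : 0 < κ := by positivity
  set ρ2 : ℝ := min ρ1 κ with hρ2
  have hρ20 : 0 < ρ2 := lt_min hρ1 hκ0
  have hρ21 : ρ2 ≤ ρ1 := min_le_left _ _
  have hρ22 : ρ2 ≤ κ := min_le_right _ _
  set T : ℕ := ⌈2 * C / c⌉₊ + 1 with hT
  have hT1 : (1 : ℝ) ≤ T := by
    rw [hT]; push_cast
    have : (0 : ℝ) ≤ (⌈2 * C / c⌉₊ : ℝ) := Nat.cast_nonneg _
    linarith
  have hTc : 2 * C / c ≤ T := by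
    rw [hT]; push_cast
    have := Nat.le_ceil (2 * C / c)
    linarith
  set Q : ℝ := (4 * T + 1) * (6 + 4 / c) with hQ
  have hev : ∀ᶠ X : ℝ in atTop, Q ≤ X ^ (ρ2 / 2) ∧ C ≤ X ^ κ ∧ M1 ≤ X ∧ 2 * T ≤ X ∧ 1 ≤ X := by
    filter_upwards [(tendsto_rpow_atTop (show 0 < ρ2 / 2 by positivity)).eventually_ge_atTop Q,
      (tendsto_rpow_atTop hκ0).eventually_ge_atTop C, eventually_ge_atTop M1,
      eventually_ge_atTop (2 * T : ℝ), eventually_ge_atTop (1 : ℝ)] with X a1 a2 a3 a4 a5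
    exact ⟨a1, a2, a3, a4, a5⟩
  obtain ⟨X1, hX1⟩ := eventually_atTop.1 hev
  refine ⟨ρ2 / 2, by positivity, by linarith, ⌈X1⌉₊, ?_⟩
  intro X hX φ Λ L hL hder hup hlow hΛ1 hΛ2
  obtain ⟨hXQ, hXC, hXM, hXT, hXR⟩ := hX1 X (Nat.ceil_le.1 hX)
  have hXp : (0 : ℝ) < X := by linarith
  have hΛ0 : 0 < Λ := lt_of_lt_of_le (by positivity) hΛ1
  have hT0 : 0 < T := by rw [hT]; omega
  have hXTn : 2 * T ≤ X := by exact_mod_cast hXT
  set ℓ : ℕ := X / T with hℓ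
  have hℓ1 : 1 ≤ ℓ := (Nat.le_div_iff_mul_le hT0).2 (by omega)
  have hℓR : (0 : ℝ) < ℓ := by exact_mod_cast hℓ1
  have hℓle : (ℓ : ℝ) ≤ X / T := Nat.cast_div_le
  have hℓX : ℓ ≤ X := Nat.div_le_self _ _
  have hℓge : (X : ℝ) ≤ 2 * T * ℓ := by
    have h1 : X < T * (ℓ + 1) := Nat.lt_mul_div_succ X hT0
    have h2 : X ≤ 2 * T * ℓ := by nlinarith
    exact_mod_cast h2
  set B : ℝ := 2 * (X : ℝ) ^ (1 - ρ1) + 4 / c * (X : ℝ) ^ (1 - κ) + 4 with hB
  have hB0 : 0 ≤ B := by positivity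
  have hmain := cover (fun n => e (φ 0 n)) ℓ hℓ1 B hB0 L X (fun u y hu hy huy => by
    set a : ℝ := (u : ℝ) with ha
    have hXa : (X : ℝ) ≤ a := by rw [ha]; exact_mod_cast hu
    have hyR : (y : ℝ) ≤ ℓ := by exact_mod_cast hy
    have hy0 : (0 : ℝ) ≤ y := Nat.cast_nonneg y
    have hay : a + y ≤ 3 * X := by
      have : u + y ≤ 3 * X := by omega
      rw [ha]
      exact_mod_cast this
    have hsub : ∀ t ∈ Set.Icc a (a + y), t ∈ Set.Icc (X : ℝ) (3 * X) := fun t ht =>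
      ⟨hXa.trans ht.1, ht.2.trans hay⟩
    obtain ⟨i, hir, hi⟩ := hlow a ⟨hXa, by linarith⟩
    set k : ℕ := k0 + i with hk
    have hk2 : k - 2 + 2 = k := by omega
    have hk1 : k - 2 + 1 = k - 1 := by omega
    have hXk : (0 : ℝ) < (X : ℝ) ^ k := by positivity
    have hXk1 : (X : ℝ) ^ (k - 1) * X = (X : ℝ) ^ k := by
      rw [← pow_succ]; congr 1; omega
    set s : ℝ := c / 2 * Λ / (X : ℝ) ^ k with hs
    have hs0 : 0 < s := by positivity
    set t₀ : ℝ := Λ / (X : ℝ) ^ (k - 1) * (X : ℝ) ^ (-κ) with ht₀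
    have ht₀0 : 0 < t₀ := by positivity
    have hkR : ((k - 2 : ℕ) : ℝ) + 1 = (k : ℝ) - 1 := by
      rw [Nat.cast_sub (by omega)]; push_cast; ring
    have hkk0 : (k0 : ℝ) ≤ k := by exact_mod_cast (by omega : k0 ≤ k)
    have hXpow : (X : ℝ) ^ (k - 1) = (X : ℝ) ^ ((k : ℝ) - 1) := by
      rw [← Real.rpow_natCast, Nat.cast_sub (by omega)]
      push_cast
      rfl
    have key := hMi ⟨i, hir⟩ X (by
      have h1 : (Mi ⟨i, hir⟩ : ℝ) ≤ X := (hM1 _).trans hXM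
      exact_mod_cast h1) a s t₀ (C * Λ / (X : ℝ) ^ (k - 1)) y φ hs0 ht₀0 (hy.trans hℓX)
      (fun m t ht => hder m t (hsub t ht)) (by
        intro t ht
        change s ≤ |φ (k - 2 + 2) t|
        rw [hk2]
        -- the derivative varies little
        have hbd : ∀ v ∈ Set.Icc a (a + y), |φ (k + 1) v| ≤ C * Λ / (X : ℝ) ^ (k + 1) := fun v hv =>
          hup (k + 1) (by omega) (by omega) v (hsub v hv)
        have hlip : |φ k t - φ k a| ≤ C * Λ / (X : ℝ) ^ (k + 1) * (t - a) := by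
          have h1 := (convex_Icc a (a + y)).norm_image_sub_le_of_norm_hasDerivWithin_le
            (f := φ k) (f' := φ (k + 1)) (C := C * Λ / (X : ℝ) ^ (k + 1)) (x := a) (y := t)
            (fun v hv => (hder k v (hsub v hv)).hasDerivWithinAt)
            (fun v hv => by rw [Real.norm_eq_abs]; exact hbd v hv) ⟨le_rfl, by linarith⟩ ht
          rw [Real.norm_eq_abs, Real.norm_eq_abs, abs_of_nonneg (by linarith [ht.1] : (0:ℝ) ≤ t - a)]
            at h1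
          exact h1
        have h2 : C * Λ / (X : ℝ) ^ (k + 1) * (t - a) ≤ c / 2 * Λ / (X : ℝ) ^ k := by
          have h3 : t - a ≤ X / T := by linarith [ht.2]
          calc C * Λ / (X : ℝ) ^ (k + 1) * (t - a) ≤ C * Λ / (X : ℝ) ^ (k + 1) * (X / T) := by
                gcongr
            _ = Λ / (X : ℝ) ^ k * (C / T) := by
                rw [pow_succ]
                field_simp
            _ ≤ Λ / (X : ℝ) ^ k * (c / 2) := by
                apply mul_le_mul_of_nonneg_left _ (by positivity)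
                rw [div_le_iff₀ (by linarith)]
                rw [div_le_iff₀ hc] at hTc
                linarith
            _ = _ := by ring
        have h4 : |φ k a| ≤ |φ k t| + |φ k t - φ k a| := by
          have := abs_sub_abs_le_abs_sub (φ k a) (φ k t)
          rw [abs_sub_comm (φ k a)] at this
          linarith
        have h5 : c * Λ / (X : ℝ) ^ k = c / 2 * Λ / (X : ℝ) ^ k + c / 2 * Λ / (X : ℝ) ^ k := by ring
        rw [hs]
        linarith) (by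
        intro t ht
        change |φ (k - 2 + 1) t| ≤ _
        rw [hk1]
        exact hup (k - 1) (by omega) (by omega) t (hsub t ht)) (by
        rw [ht₀, mul_assoc, ← Real.rpow_add hXp]
        have h1 : C ≤ (X : ℝ) ^ (-κ + μ / 4) := by
          rw [show -κ + μ / 4 = κ by rw [hκ]; ring]
          exact hXC
        calc C * Λ / (X : ℝ) ^ (k - 1) = Λ / (X : ℝ) ^ (k - 1) * C := by ring
          _ ≤ _ := by gcongr) (by
        calc t₀ ≤ (X : ℝ) ^ ((k0 : ℝ) - 1 - μ) / (X : ℝ) ^ (k - 1) * 1 := by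
              rw [ht₀]
              have : (X : ℝ) ^ (-κ) ≤ 1 := Real.rpow_le_one_of_one_le_of_nonpos hXR (by linarith)
              gcongr
          _ = (X : ℝ) ^ ((k0 : ℝ) - 1 - μ - ((k : ℝ) - 1)) := by
              rw [mul_one, hXpow, ← Real.rpow_sub hXp]
          _ ≤ _ := Real.rpow_le_rpow_of_exponent_le hXR (by linarith)) (by
        change (X : ℝ) ^ (-(((k - 2 : ℕ) : ℝ) + 1) + μ) ≤ t₀
        rw [hkR]
        calc (X : ℝ) ^ (-((k : ℝ) - 1) + μ) ≤ (X : ℝ) ^ (2 * μ + (-((k : ℝ) - 1)) + (-κ)) := by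
              apply Real.rpow_le_rpow_of_exponent_le hXR
              rw [hκ]; linarith
          _ = (X : ℝ) ^ (2 * μ) / (X : ℝ) ^ (k - 1) * (X : ℝ) ^ (-κ) := by
              rw [Real.rpow_add hXp, Real.rpow_add hXp, hXpow, Real.rpow_neg hXp.le ((k : ℝ) - 1),
                div_eq_mul_inv]
          _ ≤ t₀ := by
              rw [ht₀]
              gcongr)
    have e1 : ∑ n ∈ range y, (fun n : ℕ => e (φ 0 n)) (u + n) = ∑ n ∈ range y, e (φ 0 (a + n)) := by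
      refine sum_congr rfl fun n _ => ?_
      simp only
      push_cast
      rfl
    rw [e1]
    refine key.trans ?_
    have h6 : 2 * t₀ / s = 4 / c * (X : ℝ) ^ (1 - κ) := by
      rw [ht₀, hs, sub_eq_add_neg, Real.rpow_add hXp, Real.rpow_one, ← hXk1]
      field_simp
      norm_num
    have h7 : (X : ℝ) ^ (1 - ρi ⟨i, hir⟩) ≤ (X : ℝ) ^ (1 - ρ1) :=
      Real.rpow_le_rpow_of_exponent_le hXR (by linarith [hρ1' ⟨i, hir⟩])
    rw [h6, hB]
    linarith)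
  have e2 : ∑ n ∈ range L, (fun n : ℕ => e (φ 0 n)) (X + n) = ∑ n ∈ range L, e (φ 0 (X + n)) := by
    refine sum_congr rfl fun n _ => ?_
    simp only
    push_cast
    rfl
  rw [e2] at hmain
  refine hmain.trans ?_
  have h1 : (L : ℝ) / ℓ + 1 ≤ 4 * T + 1 := by
    have h2 : (L : ℝ) ≤ 2 * X := by exact_mod_cast hL
    have h3 : (L : ℝ) / ℓ ≤ 4 * T := by
      rw [div_le_iff₀ hℓR]
      nlinarith
    linarith
  have h2 : B ≤ (6 + 4 / c) * (X : ℝ) ^ (1 - ρ2) := by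
    have h3 : (X : ℝ) ^ (1 - ρ1) ≤ (X : ℝ) ^ (1 - ρ2) :=
      Real.rpow_le_rpow_of_exponent_le hXR (by linarith)
    have h4 : (X : ℝ) ^ (1 - κ) ≤ (X : ℝ) ^ (1 - ρ2) :=
      Real.rpow_le_rpow_of_exponent_le hXR (by linarith)
    have h5 : 1 ≤ (X : ℝ) ^ (1 - ρ2) := Real.one_le_rpow hXR (by linarith)
    have h6 : 0 < 4 / c := by positivity
    have h7 : 4 / c * (X : ℝ) ^ (1 - κ) ≤ 4 / c * (X : ℝ) ^ (1 - ρ2) := by gcongr
    rw [hB]
    linarith
  calc ((L : ℝ) / ℓ + 1) * B ≤ (4 * T + 1) * ((6 + 4 / c) * (X : ℝ) ^ (1 - ρ2)) := by gcongr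
    _ = Q * (X : ℝ) ^ (1 - ρ2) := by rw [hQ]; ring
    _ ≤ (X : ℝ) ^ (ρ2 / 2) * (X : ℝ) ^ (1 - ρ2) := by gcongr
    _ = (X : ℝ) ^ (1 - ρ2 / 2) := by
        rw [← Real.rpow_add hXp]
        congr 1
        ring

end Pool.Agent.Q270.SP
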