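import Pool.Agent.Q270.SP.PrimeFam

/-!
# Joint normality in all bases at once, and the independence of the roots of a prime number
-/

set_option autoImplicit false

namespace Pool.Agent.Q270.SP

open Finset Real Filter MeasureTheory
open Pool.Agent.Y951.TU (unif tw exists_ge)

variable {r : ℕ}

open Classical in
/-- joint normality in all bases at once -/
theorem normal_all {S : ℕ → Set (Measure (Fin r → ℝ))}
    (hS : ∀ M, 1 ≤ M → ∀ P ∈ S M, IsProbabilityMeasure P) (hG : GoodT r S) (hr : 1 ≤ r)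
    (B w : ℕ) (A ε : ℝ) (hε : 0 < ε) :
    ∃ c : ℝ, 0 < c ∧ ∃ M₀ : ℕ, ∀ M : ℕ, M₀ ≤ M → ∀ (T : Finset ℕ) (x : ℕ → Fin r → ℝ),
      T.Nonempty → unif T x ∈ S M →
      ((T.filter (fun m => ¬ ∀ b : Fin r → ℕ, (∀ j, 2 ≤ b j ∧ b j ≤ B) →
        ∀ (k : ℕ) (D s : Fin r → ℕ) (N : ℕ), 1 ≤ k → k ≤ w →
        (∀ j, D j < b j ^ k) → (∀ j, (s j : ℝ) + N ≤ A * log M) →
        |(((range N).filter (fun i => tw b k (fun j => s j + i) (x m) = D)).card : ℝ) -
          N / ((∏ j, b j : ℕ) : ℝ) ^ k| ≤ ε * log M)).card : ℝ) ≤ T.card * (M : ℝ) ^ (-c) := by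
  set Bs : Finset (Fin r → ℕ) := Fintype.piFinset fun _ : Fin r => Finset.Icc 2 B with hBs
  have hmem : ∀ b : Fin r → ℕ, b ∈ Bs ↔ ∀ j, 2 ≤ b j ∧ b j ≤ B := fun b => by
    rw [hBs, Fintype.mem_piFinset]
    simp only [Finset.mem_Icc]
  have hone : ∀ b : Fin r → ℕ, ∃ c : ℝ, 0 < c ∧ ∃ M₀ : ℕ, b ∈ Bs → ∀ M : ℕ, M₀ ≤ M →
      ∀ (T : Finset ℕ) (x : ℕ → Fin r → ℝ), T.Nonempty → unif T x ∈ S M →
      ((T.filter (fun m => ¬ ∀ (k : ℕ) (D s : Fin r → ℕ) (N : ℕ), 1 ≤ k → k ≤ w →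
        (∀ j, D j < b j ^ k) → (∀ j, (s j : ℝ) + N ≤ A * log M) →
        |(((range N).filter (fun i => tw b k (fun j => s j + i) (x m) = D)).card : ℝ) -
          N / ((∏ j, b j : ℕ) : ℝ) ^ k| ≤ ε * log M)).card : ℝ) ≤ T.card * (M : ℝ) ^ (-c) := by
    intro b
    by_cases hb : b ∈ Bs
    · obtain ⟨c, hc, M0, h⟩ := normal_one (ι := ℕ) hS hG hr
        (fun j => ((hmem b).1 hb j).1) w A ε hε
      exact ⟨c, hc, M0, fun _ => h⟩
    · exact ⟨1, one_pos, 0, fun h => absurd h hb⟩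
  choose c hc M0 h using hone
  rcases Bs.eq_empty_or_nonempty with hBe | hBne
  · refine ⟨1, one_pos, 0, fun M _ T x _ _ => ?_⟩
    have h0 : T.filter (fun m => ¬ ∀ b : Fin r → ℕ, (∀ j, 2 ≤ b j ∧ b j ≤ B) →
        ∀ (k : ℕ) (D s : Fin r → ℕ) (N : ℕ), 1 ≤ k → k ≤ w →
        (∀ j, D j < b j ^ k) → (∀ j, (s j : ℝ) + N ≤ A * log M) →
        |(((range N).filter (fun i => tw b k (fun j => s j + i) (x m) = D)).card : ℝ) -
          N / ((∏ j, b j : ℕ) : ℝ) ^ k| ≤ ε * log M) = ∅ := by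
      rw [Finset.filter_eq_empty_iff]
      intro m _ hm
      apply hm
      intro b hb
      have := (hmem b).2 hb
      rw [hBe] at this
      exact absurd this (Finset.notMem_empty _)
    rw [h0]
    simp only [Finset.card_empty, Nat.cast_zero]
    positivity
  · obtain ⟨b0, _, hb0⟩ := Finset.exists_min_image Bs c hBne
    obtain ⟨M1, hM1⟩ := eventually_atTop.1
      (Pool.Agent.Y933.KD.VdC.ev_le (Bs.card : ℝ) (c b0 / 2) (by have := hc b0; positivity))
    refine ⟨c b0 / 2, by have := hc b0; positivity, max (Bs.sup M0) (max M1 1), ?_⟩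
    intro M hM T x hT hx
    have hMs : Bs.sup M0 ≤ M := le_of_max_le_left hM
    have hMM1 : M1 ≤ M := le_of_max_le_left (le_of_max_le_right hM)
    have hM1' : 1 ≤ M := le_of_max_le_right (le_of_max_le_right hM)
    have hMR : (1 : ℝ) ≤ M := by exact_mod_cast hM1'
    have hMp : (0 : ℝ) < M := by linarith
    have hsub : T.filter (fun m => ¬ ∀ b : Fin r → ℕ, (∀ j, 2 ≤ b j ∧ b j ≤ B) →
        ∀ (k : ℕ) (D s : Fin r → ℕ) (N : ℕ), 1 ≤ k → k ≤ w →
        (∀ j, D j < b j ^ k) → (∀ j, (s j : ℝ) + N ≤ A * log M) →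
        |(((range N).filter (fun i => tw b k (fun j => s j + i) (x m) = D)).card : ℝ) -
          N / ((∏ j, b j : ℕ) : ℝ) ^ k| ≤ ε * log M) ⊆
        Bs.biUnion fun b => T.filter (fun m => ¬ ∀ (k : ℕ) (D s : Fin r → ℕ) (N : ℕ), 1 ≤ k →
          k ≤ w → (∀ j, D j < b j ^ k) → (∀ j, (s j : ℝ) + N ≤ A * log M) →
          |(((range N).filter (fun i => tw b k (fun j => s j + i) (x m) = D)).card : ℝ) -
            N / ((∏ j, b j : ℕ) : ℝ) ^ k| ≤ ε * log M) := by
      intro m hm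
      rw [mem_filter] at hm
      obtain ⟨hmT, hm⟩ := hm
      by_contra hcon
      apply hm
      intro b hb
      by_contra h3
      apply hcon
      rw [mem_biUnion]
      exact ⟨b, (hmem b).2 hb, mem_filter.2 ⟨hmT, h3⟩⟩
    have h2 : ∀ b ∈ Bs, ((T.filter (fun m => ¬ ∀ (k : ℕ) (D s : Fin r → ℕ) (N : ℕ), 1 ≤ k →
          k ≤ w → (∀ j, D j < b j ^ k) → (∀ j, (s j : ℝ) + N ≤ A * log M) →
          |(((range N).filter (fun i => tw b k (fun j => s j + i) (x m) = D)).card : ℝ) -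
            N / ((∏ j, b j : ℕ) : ℝ) ^ k| ≤ ε * log M)).card : ℝ) ≤
        T.card * (M : ℝ) ^ (-(c b0)) := by
      intro b hb
      refine (h b hb M ((Finset.le_sup hb).trans hMs) T x hT hx).trans ?_
      apply mul_le_mul_of_nonneg_left _ (Nat.cast_nonneg _)
      exact Real.rpow_le_rpow_of_exponent_le hMR (by linarith [hb0 b hb])
    calc _ ≤ ((Bs.biUnion fun b => T.filter (fun m => ¬ ∀ (k : ℕ) (D s : Fin r → ℕ) (N : ℕ), 1 ≤ k →
          k ≤ w → (∀ j, D j < b j ^ k) → (∀ j, (s j : ℝ) + N ≤ A * log M) →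
          |(((range N).filter (fun i => tw b k (fun j => s j + i) (x m) = D)).card : ℝ) -
            N / ((∏ j, b j : ℕ) : ℝ) ^ k| ≤ ε * log M)).card : ℝ) :=
          Nat.cast_le.2 (card_le_card hsub)
      _ ≤ ((∑ b ∈ Bs, (T.filter (fun m => ¬ ∀ (k : ℕ) (D s : Fin r → ℕ) (N : ℕ), 1 ≤ k →
          k ≤ w → (∀ j, D j < b j ^ k) → (∀ j, (s j : ℝ) + N ≤ A * log M) →
          |(((range N).filter (fun i => tw b k (fun j => s j + i) (x m) = D)).card : ℝ) -
            N / ((∏ j, b j : ℕ) : ℝ) ^ k| ≤ ε * log M)).card : ℕ) : ℝ) :=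
          Nat.cast_le.2 card_biUnion_le
      _ = ∑ b ∈ Bs, ((T.filter (fun m => ¬ ∀ (k : ℕ) (D s : Fin r → ℕ) (N : ℕ), 1 ≤ k →
          k ≤ w → (∀ j, D j < b j ^ k) → (∀ j, (s j : ℝ) + N ≤ A * log M) →
          |(((range N).filter (fun i => tw b k (fun j => s j + i) (x m) = D)).card : ℝ) -
            N / ((∏ j, b j : ℕ) : ℝ) ^ k| ≤ ε * log M)).card : ℝ) := by push_cast; rfl
      _ ≤ ∑ _b ∈ Bs, T.card * (M : ℝ) ^ (-(c b0)) := sum_le_sum h2
      _ = Bs.card * (T.card * (M : ℝ) ^ (-(c b0))) := by rw [sum_const, nsmul_eq_mul]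
      _ ≤ (M : ℝ) ^ (c b0 / 2) * (T.card * (M : ℝ) ^ (-(c b0))) := by
          have := hM1 M hMM1
          gcongr
      _ = T.card * ((M : ℝ) ^ (c b0 / 2) * (M : ℝ) ^ (-(c b0))) := by ring
      _ = T.card * (M : ℝ) ^ (-(c b0 / 2)) := by
          rw [← Real.rpow_add hMp]
          congr 2
          ring

/-- the polynomial `X ^ L - p` is irreducible -/
lemma irr_X_pow (p L : ℕ) (hp : p.Prime) (hL : 1 ≤ L) :
    Irreducible (Polynomial.X ^ L - Polynomial.C (p : ℚ) : Polynomial ℚ) := by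
  have hpZ : Prime (p : ℤ) := Nat.prime_iff_prime_int.1 hp
  set f : Polynomial ℤ := Polynomial.X ^ L - Polynomial.C (p : ℤ) with hf
  have hmonic : f.Monic := Polynomial.monic_X_pow_sub_C _ (by omega)
  have hdeg : f.degree = L := Polynomial.degree_X_pow_sub_C (by omega) _
  have hirr : Irreducible f := by
    refine Polynomial.irreducible_of_eisenstein_criterion (P := Ideal.span {(p : ℤ)})
      ((Ideal.span_singleton_prime hpZ.ne_zero).2 hpZ) ?_ ?_ ?_ ?_ hmonic.isPrimitive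
    · rw [hmonic.leadingCoeff, Ideal.mem_span_singleton]
      intro h
      exact hpZ.not_unit (isUnit_of_dvd_one h)
    · intro n hn
      rw [hdeg] at hn
      have hnL : n < L := by exact_mod_cast hn
      rw [hf, Polynomial.coeff_sub, Polynomial.coeff_X_pow, if_neg (by omega), zero_sub,
        Ideal.mem_span_singleton, dvd_neg, Polynomial.coeff_C]
      split_ifs
      · exact dvd_rfl
      · exact dvd_zero _
    · rw [hdeg]
      exact_mod_cast hL
    · rw [hf, Polynomial.coeff_sub, Polynomial.coeff_X_pow, if_neg (by omega), zero_sub,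
        Polynomial.coeff_C_zero, Ideal.span_singleton_pow, Ideal.mem_span_singleton, dvd_neg]
      intro h
      have h1 : (p : ℤ) * p ∣ p * 1 := by rw [mul_one, ← sq]; exact h
      exact hpZ.not_unit (isUnit_of_dvd_one ((mul_dvd_mul_iff_left hpZ.ne_zero).1 h1))
  have h2 := (Polynomial.IsPrimitive.Int.irreducible_iff_irreducible_map_cast
    hmonic.isPrimitive).1 hirr
  have h3 : f.map (Int.castRingHom ℚ) = Polynomial.X ^ L - Polynomial.C (p : ℚ) := by
    rw [hf]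
    simp
  rwa [h3] at h2

/-- the numbers `p ^ (i / L)`, `0 ≤ i < L`, are linearly independent over the rationals -/
lemma roots_indep (p L : ℕ) (hp : p.Prime) (hL : 1 ≤ L) :
    LinearIndependent ℚ (fun i : Fin L => (p : ℝ) ^ ((i : ℝ) / L)) := by
  have hp0 : (0 : ℝ) < p := by exact_mod_cast hp.pos
  have hL0 : (L : ℝ) ≠ 0 := by exact_mod_cast (by omega : L ≠ 0)
  set x : ℝ := (p : ℝ) ^ (1 / (L : ℝ)) with hx
  have hxL : x ^ L = p := by
    rw [hx, ← Real.rpow_natCast, ← Real.rpow_mul hp0.le, one_div_mul_cancel hL0, Real.rpow_one]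
  have hmin : minpoly ℚ x = Polynomial.X ^ L - Polynomial.C (p : ℚ) := by
    symm
    refine minpoly.eq_of_irreducible_of_monic (irr_X_pow p L hp hL) ?_
      (Polynomial.monic_X_pow_sub_C _ (by omega))
    simp [hxL]
  have hdeg : (minpoly ℚ x).natDegree = L := by
    rw [hmin]
    exact Polynomial.natDegree_X_pow_sub_C
  have h1 := linearIndependent_pow (K := ℚ) x
  rw [hdeg] at h1
  have h2 : (fun i : Fin L => (p : ℝ) ^ ((i : ℝ) / L)) = fun i : Fin L => x ^ (i : ℕ) := by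
    funext i
    rw [hx, ← Real.rpow_natCast, ← Real.rpow_mul hp0.le]
    congr 1
    ring
  rw [h2]
  exact h1

lemma roots_alg (p L i : ℕ) (hL : 1 ≤ L) : IsAlgebraic ℚ ((p : ℝ) ^ ((i : ℝ) / L)) := by
  have hL0 : (L : ℝ) ≠ 0 := by exact_mod_cast (by omega : L ≠ 0)
  have h1 : ((p : ℝ) ^ ((i : ℝ) / L)) ^ L = ((p ^ i : ℕ) : ℝ) := by
    rw [← Real.rpow_natCast, ← Real.rpow_mul (Nat.cast_nonneg p), div_mul_cancel₀ _ hL0,
      Real.rpow_natCast]
    push_cast
    rfl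
  refine IsAlgebraic.of_pow (n := L) (by omega) ?_
  rw [h1]
  exact isAlgebraic_nat _

end Pool.Agent.Q270.SP
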