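import Pool.Agent.Q270.SP.Pow
import Pool.Agent.H373R2.T7.Vau
import Pool.Agent.Y961.JR.PGVaughan

/-!
# Exponential sums over primes with powers
-/

set_option autoImplicit false

namespace Pool.Agent.Q270.SP

open Finset Real Filter
open Pool.Agent.H469R2.NK (e norm_e e_add conj_e)
open Pool.Agent.H373R2.T3 (bilin harm)
open Pool.Agent.H373R2.T7 (vaughan_gen)
open Pool.Agent.Y961.JR (close_count)

/-- the bilinear sums -/
lemma type_II (φ : ℕ → ℝ) (N N' M L : ℕ) (P D : ℝ) (hD : 0 ≤ D) (hP : 0 ≤ P)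
    (hM : 1 ≤ M) (hL : 1 ≤ L)
    (hpair : ∀ l l' A B : ℕ, L < l' → l' < l → l ≤ 2 * L → M ≤ A → B ≤ 2 * M →
      N < (A + 1) * l' → B * l ≤ N' → D ≤ (l : ℝ) - l' →
      ‖∑ m ∈ Ioc A B, e (φ (l * m) - φ (l' * m))‖ ≤ P)
    (x y : ℕ → ℂ) :
    ‖∑ m ∈ Ioc M (2 * M), ∑ l ∈ Ioc L (2 * L), x m * y l *
      (if N < m * l ∧ m * l ≤ N' then e (φ (m * l)) else 0)‖ ^ 2 ≤
      (∑ m ∈ Ioc M (2 * M), ‖x m‖ ^ 2) * ((∑ l ∈ Ioc L (2 * L), ‖y l‖ ^ 2) *
        ((2 * D + 1) * M + L * P)) := by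
  classical
  set g : ℕ → ℕ → ℂ := fun m l => if N < m * l ∧ m * l ≤ N' then e (φ (m * l)) else 0 with hg
  set T : ℝ := (2 * D + 1) * M + L * P with hT
  have hgg : ∀ m l l', g m l * (starRingEnd ℂ) (g m l') =
      if (N < m * l ∧ m * l ≤ N') ∧ (N < m * l' ∧ m * l' ≤ N') then
      e (φ (l * m) - φ (l' * m)) else 0 := by
    intro m l l'
    simp only [hg]
    by_cases h2 : N < m * l ∧ m * l ≤ N'
    · by_cases h3 : N < m * l' ∧ m * l' ≤ N'
      · rw [if_pos h2, if_pos h3, if_pos ⟨h2, h3⟩]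
        rw [conj_e, ← e_add, mul_comm m l, mul_comm m l']
        congr 1
      · rw [if_neg h3, map_zero, mul_zero, if_neg (fun h => h3 h.2)]
    · rw [if_neg h2, zero_mul, if_neg (fun h => h2 h.1)]
  -- the inner sums as sums over intervals
  have hset : ∀ l l', 0 < l → 0 < l' → ∑ m ∈ Ioc M (2 * M), g m l * (starRingEnd ℂ) (g m l') =
      ∑ m ∈ Ioc (max M (max (N / l) (N / l'))) (min (2 * M) (min (N' / l) (N' / l'))),
        e (φ (l * m) - φ (l' * m)) := by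
    intro l l' hl0 hl0'
    have e1 : ∑ m ∈ Ioc M (2 * M), g m l * (starRingEnd ℂ) (g m l') =
        ∑ m ∈ Ioc M (2 * M), if (N < m * l ∧ m * l ≤ N') ∧ (N < m * l' ∧ m * l' ≤ N') then
          e (φ (l * m) - φ (l' * m)) else 0 :=
      sum_congr rfl fun m _ => hgg m l l'
    rw [e1, ← sum_filter]
    apply sum_congr _ fun _ _ => rfl
    ext m
    simp only [mem_filter, mem_Ioc, max_lt_iff, le_min_iff]
    rw [Nat.div_lt_iff_lt_mul hl0, Nat.div_lt_iff_lt_mul hl0', Nat.le_div_iff_mul_le hl0,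
      Nat.le_div_iff_mul_le hl0']
    tauto
  have hfar1 : ∀ l l', L < l' → l' < l → l ≤ 2 * L → D ≤ (l : ℝ) - l' →
      ‖∑ m ∈ Ioc M (2 * M), g m l * (starRingEnd ℂ) (g m l')‖ ≤ P := by
    intro l l' h1 h2 h3 h4
    rw [hset l l' (by omega) (by omega)]
    apply hpair l l' _ _ h1 h2 h3 (le_max_left _ _) (min_le_left _ _) _ _ h4
    · have h5 : N / l' ≤ max M (max (N / l) (N / l')) :=
        (le_max_right (N / l) (N / l')).trans (le_max_right _ _)
      have h6 : N < (N / l' + 1) * l' := by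
        rw [mul_comm]
        exact Nat.lt_mul_div_succ N (by omega)
      exact lt_of_lt_of_le h6 (Nat.mul_le_mul_right _ (by omega))
    · have h5 : min (2 * M) (min (N' / l) (N' / l')) ≤ N' / l :=
        (min_le_right _ _).trans (min_le_left _ _)
      exact (Nat.mul_le_mul_right _ h5).trans (Nat.div_mul_le_self _ _)
  have hfar : ∀ l ∈ Ioc L (2 * L), ∀ l' ∈ Ioc L (2 * L), ¬ |(l : ℝ) - l'| < D → l ≠ l' →
      ‖∑ m ∈ Ioc M (2 * M), g m l * (starRingEnd ℂ) (g m l')‖ ≤ P := by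
    intro l hl l' hl' hfar hne
    rw [mem_Ioc] at hl hl'
    rw [not_lt] at hfar
    rcases lt_or_gt_of_ne hne with hlt | hlt
    · have h1 : (l : ℝ) < l' := by exact_mod_cast hlt
      rw [abs_of_neg (by linarith)] at hfar
      have h2 := hfar1 l' l hl.1 hlt hl'.2 (by linarith)
      have h3 : ∑ m ∈ Ioc M (2 * M), g m l' * (starRingEnd ℂ) (g m l) =
          (starRingEnd ℂ) (∑ m ∈ Ioc M (2 * M), g m l * (starRingEnd ℂ) (g m l')) := by
        rw [map_sum]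
        apply sum_congr rfl
        intro m _
        rw [map_mul, Complex.conj_conj]
        ring
      rw [h3, Complex.norm_conj] at h2
      exact h2
    · have h1 : (l' : ℝ) < l := by exact_mod_cast hlt
      rw [abs_of_pos (by linarith)] at hfar
      exact hfar1 l l' hl'.1 hlt hl.2 hfar
  have htriv : ∀ l l', ‖∑ m ∈ Ioc M (2 * M), g m l * (starRingEnd ℂ) (g m l')‖ ≤ M := by
    intro l l'
    refine (norm_sum_le _ _).trans ?_
    calc ∑ m ∈ Ioc M (2 * M), ‖g m l * (starRingEnd ℂ) (g m l')‖ ≤ ∑ _m ∈ Ioc M (2 * M), (1 : ℝ) := by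
          apply sum_le_sum; intro m hm
          rw [hgg m l l']
          split_ifs
          · rw [norm_e]
          · rw [norm_zero]; norm_num
      _ = M := by
          rw [sum_const, Nat.card_Ioc, nsmul_eq_mul, mul_one]
          congr 1; omega
  have hTj : ∀ l ∈ Ioc L (2 * L), ∑ l' ∈ Ioc L (2 * L),
      ‖∑ m ∈ Ioc M (2 * M), g m l * (starRingEnd ℂ) (g m l')‖ ≤ T := by
    intro l hl
    rcases eq_or_lt_of_le hD with hD0 | hDpos
    · -- D = 0: the diagonal is separate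
      rw [← add_sum_erase _ _ hl]
      have h1 : ∑ l' ∈ (Ioc L (2 * L)).erase l,
          ‖∑ m ∈ Ioc M (2 * M), g m l * (starRingEnd ℂ) (g m l')‖ ≤
          ∑ l' ∈ (Ioc L (2 * L)).erase l, P := by
        apply sum_le_sum
        intro l' hl'
        rw [mem_erase] at hl'
        apply hfar l hl l' hl'.2 _ (Ne.symm hl'.1)
        rw [← hD0]
        exact not_lt.mpr (abs_nonneg _)
      have h2 : ∑ l' ∈ (Ioc L (2 * L)).erase l, P ≤ L * P := by
        rw [sum_const, nsmul_eq_mul]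
        apply mul_le_mul_of_nonneg_right _ hP
        have h3 : ((Ioc L (2 * L)).erase l).card ≤ (Ioc L (2 * L)).card :=
          card_le_card (erase_subset _ _)
        rw [Nat.card_Ioc] at h3
        exact_mod_cast (by omega : ((Ioc L (2 * L)).erase l).card ≤ L)
      rw [hT, ← hD0]
      have := htriv l l
      linarith
    · rw [← sum_filter_add_sum_filter_not (Ioc L (2 * L)) (fun l' : ℕ => |(l : ℝ) - l'| < D)]
      rw [hT]
      apply add_le_add
      · calc ∑ l' ∈ (Ioc L (2 * L)).filter (fun l' : ℕ => |(l : ℝ) - l'| < D),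
              ‖∑ m ∈ Ioc M (2 * M), g m l * (starRingEnd ℂ) (g m l')‖ ≤
              ∑ l' ∈ (Ioc L (2 * L)).filter (fun l' : ℕ => |(l : ℝ) - l'| < D), (M : ℝ) :=
              sum_le_sum fun l' _ => htriv l l'
          _ = (((Ioc L (2 * L)).filter (fun l' : ℕ => |(l : ℝ) - l'| < D)).card : ℝ) * M := by
              rw [sum_const, nsmul_eq_mul]
          _ ≤ (2 * D + 1) * M :=
              mul_le_mul_of_nonneg_right (close_count _ l D hD) (Nat.cast_nonneg _)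
      · calc ∑ l' ∈ (Ioc L (2 * L)).filter (fun l' : ℕ => ¬ |(l : ℝ) - l'| < D),
              ‖∑ m ∈ Ioc M (2 * M), g m l * (starRingEnd ℂ) (g m l')‖ ≤
              ∑ l' ∈ (Ioc L (2 * L)).filter (fun l' : ℕ => ¬ |(l : ℝ) - l'| < D), P := by
              apply sum_le_sum
              intro l' hl'
              rw [mem_filter] at hl'
              apply hfar l hl l' hl'.1 hl'.2
              intro heq
              apply hl'.2
              rw [heq, sub_self, abs_zero]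
              exact hDpos
          _ = (((Ioc L (2 * L)).filter (fun l' : ℕ => ¬ |(l : ℝ) - l'| < D)).card : ℝ) * P := by
              rw [sum_const, nsmul_eq_mul]
          _ ≤ L * P := by
              apply mul_le_mul_of_nonneg_right _ hP
              have h3 := card_filter_le (Ioc L (2 * L)) (fun l' : ℕ => ¬ |(l : ℝ) - l'| < D)
              rw [Nat.card_Ioc] at h3
              exact_mod_cast (by omega :
                ((Ioc L (2 * L)).filter (fun l' : ℕ => ¬ |(l : ℝ) - l'| < D)).card ≤ L)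
  exact bilin _ _ x y g T hTj


/-- sums over primes with a power of the prime -/
theorem vm_pow {θ : ℝ} (hθ0 : 0 < θ) (hθ : ∀ m : ℕ, θ ≠ m) (A : ℝ) (hA : 0 ≤ A) :
    ∃ τ : ℝ, 0 < τ ∧ τ ≤ 1 / 16 ∧ ∃ x₀ : ℕ, ∀ N : ℕ, x₀ ≤ N → ∀ f : ℝ, 1 ≤ f → f ≤ (N : ℝ) ^ A →
      ∀ N' : ℕ, N ≤ N' → N' ≤ 2 * N →
      ‖∑ n ∈ Ioc N N', ((ArithmeticFunction.vonMangoldt n : ℝ) : ℂ) * e (f * (n : ℝ) ^ θ)‖ ≤
        (N : ℝ) ^ (1 - τ) := by
  obtain ⟨ρ, hρ, hρ4, X0, hX0⟩ := pow_block hθ0 hθ (4 * (A + θ + 1) + 1) (by positivity)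
  set η : ℝ := min (ρ / 4) (θ / 8) with hη
  have hη0 : 0 < η := lt_min (by positivity) (by positivity)
  have hη1 : η ≤ ρ / 4 := min_le_left _ _
  have hη2 : η ≤ θ / 8 := min_le_right _ _
  have hlog : ∀ᶠ x : ℝ in atTop, 51 * (1 + Real.log (4 * x)) ^ 5 ≤ x ^ (η / 4) := by
    have e1 := (isLittleO_log_rpow_atTop (show (0 : ℝ) < η / 44 by positivity)).def
      (show (0 : ℝ) < 1 by norm_num)
    filter_upwards [e1, eventually_ge_atTop (1 : ℝ),
      (tendsto_rpow_atTop (show (0 : ℝ) < η / 44 by positivity)).eventually_ge_atTop 51]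
      with x h1 h2 h46
    have h4 : 0 ≤ Real.log x := Real.log_nonneg h2
    rw [Real.norm_eq_abs, Real.norm_eq_abs, abs_of_nonneg h4, abs_of_nonneg (by positivity),
      one_mul] at h1
    have hx0 : (0 : ℝ) < x := by linarith
    have h5 : Real.log (4 * x) = Real.log 4 + Real.log x := Real.log_mul (by norm_num) (by linarith)
    have h6 : Real.log 4 ≤ 2 := by
      have h7 : Real.log 4 = 2 * Real.log 2 := by
        rw [show (4 : ℝ) = 2 ^ 2 by norm_num, Real.log_pow]; push_cast; ring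
      have := Real.log_two_lt_d9
      linarith
    set y : ℝ := x ^ (η / 44) with hy
    have h8 : 1 + Real.log (4 * x) ≤ y ^ 2 := by
      rw [h5]
      nlinarith
    have h9 : 0 ≤ 1 + Real.log (4 * x) := by
      have := Real.log_nonneg (show (1 : ℝ) ≤ 4 * x by linarith)
      linarith
    have h10 : x ^ (η / 4) = y ^ 11 := by
      rw [hy, ← Real.rpow_natCast, ← Real.rpow_mul hx0.le]
      congr 1
      push_cast
      ring
    have hy0 : 0 ≤ y := by linarith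
    rw [h10]
    calc 51 * (1 + Real.log (4 * x)) ^ 5 ≤ y * (y ^ 2) ^ 5 := by gcongr
      _ = y ^ 11 := by ring
  -- thresholds for a small variable
  set K₁ : ℝ := max (X0 : ℝ) (16 ^ (A + θ + 1)) with hK₁
  have hev : ∀ᶠ x : ℝ in atTop, 51 * (1 + Real.log (4 * x)) ^ 5 ≤ x ^ (η / 4) ∧
      2 * K₁ + 2 ≤ x ^ (1 / 4 : ℝ) ∧ 2 * (2 * 2 ^ θ) / θ ≤ x ^ (θ / 8) ∧ 4 ^ θ ≤ x ∧ 10 ^ 4 ≤ x := by
    filter_upwards [hlog, (tendsto_rpow_atTop (show (0 : ℝ) < 1 / 4 by norm_num)).eventually_ge_atTop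
      (2 * K₁ + 2), (tendsto_rpow_atTop (show (0 : ℝ) < θ / 8 by positivity)).eventually_ge_atTop
      (2 * (2 * 2 ^ θ) / θ), eventually_ge_atTop ((4 : ℝ) ^ θ), eventually_ge_atTop (10 ^ 4 : ℝ)]
      with x a1 a2 a3 a4 a5
    exact ⟨a1, a2, a3, a4, a5⟩
  obtain ⟨x₃, hx₃⟩ := eventually_atTop.mp hev
  refine ⟨η / 4, by positivity, by linarith, ⌈x₃⌉₊, ?_⟩
  intro N hN f hf1 hfA N' hNN' hN'
  obtain ⟨hlogN, hKN, hθN, h4θ, hN4⟩ := hx₃ N (Nat.ceil_le.mp hN)
  have hN4n : 10 ^ 4 ≤ N := by exact_mod_cast hN4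
  have hN0 : (0 : ℝ) < N := by linarith
  have hN1 : (1 : ℝ) ≤ N := by linarith
  have hK0 : 0 ≤ K₁ := (Nat.cast_nonneg X0).trans (le_max_left _ _)
  set Lg : ℝ := 1 + Real.log (4 * N) with hLg
  have hlog4N : 0 ≤ Real.log (4 * (N : ℝ)) := Real.log_nonneg (by linarith)
  have hLg1 : 1 ≤ Lg := by linarith
  set U : ℕ := Nat.sqrt (Nat.sqrt N) with hU
  have hU1 : U * U ≤ Nat.sqrt N := Nat.sqrt_le (Nat.sqrt N)
  have hU2 : Nat.sqrt N * Nat.sqrt N ≤ N := Nat.sqrt_le N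
  have hU3 : N < (U + 1) ^ 4 := by
    have h4 : Nat.sqrt N < (U + 1) * (U + 1) := by rw [hU]; exact Nat.lt_succ_sqrt _
    have h5 : N < (Nat.sqrt N + 1) * (Nat.sqrt N + 1) := Nat.lt_succ_sqrt _
    have h6 : Nat.sqrt N + 1 ≤ (U + 1) * (U + 1) := h4
    calc N < (Nat.sqrt N + 1) * (Nat.sqrt N + 1) := h5
      _ ≤ ((U + 1) * (U + 1)) * ((U + 1) * (U + 1)) := Nat.mul_le_mul h6 h6
      _ = (U + 1) ^ 4 := by ring
  have hU9 : 1 ≤ U := by
    by_contra hcon
    have h1 : U + 1 ≤ 1 := by omega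
    have h2 : (U + 1) ^ 4 ≤ 1 ^ 4 := Nat.pow_le_pow_left h1 4
    omega
  have hUsq : U * U ≤ N := hU1.trans (Nat.sqrt_le_self N)
  -- a variable which is at least a multiple of the fourth root of `N`
  have hbig : ∀ X : ℕ, (N : ℝ) ≤ (2 * (X : ℝ)) ^ 4 → X0 ≤ X ∧ 1 ≤ X ∧
      (N : ℝ) ^ (A + θ + 1) ≤ (X : ℝ) ^ (4 * (A + θ + 1) + 1) ∧ (N : ℝ) ^ (1 / 4 : ℝ) ≤ 2 * X := by
    intro X hX
    have h1 : (N : ℝ) ^ ((1 : ℝ) / 4) ≤ 2 * X := by
      have h3 : (N : ℝ) ^ ((1 : ℝ) / 4) ≤ ((2 * (X : ℝ)) ^ 4) ^ ((1 : ℝ) / 4) :=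
        Real.rpow_le_rpow hN0.le hX (by norm_num)
      refine h3.trans (le_of_eq ?_)
      rw [← Real.rpow_natCast, ← Real.rpow_mul (by positivity)]
      norm_num
    have h2 : K₁ + 1 ≤ X := by linarith
    have h3 : (X0 : ℝ) ≤ X := by linarith [le_max_left (X0 : ℝ) (16 ^ (A + θ + 1))]
    have h4 : (16 : ℝ) ^ (A + θ + 1) ≤ X := by linarith [le_max_right (X0 : ℝ) (16 ^ (A + θ + 1))]
    have h5 : (1 : ℝ) ≤ X := by linarith
    have hXp : (0 : ℝ) < X := by linarith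
    refine ⟨by exact_mod_cast h3, by exact_mod_cast h5, ?_, h1⟩
    calc (N : ℝ) ^ (A + θ + 1) ≤ ((2 * (X : ℝ)) ^ 4) ^ (A + θ + 1) :=
          Real.rpow_le_rpow hN0.le hX (by positivity)
      _ = (16 * (X : ℝ) ^ 4) ^ (A + θ + 1) := by congr 1; ring
      _ = 16 ^ (A + θ + 1) * ((X : ℝ) ^ 4) ^ (A + θ + 1) :=
          Real.mul_rpow (by norm_num) (by positivity)
      _ = 16 ^ (A + θ + 1) * (X : ℝ) ^ (4 * (A + θ + 1)) := by
          rw [← Real.rpow_natCast (X : ℝ) 4, ← Real.rpow_mul hXp.le]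
          norm_num
      _ ≤ X * (X : ℝ) ^ (4 * (A + θ + 1)) := by gcongr
      _ = (X : ℝ) ^ (4 * (A + θ + 1) + 1) := by
          rw [Real.rpow_add hXp, Real.rpow_one]
          ring
  set Y : ℕ → ℝ := fun m => (N / m) * (N : ℝ) ^ (-(ρ / 2)) with hY
  set R : ℝ := 6 * (N : ℝ) ^ (1 - η / 2) with hR
  have hR2 : R ^ 2 = 36 * ((N : ℝ) ^ 2 * (N : ℝ) ^ (-η)) := by
    have h1 : ((N : ℝ) ^ (1 - η / 2)) ^ 2 = (N : ℝ) ^ 2 * (N : ℝ) ^ (-η) := by
      rw [← Real.rpow_natCast, ← Real.rpow_mul hN0.le, ← Real.rpow_natCast (N : ℝ) 2,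
        ← Real.rpow_add hN0]
      congr 1
      push_cast
      ring
    rw [hR, mul_pow, h1]
    norm_num
  have hmain := vaughan_gen (fun n => e (f * (n : ℝ) ^ θ)) N N' U (by omega) hNN' hN' hU9 hUsq Y R
    (by positivity) (fun m => by simp only [hY]; positivity) ?_ ?_
  · refine hmain.trans ?_
    have h1 : ∑ m ∈ Icc 1 (U * U), Y m ≤ (N : ℝ) * (N : ℝ) ^ (-(ρ / 2)) * Lg := by
      have h2 : ∑ m ∈ Icc 1 (U * U), Y m =
          (N : ℝ) * (N : ℝ) ^ (-(ρ / 2)) * ∑ m ∈ Icc 1 (U * U), 1 / (m : ℝ) := by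
        rw [mul_sum]
        apply sum_congr rfl
        intro m _
        simp only [hY]
        ring
      rw [h2]
      apply mul_le_mul_of_nonneg_left _ (by positivity)
      refine (harm (U * U)).trans ?_
      have : Real.log (((U * U : ℕ) : ℝ) + 1) ≤ Real.log (4 * N) := by
        apply Real.log_le_log (by positivity)
        have h1 : ((U * U : ℕ) : ℝ) ≤ N := by exact_mod_cast hUsq
        linarith
      linarith
    have h3 : (N : ℝ) * (N : ℝ) ^ (-(ρ / 2)) ≤ (N : ℝ) ^ (1 - η / 2) := by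
      calc (N : ℝ) * (N : ℝ) ^ (-(ρ / 2)) = (N : ℝ) ^ (1 : ℝ) * (N : ℝ) ^ (-(ρ / 2)) := by
            rw [Real.rpow_one]
        _ = (N : ℝ) ^ (1 + -(ρ / 2)) := by rw [← Real.rpow_add hN0]
        _ ≤ _ := Real.rpow_le_rpow_of_exponent_le hN1 (by linarith)
    have hp := Real.rpow_pos_of_pos hN0 (1 - η / 2)
    have hLg5 : Lg * Lg ≤ Lg ^ 5 := by
      calc Lg * Lg = Lg ^ 2 := by ring
        _ ≤ Lg ^ 5 := pow_le_pow_right₀ hLg1 (by norm_num)
    calc 8 * Lg ^ 5 * R + 3 * Lg * ∑ m ∈ Icc 1 (U * U), Y m ≤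
          8 * Lg ^ 5 * R + 3 * Lg * ((N : ℝ) * (N : ℝ) ^ (-(ρ / 2)) * Lg) := by gcongr
      _ = 48 * Lg ^ 5 * (N : ℝ) ^ (1 - η / 2) +
          3 * (Lg * Lg) * ((N : ℝ) * (N : ℝ) ^ (-(ρ / 2))) := by rw [hR]; ring
      _ ≤ 48 * Lg ^ 5 * (N : ℝ) ^ (1 - η / 2) + 3 * Lg ^ 5 * (N : ℝ) ^ (1 - η / 2) := by gcongr
      _ = 51 * Lg ^ 5 * (N : ℝ) ^ (1 - η / 2) := by ring
      _ ≤ (N : ℝ) ^ (η / 4) * (N : ℝ) ^ (1 - η / 2) := by gcongr
      _ = (N : ℝ) ^ (1 - η / 4) := by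
          rw [← Real.rpow_add hN0]
          congr 1
          ring
  · -- type I
    intro m hm b hb
    rw [mem_Icc] at hm
    have hm1 : 1 ≤ m := hm.1
    have hmR : (1 : ℝ) ≤ m := by exact_mod_cast hm1
    have hmp : (0 : ℝ) < m := by linarith
    have hmm : m * m ≤ N :=
      (Nat.mul_le_mul (hm.2.trans hU1) (hm.2.trans hU1)).trans hU2
    set X : ℕ := N / m with hX
    have hmX : m ≤ X := (Nat.le_div_iff_mul_le hm1).mpr hmm
    have hX1 : 1 ≤ X := hm1.trans hmX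
    have hNX : N < (X + 1) * m := by
      rw [mul_comm, hX]
      exact Nat.lt_mul_div_succ N hm1
    have hNX2 : N ≤ 4 * (X * X) := by nlinarith
    have hXR : (1 : ℝ) ≤ X := by exact_mod_cast hX1
    have hXp : (0 : ℝ) < X := by linarith
    obtain ⟨b1, b2, b3, b4⟩ := hbig X (by
      have h1 : (N : ℝ) ≤ 4 * ((X : ℝ) * X) := by exact_mod_cast hNX2
      have h2 : (2 * (X : ℝ)) ^ 4 = 16 * ((X : ℝ) * X) * ((X : ℝ) * X) := by ring
      have h3 : 1 ≤ (X : ℝ) * X := by nlinarith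
      rw [h2]
      nlinarith)
    have hbX : b ≤ 3 * X := by
      have h1 : N' / m ≤ 2 * N / m := Nat.div_le_div_right hN'
      have h2 : 2 * N / m ≤ 2 * X + 1 := by
        rw [← Nat.lt_succ_iff, Nat.div_lt_iff_lt_mul hm1]
        calc 2 * N < 2 * ((X + 1) * m) := by omega
          _ = (2 * X + 1).succ * m := by rw [Nat.succ_eq_add_one]; ring
      omega
    have hfr1 : 1 ≤ f * (m : ℝ) ^ θ := by
      have : 1 ≤ (m : ℝ) ^ θ := Real.one_le_rpow hmR hθ0.le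
      nlinarith
    have hmN : (m : ℝ) ≤ N := by
      have : m ≤ N := (Nat.le_mul_self m).trans hmm
      exact_mod_cast this
    have hfr2 : f * (m : ℝ) ^ θ ≤ (X : ℝ) ^ (4 * (A + θ + 1) + 1) := by
      calc f * (m : ℝ) ^ θ ≤ (N : ℝ) ^ A * (N : ℝ) ^ θ := by gcongr
        _ = (N : ℝ) ^ (A + θ) := (Real.rpow_add hN0 _ _).symm
        _ ≤ (N : ℝ) ^ (A + θ + 1) := Real.rpow_le_rpow_of_exponent_le hN1 (by linarith)
        _ ≤ _ := b3
    have h1 := hX0 X b1 b hbX _ hfr1 hfr2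
    have h2 : ∑ l ∈ Ioc (N / m) b, e (f * ((m * l : ℕ) : ℝ) ^ θ) =
        ∑ l ∈ Ioc X b, e (f * (m : ℝ) ^ θ * (l : ℝ) ^ θ) := by
      apply sum_congr rfl
      intro l _
      congr 1
      push_cast
      rw [Real.mul_rpow hmp.le (Nat.cast_nonneg _)]
      ring
    rw [h2]
    refine h1.trans ?_
    simp only [hY]
    have hXN : (X : ℝ) ≤ N / m := Nat.cast_div_le
    have hNm : 0 < (N : ℝ) / m := by positivity
    have hNm2 : (N : ℝ) ^ (1 / 2 : ℝ) ≤ N / m := by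
      rw [le_div_iff₀ hmp]
      have h3 : (m : ℝ) ≤ (N : ℝ) ^ (1 / 2 : ℝ) := by
        rw [← Real.sqrt_eq_rpow]
        apply Real.le_sqrt_of_sq_le
        have : m ^ 2 ≤ N := by rw [sq]; exact hmm
        exact_mod_cast this
      calc (N : ℝ) ^ (1 / 2 : ℝ) * m ≤ (N : ℝ) ^ (1 / 2 : ℝ) * (N : ℝ) ^ (1 / 2 : ℝ) := by gcongr
        _ = N := by rw [← Real.rpow_add hN0]; norm_num
    calc (X : ℝ) ^ (1 - ρ) ≤ (N / m : ℝ) ^ (1 - ρ) := Real.rpow_le_rpow hXp.le hXN (by linarith)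
      _ = (N / m : ℝ) * (N / m : ℝ) ^ (-ρ) := by
          rw [sub_eq_add_neg, Real.rpow_add hNm, Real.rpow_one]
      _ ≤ (N / m : ℝ) * ((N : ℝ) ^ (1 / 2 : ℝ)) ^ (-ρ) := by
          refine mul_le_mul_of_nonneg_left ?_ hNm.le
          exact Real.rpow_le_rpow_of_nonpos (by positivity) hNm2 (by linarith)
      _ = (N / m : ℝ) * (N : ℝ) ^ (-(ρ / 2)) := by
          rw [← Real.rpow_mul hN0.le]
          congr 2
          ring
  · -- type II
    intro x y A₂ B₂ hA₂ hB M L hM hL hUM hUL hML hsa hsb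
    have hMr : (1 : ℝ) ≤ M := by exact_mod_cast hM
    have hLr : (1 : ℝ) ≤ L := by exact_mod_cast hL
    have hM0 : (0 : ℝ) < M := by linarith
    have hL0 : (0 : ℝ) < L := by linarith
    have hNM : N < (2 * M) ^ 4 := lt_of_lt_of_le hU3 (Nat.pow_le_pow_left (by omega) 4)
    have hNL : N < (2 * L) ^ 4 := lt_of_lt_of_le hU3 (Nat.pow_le_pow_left (by omega) 4)
    have hMb := hbig M (by exact_mod_cast hNM.le)
    have hLb := hbig L (by exact_mod_cast hNL.le)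
    set D : ℝ := (L : ℝ) * (N : ℝ) ^ (-η) with hD
    set P : ℝ := 2 * (M : ℝ) ^ (1 - ρ) with hP
    have hLN : (L : ℝ) ≤ 2 * N := by
      have h1 : L ≤ 2 * N := (Nat.le_mul_of_pos_left L hM).trans (hML.trans hN')
      exact_mod_cast h1
    have h1 := type_II (fun n => f * (n : ℝ) ^ θ) N N' M L P D (by positivity) (by positivity) hM hL
      (fun l l' a b g1 g2 g3 g4 g5 _ _ g8 => by
        have hl' : (L : ℝ) < l' := by exact_mod_cast g1
        have hll : (l' : ℝ) < l := by exact_mod_cast g2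
        have hl : (l : ℝ) ≤ 2 * L := by exact_mod_cast g3
        rcases le_or_gt b a with hba | hba
        · rw [Finset.Ioc_eq_empty (by omega), sum_empty, norm_zero]
          positivity
        have haR : (M : ℝ) ≤ a := by exact_mod_cast g4
        have ha2 : (a : ℝ) ≤ 2 * M := by exact_mod_cast (by omega : a ≤ 2 * M)
        have hgap := rpow_gap hθ0 hL0 hl'.le hll hl
        have hlo : 1 ≤ f * ((l : ℝ) ^ θ - (l' : ℝ) ^ θ) := by
          have k1 : θ / 2 * (L : ℝ) ^ (θ - 1) * D ≤ (l : ℝ) ^ θ - (l' : ℝ) ^ θ :=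
            (mul_le_mul_of_nonneg_left g8 (by positivity)).trans hgap
          have k2 : θ / 2 * (L : ℝ) ^ (θ - 1) * D = θ / 2 * (L : ℝ) ^ θ * (N : ℝ) ^ (-η) := by
            rw [hD, Real.rpow_sub hL0, Real.rpow_one]
            field_simp
          have k3 : (N : ℝ) ^ (θ / 4) / 2 ^ θ ≤ (L : ℝ) ^ θ := by
            rw [div_le_iff₀ (by positivity), mul_comm, ← Real.mul_rpow (by norm_num) hL0.le]
            calc (N : ℝ) ^ (θ / 4) = ((N : ℝ) ^ (1 / 4 : ℝ)) ^ θ := by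
                  rw [← Real.rpow_mul hN0.le]; congr 1; ring
              _ ≤ (2 * (L : ℝ)) ^ θ := Real.rpow_le_rpow (by positivity) hLb.2.2.2 hθ0.le
          have k4 : (N : ℝ) ^ (θ / 8) ≤ (N : ℝ) ^ (θ / 4) * (N : ℝ) ^ (-η) := by
            rw [← Real.rpow_add hN0]
            exact Real.rpow_le_rpow_of_exponent_le hN1 (by linarith)
          have k5 : 1 ≤ θ / 2 * (L : ℝ) ^ θ * (N : ℝ) ^ (-η) := by
            have k6 : 0 < (N : ℝ) ^ (-η) := by positivity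
            have k7 : (0 : ℝ) < 2 ^ θ := by positivity
            calc (1 : ℝ) ≤ θ / 2 / 2 ^ θ * (2 * (2 * 2 ^ θ) / θ) := by
                  rw [show θ / 2 / 2 ^ θ * (2 * (2 * 2 ^ θ) / θ) = 2 by field_simp]
                  norm_num
              _ ≤ θ / 2 / 2 ^ θ * (N : ℝ) ^ (θ / 8) := by gcongr
              _ ≤ θ / 2 / 2 ^ θ * ((N : ℝ) ^ (θ / 4) * (N : ℝ) ^ (-η)) := by gcongr
              _ = θ / 2 * ((N : ℝ) ^ (θ / 4) / 2 ^ θ) * (N : ℝ) ^ (-η) := by ring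
              _ ≤ _ := by gcongr
          nlinarith
        have hup : f * ((l : ℝ) ^ θ - (l' : ℝ) ^ θ) ≤ (a : ℝ) ^ (4 * (A + θ + 1) + 1) := by
          have k1 : (l : ℝ) ^ θ - (l' : ℝ) ^ θ ≤ (4 * N) ^ θ := by
            have k2 : (l : ℝ) ^ θ ≤ (4 * N) ^ θ :=
              Real.rpow_le_rpow (Nat.cast_nonneg _) (by linarith) hθ0.le
            have k3 : 0 ≤ (l' : ℝ) ^ θ := by positivity
            linarith
          have k2 : ((4 : ℝ) * N) ^ θ = 4 ^ θ * (N : ℝ) ^ θ := Real.mul_rpow (by norm_num) hN0.le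
          calc f * ((l : ℝ) ^ θ - (l' : ℝ) ^ θ) ≤ (N : ℝ) ^ A * (4 ^ θ * (N : ℝ) ^ θ) := by
                rw [← k2]
                exact mul_le_mul hfA k1 (by
                  have := Real.rpow_le_rpow (Nat.cast_nonneg _) hll.le hθ0.le
                  linarith) (by positivity)
            _ ≤ (N : ℝ) ^ A * ((N : ℝ) * (N : ℝ) ^ θ) := by gcongr
            _ = (N : ℝ) ^ (A + θ + 1) := by
                rw [Real.rpow_add hN0, Real.rpow_add hN0, Real.rpow_one]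
                ring
            _ ≤ (M : ℝ) ^ (4 * (A + θ + 1) + 1) := hMb.2.2.1
            _ ≤ _ := Real.rpow_le_rpow hM0.le haR (by positivity)
        have h1 := hX0 a (hMb.1.trans g4) b (by omega) _ hlo hup
        have h2 : ∑ m ∈ Ioc a b, e ((fun n : ℕ => f * (n : ℝ) ^ θ) (l * m) -
            (fun n : ℕ => f * (n : ℝ) ^ θ) (l' * m)) =
            ∑ m ∈ Ioc a b, e (f * ((l : ℝ) ^ θ - (l' : ℝ) ^ θ) * (m : ℝ) ^ θ) := by
          refine sum_congr rfl fun m _ => ?_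
          congr 1
          simp only
          push_cast
          rw [Real.mul_rpow (Nat.cast_nonneg _) (Nat.cast_nonneg _),
            Real.mul_rpow (Nat.cast_nonneg _) (Nat.cast_nonneg _)]
          ring
        rw [h2]
        refine h1.trans ?_
        calc (a : ℝ) ^ (1 - ρ) ≤ (2 * M) ^ (1 - ρ) :=
              Real.rpow_le_rpow (Nat.cast_nonneg _) ha2 (by linarith)
          _ = 2 ^ (1 - ρ) * (M : ℝ) ^ (1 - ρ) := Real.mul_rpow (by norm_num) hM0.le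
          _ ≤ 2 ^ (1 : ℝ) * (M : ℝ) ^ (1 - ρ) := by
              gcongr
              · norm_num
              · linarith
          _ = P := by rw [Real.rpow_one, hP]) x y
    refine h1.trans ?_
    rw [hR2]
    set T : ℝ := (2 * D + 1) * M + L * P with hT
    have hT0 : 0 ≤ T := by positivity
    have hNη : 0 < (N : ℝ) ^ (-η) := Real.rpow_pos_of_pos hN0 _
    have t1 : (1 : ℝ) / L ≤ 2 * (N : ℝ) ^ (-η) := by
      have h2 := hLb.2.2.2
      have h3 : (N : ℝ) ^ η ≤ (N : ℝ) ^ (1 / 4 : ℝ) :=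
        Real.rpow_le_rpow_of_exponent_le hN1 (by linarith)
      rw [Real.rpow_neg hN0.le, div_le_iff₀ hL0]
      have h4 : 0 < (N : ℝ) ^ η := Real.rpow_pos_of_pos hN0 _
      have h5 : (N : ℝ) ^ η ≤ 2 * L := h3.trans h2
      calc (1 : ℝ) = (N : ℝ) ^ η * ((N : ℝ) ^ η)⁻¹ := by field_simp
        _ ≤ 2 * L * ((N : ℝ) ^ η)⁻¹ := by gcongr
        _ = _ := by ring
    have t2 : (M : ℝ) ^ (-ρ) ≤ 2 * (N : ℝ) ^ (-η) := by
      have h2 := hMb.2.2.2
      have h3 : (2 * (M : ℝ)) ^ (-ρ) ≤ ((N : ℝ) ^ (1 / 4 : ℝ)) ^ (-ρ) :=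
        Real.rpow_le_rpow_of_nonpos (by positivity) h2 (by linarith)
      rw [← Real.rpow_mul hN0.le, Real.mul_rpow (by norm_num) hM0.le] at h3
      have h4 : (1 : ℝ) / 2 ≤ (2 : ℝ) ^ (-ρ) := by
        calc (1 : ℝ) / 2 = (2 : ℝ) ^ (-1 : ℝ) := by rw [Real.rpow_neg_one]; norm_num
          _ ≤ _ := Real.rpow_le_rpow_of_exponent_le (by norm_num) (by linarith)
      have h5 : (N : ℝ) ^ (1 / 4 * -ρ) ≤ (N : ℝ) ^ (-η) :=
        Real.rpow_le_rpow_of_exponent_le hN1 (by linarith)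
      have h6 : 0 < (M : ℝ) ^ (-ρ) := Real.rpow_pos_of_pos hM0 _
      nlinarith
    have hMLr : (M : ℝ) * L ≤ 2 * N := by
      have : ((M * L : ℕ) : ℝ) ≤ ((2 * N : ℕ) : ℝ) := by exact_mod_cast hML.trans hN'
      push_cast at this; exact this
    have hMLT : (M : ℝ) * L * T ≤ 36 * ((N : ℝ) ^ 2 * (N : ℝ) ^ (-η)) := by
      have e1 : (M : ℝ) * L * T = ((M : ℝ) * L) ^ 2 *
          (2 * (N : ℝ) ^ (-η) + 1 / L + 2 * (M : ℝ) ^ (-ρ)) := by
        have e2 : P = 2 * (M * (M : ℝ) ^ (-ρ)) := by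
          rw [hP, sub_eq_add_neg, Real.rpow_add hM0, Real.rpow_one]
        rw [hT, e2, hD]
        field_simp
      rw [e1]
      calc ((M : ℝ) * L) ^ 2 * (2 * (N : ℝ) ^ (-η) + 1 / L + 2 * (M : ℝ) ^ (-ρ)) ≤
            (2 * N) ^ 2 * (2 * (N : ℝ) ^ (-η) + 2 * (N : ℝ) ^ (-η) + 2 * (2 * (N : ℝ) ^ (-η))) := by
            gcongr
        _ = 32 * ((N : ℝ) ^ 2 * (N : ℝ) ^ (-η)) := by ring
        _ ≤ _ := by
            have : 0 ≤ (N : ℝ) ^ 2 * (N : ℝ) ^ (-η) := by positivity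
            linarith
    calc (∑ m ∈ Ioc M (2 * M), ‖x m‖ ^ 2) * ((∑ l ∈ Ioc L (2 * L), ‖y l‖ ^ 2) * T)
        ≤ (A₂ * M) * ((B₂ * L) * T) := by
          apply mul_le_mul hsa _ _ (by positivity)
          · exact mul_le_mul_of_nonneg_right hsb hT0
          · exact mul_nonneg (sum_nonneg fun _ _ => by positivity) hT0
      _ = A₂ * B₂ * ((M : ℝ) * L * T) := by ring
      _ ≤ A₂ * B₂ * (36 * ((N : ℝ) ^ 2 * (N : ℝ) ^ (-η))) :=
          mul_le_mul_of_nonneg_left hMLT (by positivity)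

end Pool.Agent.Q270.SP
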